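import Pool.Agent.Lib.MP_a325a5_ag.S.ThmL
import Pool.Agent.Lib.MP_a325a5_ag.F2.Hbd2

/-! Theorem S: a linear equation in the division hulls of the groups of a line, uniform in the point.

Proof.  Let `L` be the number field generated by the `α j`, `γ j` and the coefficients of the `f i`.
Apply `thmS_L` with the height bound `hbd2`; `H` is the set of all `g` with `(g i).1 ^ N = 1` and
`|(g i).2 j| ≤ C`. -/

namespace BMF

open NumberField Pool.Agent.Lib.MP_a325a5_ag.UL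

private theorem thmS_fin (n N C : ℕ) (hN : 0 < N) :
    {g : Fin (n + 1) → (AlgebraicClosure ℚ)ˣ × (Fin 3 → ℤ) |
      ∀ i, (g i).1 ^ N = 1 ∧ ∀ j, |(g i).2 j| ≤ C}.Finite := by
  haveI : NeZero N := ⟨hN.ne'⟩
  have h1 : {x : (AlgebraicClosure ℚ)ˣ | x ^ N = 1}.Finite := by
    have : Finite (rootsOfUnity N (AlgebraicClosure ℚ)) := inferInstance
    refine Set.Finite.subset (Set.toFinite (rootsOfUnity N (AlgebraicClosure ℚ) : Set _)) ?_
    intro x hx
    exact (mem_rootsOfUnity N x).mpr hx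
  have h2 : {k : Fin 3 → ℤ | ∀ j, |k j| ≤ C}.Finite := by
    have h3 : {k : Fin 3 → ℤ | ∀ j, |k j| ≤ C} = Set.pi Set.univ fun _ => Set.Icc (-(C : ℤ)) C := by
      ext k
      simp only [Set.mem_ofPred_eq, Set.mem_pi, Set.mem_univ, true_imp_iff, Set.mem_Icc, abs_le]
    rw [h3]
    exact Set.Finite.pi fun _ => Set.finite_Icc (-(C : ℤ)) (C : ℤ)
  have h4 : {g : Fin (n + 1) → (AlgebraicClosure ℚ)ˣ × (Fin 3 → ℤ) |
      ∀ i, (g i).1 ^ N = 1 ∧ ∀ j, |(g i).2 j| ≤ C} ⊆
      Set.pi Set.univ fun _ => {x : (AlgebraicClosure ℚ)ˣ | x ^ N = 1} ×ˢ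
        {k : Fin 3 → ℤ | ∀ j, |k j| ≤ C} := by
    intro g hg i _
    exact ⟨(hg i).1, (hg i).2⟩
  exact (Set.Finite.pi fun _ => h1.prod h2).subset h4

theorem thmS (α γ : Fin 3 → AlgebraicClosure ℚ) (hα : Function.Injective α) (hγ : ∀ j, γ j ≠ 0)
    (τ : AlgebraicClosure ℚ →+* ℂ)
    (hNA : ∀ d : Fin 3 → ℝ, d ≠ 0 → (ray (fun j => τ (γ j)) (fun j => τ (α j)) d).Finite)
    (n : ℕ) (hn : 1 ≤ n) (f : Fin (n + 1) → Polynomial (AlgebraicClosure ℚ)) (hf : ∀ i, f i ≠ 0) :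
    ∃ T : Set (AlgebraicClosure ℚ), T.Finite ∧
      ∃ H : Set (Fin (n + 1) → (AlgebraicClosure ℚ)ˣ × (Fin 3 → ℤ)), H.Finite ∧
        (∀ g ∈ H, ∀ i, IsOfFinOrder (g i).1) ∧
        ∀ (t : AlgebraicClosure ℚ) (c : Fin 3 → (AlgebraicClosure ℚ)ˣ)
          (z : Fin (n + 1) → (AlgebraicClosure ℚ)ˣ),
          (∀ j, (c j : AlgebraicClosure ℚ) = γ j * (t - α j)) →
          NVS (fun i => (f i).eval t * (z i : AlgebraicClosure ℚ)) → mr (Sum.elim c z) ≤ 2 →
          t ∈ T ∨ ∃ g ∈ H, ∀ i, z i = z 0 * (g i).1 * ∏ j, c j ^ (g i).2 j := by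
  classical
  let S : Set (AlgebraicClosure ℚ) := Set.range α ∪ Set.range γ ∪ ⋃ i, ((f i).coeffs : Set _)
  have hSf : S.Finite := ((Set.finite_range α).union (Set.finite_range γ)).union
    (Set.finite_iUnion fun i => Finset.finite_toSet _)
  haveI : Finite S := hSf.to_subtype
  let L := IntermediateField.adjoin ℚ S
  haveI hfd : FiniteDimensional ℚ L :=
    IntermediateField.finiteDimensional_adjoin fun x _ =>
      (AlgebraicClosure.isAlgebraic ℚ).isAlgebraic x |>.isIntegral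
  haveI : NumberField L := { to_charZero := inferInstance, to_finiteDimensional := hfd }
  have hsub : ∀ x ∈ S, x ∈ L := fun x hx => IntermediateField.subset_adjoin ℚ S hx
  let α' : Fin 3 → L := fun j => ⟨α j, hsub _ (Or.inl (Or.inl ⟨j, rfl⟩))⟩
  let γ' : Fin 3 → L := fun j => ⟨γ j, hsub _ (Or.inl (Or.inr ⟨j, rfl⟩))⟩
  have hα' : Function.Injective α' := fun i j hij => hα (congrArg Subtype.val hij)
  have hγ' : ∀ j, γ' j ≠ 0 := fun j h => hγ j (congrArg Subtype.val h)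
  have hlift : ∀ i, ∃ g : Polynomial L, g.map (algebraMap L (AlgebraicClosure ℚ)) = f i := by
    intro i
    have h1 : f i ∈ Polynomial.lifts (algebraMap L (AlgebraicClosure ℚ)) := by
      rw [Polynomial.lifts_iff_coeffs_subset_range]
      intro x hx
      exact ⟨⟨x, hsub _ (Or.inr (Set.mem_iUnion.mpr ⟨i, hx⟩))⟩, rfl⟩
    exact h1
  choose g hg using hlift
  have hg0 : ∀ i, g i ≠ 0 := by
    intro i h0
    apply hf i
    rw [← hg i, h0, Polynomial.map_zero]
  obtain ⟨T, N, C, hT, hN, hmain⟩ := thmS_L α' γ' hα' hγ' hn g hg0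
    (BMS.hbd2 α' γ' hα' hγ' (τ.comp (algebraMap L (AlgebraicClosure ℚ))) hNA n g)
  refine ⟨T, hT, _, thmS_fin n N C hN, ?_, ?_⟩
  · intro h hh i
    exact isOfFinOrder_iff_pow_eq_one.mpr ⟨N, hN, (hh i).1⟩
  · intro t c z hc hs hm
    have hs' : NVS fun i => Polynomial.aeval t (g i) * (z i : AlgebraicClosure ℚ) := by
      have e : (fun i => Polynomial.aeval t (g i) * (z i : AlgebraicClosure ℚ)) =
          fun i => (f i).eval t * (z i : AlgebraicClosure ℚ) := by
        funext i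
        rw [← hg i, Polynomial.eval_map_algebraMap]
      rw [e]
      exact hs
    rcases hmain t c z hc hs' hm with h | ⟨κ, hκ, hη⟩
    · exact Or.inl h
    · right
      refine ⟨fun i => (z i * (z 0)⁻¹ * ∏ j, c j ^ (-κ i j), κ i), fun i => ⟨hη i, hκ i⟩, ?_⟩
      intro i
      have h1 : (∏ j, c j ^ (-κ i j)) * ∏ j, c j ^ κ i j = 1 := by
        rw [← Finset.prod_mul_distrib]
        refine Finset.prod_eq_one fun j _ => ?_
        rw [← zpow_add, neg_add_cancel, zpow_zero]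
      calc z i = z 0 * (z i * (z 0)⁻¹) := by
            rw [mul_comm (z i), mul_inv_cancel_left]
        _ = z 0 * (z i * (z 0)⁻¹) * ((∏ j, c j ^ (-κ i j)) * ∏ j, c j ^ κ i j) := by
            rw [h1, mul_one]
        _ = _ := by
            simp only [mul_assoc]

end BMF
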