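import Mathlib

/-! The lattice generated by the rows has index |det| in ℤ^n (Int.natAbs_det_equiv, Submodule.natAbs_det_basis_change, AddSubgroup index = |det|, or Smith normal form); choose representatives
of the cosets. -/



namespace BMF

private theorem latR_card {n : ℕ} (D : Matrix (Fin n) (Fin n) ℤ) (hD : D.det ≠ 0) :
    Nat.card ((Fin n → ℤ) ⧸ LinearMap.range (Matrix.toLin' D.transpose)) = D.det.natAbs := by
  have hinj : Function.Injective (Matrix.toLin' D.transpose) := by
    rw [← LinearMap.ker_eq_bot, LinearMap.ker_eq_bot']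
    intro v hv
    rw [Matrix.toLin'_apply] at hv
    exact Matrix.eq_zero_of_mulVec_eq_zero (by rwa [Matrix.det_transpose]) hv
  have h := Submodule.natAbs_det_equiv (LinearMap.range (Matrix.toLin' D.transpose))
    (LinearEquiv.ofInjective _ hinj)
  rw [← h]
  have e : ((LinearMap.range (Matrix.toLin' D.transpose)).subtype ∘ₗ
      AddMonoidHom.toIntLinearMap ((LinearEquiv.ofInjective _ hinj :
        (Fin n → ℤ) ≃ₗ[ℤ] LinearMap.range (Matrix.toLin' D.transpose)) :
        (Fin n → ℤ) →+ LinearMap.range (Matrix.toLin' D.transpose))) =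
      Matrix.toLin' D.transpose := by
    ext v
    rfl
  rw [e, LinearMap.det_toLin', Matrix.det_transpose]

theorem lat_reps {n : ℕ} (b : Fin n → Fin n → ℤ) (hb : (Matrix.of b).det ≠ 0) :
    ∃ R : Finset (Fin n → ℤ), R.card ≤ (Matrix.of b).det.natAbs ∧
      ∀ u : Fin n → ℤ, ∃ u₀ ∈ R, ∃ x : Fin n → ℤ, u = u₀ + ∑ l, x l • b l := by
  classical
  set N := LinearMap.range (Matrix.toLin' (Matrix.of b).transpose) with hN
  have hc : Nat.card ((Fin n → ℤ) ⧸ N) = (Matrix.of b).det.natAbs := latR_card _ hb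
  haveI hfin : Finite ((Fin n → ℤ) ⧸ N) := by
    apply Nat.finite_of_card_ne_zero
    rw [hc]
    exact Int.natAbs_ne_zero.mpr hb
  haveI : Fintype ((Fin n → ℤ) ⧸ N) := Fintype.ofFinite _
  refine ⟨Finset.univ.image (fun q : (Fin n → ℤ) ⧸ N => q.out), ?_, ?_⟩
  · refine Finset.card_image_le.trans ?_
    rw [Finset.card_univ, ← Nat.card_eq_fintype_card, hc]
  · intro u
    set q : (Fin n → ℤ) ⧸ N := Submodule.Quotient.mk u with hq
    refine ⟨q.out, Finset.mem_image_of_mem _ (Finset.mem_univ _), ?_⟩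
    have h1 : Submodule.Quotient.mk (p := N) q.out = Submodule.Quotient.mk u := by
      rw [← hq]; exact Quotient.out_eq q
    have h2 : u - q.out ∈ N := (Submodule.Quotient.eq N).mp h1.symm
    obtain ⟨x, hx⟩ := h2
    refine ⟨x, ?_⟩
    rw [Matrix.toLin'_apply, Matrix.mulVec_transpose] at hx
    have h3 : ∑ l, x l • b l = Matrix.vecMul x (Matrix.of b) := by
      funext j
      simp [Matrix.vecMul, dotProduct, Finset.sum_apply]
    rw [h3, hx]
    abel

end BMF
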