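import Pool.Agent.Lib.MP_a325a5_ag.S.Bs

/-! 5.3.  bs_indep: multiply by bs 1 (M) with M + v_i ≥ 0 for all i, then the bs are the powers (1 + X)^(M + v_i) (bs_nat), linearly independent polynomials (substitute X -> X - 1).
fbB_ne: otherwise by bs_indep with i₀ = 0 the subsum over {i | w_i = 0} vanishes; it is nonempty (0) and proper (w ≠ 0). -/

open NumberField

namespace BMF

/-- the equation on the coset in the direction `w` -/
noncomputable def fbB {L F : Type} [Field L] [Field F] [CharZero F] [Algebra L F] {n : ℕ}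
    (f : Fin (n + 1) → Polynomial L) (t : F) (z : Fin (n + 1) → F) (w : Fin n → ℤ) :
    PowerSeries F :=
  ∑ i, PowerSeries.C (Polynomial.aeval t (f i) * z i) *
    bs (1 : F) (((Fin.cons 0 w : Fin (n + 1) → ℤ) i : ℤ) : ℚ)

theorem fbB_const {L F : Type} [Field L] [Field F] [CharZero F] [Algebra L F] {n : ℕ}
    (f : Fin (n + 1) → Polynomial L) (t : F) (z : Fin (n + 1) → F) (w : Fin n → ℤ) :
    PowerSeries.constantCoeff (fbB f t z w) = ∑ i, Polynomial.aeval t (f i) * z i := by
  rw [fbB, map_sum]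
  refine Finset.sum_congr rfl fun i _ => ?_
  rw [map_mul, bs_const, mul_one, PowerSeries.constantCoeff_C]

private theorem bbmul_gen {L F : Type} [Field L] [Field F] [CharZero F] [Algebra L F] {n : ℕ}
    (f : Fin (n + 1) → Polynomial L) (t : F) (z : Fin (n + 1) → F) (hz0 : z 0 = 1)
    (hz : ∀ i, z i ≠ 0) (w : Fin n → ℤ)
    (k : Type) [Field k] [Algebra k F] (hk : ∀ i, ∃ c : k, algebraMap k F c =
      Polynomial.aeval t (f i)) (C : ℕ) (hC : ∀ i, |w i| ≤ C) (K : ℕ)
    (u : Fin n → ℤ) (hu : |∑ i, w i * u i| ≤ K) (i : Fin (n + 1)) :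
    PowerSeries.C (Polynomial.aeval t (f i) * z i) *
      bs (1 : F) (((Fin.cons 0 w : Fin (n + 1) → ℤ) i : ℤ) : ℚ) *
      (PowerSeries.C (∏ i : Fin n, z i.succ ^ u i) * bs (1 : F) ((∑ i, w i * u i : ℤ) : ℚ)) ∈
      BB k z w (K + C) := by
  obtain ⟨c, hc⟩ := hk i
  -- the new exponent
  obtain ⟨u', h1, h2⟩ : ∃ u' : Fin n → ℤ,
      z i * ∏ j : Fin n, z j.succ ^ u j = ∏ j : Fin n, z j.succ ^ u' j ∧
      (∑ j, w j * u' j : ℤ) = (Fin.cons 0 w : Fin (n + 1) → ℤ) i + ∑ j, w j * u j := by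
    refine Fin.cases ?_ (fun i => ?_) i
    · exact ⟨u, by rw [hz0, one_mul], by simp⟩
    · refine ⟨Function.update u i (u i + 1), ?_, ?_⟩
      · rw [← Finset.mul_prod_erase _ _ (Finset.mem_univ i),
          ← Finset.mul_prod_erase _ (fun j => z j.succ ^ Function.update u i (u i + 1) j)
            (Finset.mem_univ i), ← mul_assoc]
        congr 1
        · rw [Function.update_self, zpow_add₀ (hz i.succ), zpow_one, mul_comm]
        · refine Finset.prod_congr rfl fun j hj => ?_
          rw [Function.update_of_ne (Finset.ne_of_mem_erase hj)]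
      · rw [← Finset.add_sum_erase _ _ (Finset.mem_univ i),
          ← Finset.add_sum_erase _ (fun j => w j * u j) (Finset.mem_univ i), Fin.cons_succ,
          Function.update_self]
        have h3 : ∑ x ∈ Finset.univ.erase i, w x * Function.update u i (u i + 1) x =
            ∑ x ∈ Finset.univ.erase i, w x * u x := by
          refine Finset.sum_congr rfl fun j hj => ?_
          rw [Function.update_of_ne (Finset.ne_of_mem_erase hj)]
        rw [h3]
        ring
  have h3 : |(Fin.cons 0 w : Fin (n + 1) → ℤ) i| ≤ C := by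
    refine Fin.cases ?_ (fun i => ?_) i
    · simp
    · rw [Fin.cons_succ]; exact hC i
  have h4 : PowerSeries.C (Polynomial.aeval t (f i) * z i) *
      bs (1 : F) (((Fin.cons 0 w : Fin (n + 1) → ℤ) i : ℤ) : ℚ) *
      (PowerSeries.C (∏ i : Fin n, z i.succ ^ u i) * bs (1 : F) ((∑ i, w i * u i : ℤ) : ℚ)) =
      c • (PowerSeries.C (∏ j : Fin n, z j.succ ^ u' j) *
        bs (1 : F) ((∑ j, w j * u' j : ℤ) : ℚ)) := by
    have h5 : bs (1 : F) ((∑ j, w j * u' j : ℤ) : ℚ) =
        bs (1 : F) (((Fin.cons 0 w : Fin (n + 1) → ℤ) i : ℤ) : ℚ) *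
          bs (1 : F) ((∑ i, w i * u i : ℤ) : ℚ) := by
      rw [← bs_add, h2]
      congr 1
      exact Int.cast_add _ _
    have h6 : c • (PowerSeries.C (∏ j : Fin n, z j.succ ^ u' j) *
        bs (1 : F) ((∑ j, w j * u' j : ℤ) : ℚ)) = PowerSeries.C (algebraMap k F c) *
        (PowerSeries.C (∏ j : Fin n, z j.succ ^ u' j) *
        bs (1 : F) ((∑ j, w j * u' j : ℤ) : ℚ)) := by
      ext m
      rw [PowerSeries.coeff_C_mul, PowerSeries.coeff_smul, Algebra.smul_def]
    rw [h6, h5, hc, ← h1, map_mul, map_mul]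
    ring
  rw [h4]
  refine Submodule.smul_mem _ _ (Submodule.subset_span ⟨u', ?_, rfl⟩)
  rw [h2]
  push_cast
  have := abs_add_le ((Fin.cons 0 w : Fin (n + 1) → ℤ) i) (∑ j, w j * u j)
  linarith

theorem fbB_mul {L F : Type} [Field L] [Field F] [CharZero F] [Algebra L F] {n : ℕ}
    (f : Fin (n + 1) → Polynomial L) (t : F) (z : Fin (n + 1) → F) (hz0 : z 0 = 1)
    (hz : ∀ i, z i ≠ 0) (w : Fin n → ℤ)
    (k : Type) [Field k] [Algebra k F] (hk : ∀ i, ∃ c : k, algebraMap k F c =
      Polynomial.aeval t (f i)) (C : ℕ) (hC : ∀ i, |w i| ≤ C) (K : ℕ) (g : PowerSeries F)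
    (hg : g ∈ BB k z w K) : fbB f t z w * g ∈ BB k z w (K + C) := by
  refine Submodule.span_induction (p := fun g _ => fbB f t z w * g ∈ BB k z w (K + C))
    ?_ ?_ ?_ ?_ hg
  · rintro g ⟨u, hu, rfl⟩
    rw [fbB, Finset.sum_mul]
    exact Submodule.sum_mem _ fun i _ => bbmul_gen f t z hz0 hz w k hk C hC K u hu i
  · rw [mul_zero]
    exact Submodule.zero_mem _
  · intro x y _ _ hx hy
    rw [mul_add]
    exact Submodule.add_mem _ hx hy
  · intro a x _ hx
    rw [mul_smul_comm]
    exact Submodule.smul_mem _ _ hx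

theorem bs_indep {F : Type} [Field F] [CharZero F] {ι : Type} [Fintype ι] [DecidableEq ι]
    (c : ι → F) (v : ι → ℤ)
    (h : ∑ i, PowerSeries.C (c i) * bs (1 : F) ((v i : ℤ) : ℚ) = 0) (i₀ : ι) :
    ∑ i ∈ Finset.univ.filter (fun i => v i = v i₀), c i = 0 := by
  classical
  set M : ℕ := ∑ i, (v i).natAbs with hM
  have hMi : ∀ i, 0 ≤ v i + M := by
    intro i
    have h1 : (v i).natAbs ≤ M :=
      Finset.single_le_sum (f := fun i => (v i).natAbs) (fun _ _ => Nat.zero_le _)
        (Finset.mem_univ i)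
    omega
  set e : ι → ℕ := fun i => (v i + M).toNat with he
  have hei : ∀ i, ((e i : ℕ) : ℤ) = v i + M := fun i => Int.toNat_of_nonneg (hMi i)
  have h1 : ∑ i, PowerSeries.C (c i) * (1 + PowerSeries.X) ^ e i = (0 : PowerSeries F) := by
    have h2 := congrArg (fun x => x * bs (1 : F) ((M : ℕ) : ℚ)) h
    simp only [zero_mul, Finset.sum_mul] at h2
    rw [← h2]
    refine Finset.sum_congr rfl fun i _ => ?_
    rw [mul_assoc, ← bs_add]
    have h3 : ((v i : ℤ) : ℚ) + ((M : ℕ) : ℚ) = ((e i : ℕ) : ℚ) := by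
      have := hei i
      exact_mod_cast this.symm
    rw [h3, bs_nat, map_one, one_mul]
  have h2 : ∑ i, Polynomial.C (c i) * (1 + Polynomial.X) ^ e i = (0 : Polynomial F) := by
    apply Polynomial.coe_injective F
    rw [Polynomial.coe_zero, ← h1]
    have h3 : ((∑ i, Polynomial.C (c i) * (1 + Polynomial.X) ^ e i : Polynomial F) :
        PowerSeries F) = Polynomial.coeToPowerSeries.ringHom
          (∑ i, Polynomial.C (c i) * (1 + Polynomial.X) ^ e i) := rfl
    rw [h3, map_sum]
    refine Finset.sum_congr rfl fun i _ => ?_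
    rw [map_mul, map_pow, map_add, map_one]
    simp [Polynomial.coeToPowerSeries.ringHom_apply]
  have h3 : ∑ i, Polynomial.C (c i) * Polynomial.X ^ e i = (0 : Polynomial F) := by
    have h4 := congrArg (fun p : Polynomial F => p.comp (Polynomial.X - 1)) h2
    simp only [Polynomial.zero_comp] at h4
    rw [← h4, Polynomial.sum_comp]
    refine Finset.sum_congr rfl fun i _ => ?_
    rw [Polynomial.mul_comp, Polynomial.C_comp, Polynomial.pow_comp, Polynomial.add_comp,
      Polynomial.one_comp, Polynomial.X_comp, add_sub_cancel]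
  have h4 := congrArg (fun p : Polynomial F => p.coeff (e i₀)) h3
  simp only [Polynomial.finsetSum_coeff, Polynomial.coeff_C_mul, Polynomial.coeff_X_pow,
    Polynomial.coeff_zero] at h4
  rw [Finset.sum_filter]
  refine Eq.trans (Finset.sum_congr rfl fun i _ => ?_) h4
  by_cases hv : v i = v i₀
  · have : e i₀ = e i := by simp only [he, hv]
    rw [if_pos hv, if_pos this, mul_one]
  · have : e i₀ ≠ e i := by
      intro h'
      apply hv
      have h5 := hei i
      have h6 := hei i₀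
      rw [h'] at h6
      omega
    rw [if_neg hv, if_neg this, mul_zero]

theorem fbB_ne {L F : Type} [Field L] [Field F] [CharZero F] [Algebra L F]
    (α γ : Fin 3 → L) {n : ℕ}
    (f : Fin (n + 1) → Polynomial L) (t : F) (z : Fin (n + 1) → F) (h : Pt α γ f t z)
    (w : Fin n → ℤ) (hw : w ≠ 0) : fbB f t z w ≠ 0 := by
  intro h0
  have h1 := bs_indep (fun i => Polynomial.aeval t (f i) * z i) (Fin.cons 0 w : Fin (n + 1) → ℤ)
    h0 0
  refine h.sub _ ⟨0, by simp⟩ ?_ h1
  obtain ⟨j, hj⟩ := Function.ne_iff.mp hw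
  intro h2
  have h3 : j.succ ∈ Finset.univ.filter (fun i => (Fin.cons 0 w : Fin (n + 1) → ℤ) i =
      (Fin.cons 0 w : Fin (n + 1) → ℤ) 0) := by
    rw [h2]; exact Finset.mem_univ _
  rw [Finset.mem_filter, Fin.cons_succ, Fin.cons_zero] at h3
  exact hj h3.2

end BMF
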