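import Pool.Agent.Lib.MP_a325a5_ag.S.Bs

/-! 5.3.  A generator with exponent u is a k-multiple of the one with u' = u - ∑ y_l b_l (same w.u, z^(b_l) in k); u'_j = u₀_j for j ≠ j₀, and |w_j₀ u'_j₀| ≤ K + |∑_{j≠j₀} w_j u₀_j|:
at most 2(K + C_R)/|w_j₀| + 1 values of u'_j₀ for each u₀ in R. -/

open NumberField

namespace BMF

private theorem prod_zpow_eq {F ι : Type*} [Field F] {x : F} (hx : x ≠ 0) (s : Finset ι)
    (f : ι → ℤ) : ∏ l ∈ s, x ^ f l = x ^ ∑ l ∈ s, f l := by
  classical
  induction s using Finset.induction_on with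
  | empty => simp
  | insert a s ha ih => rw [Finset.prod_insert ha, Finset.sum_insert ha, ih, zpow_add₀ hx]

theorem BB_dim {F : Type} [Field F] [CharZero F] (k : Type) [Field k] [Algebra k F] {n : ℕ}
    (z : Fin (n + 1) → F) (hz : ∀ i, z i ≠ 0) (w : Fin n → ℤ) (j₀ : Fin n) (hw : w j₀ ≠ 0)
    (b : Fin n → Fin n → ℤ) (hb : ∀ l, ∑ i, w i * b l i = 0)
    (hk : ∀ l, ∃ c : k, algebraMap k F c = ∏ i : Fin n, z i.succ ^ b l i)
    (R : Finset (Fin n → ℤ)) (hR : ∀ u : Fin n → ℤ, ∃ u₀ ∈ R, ∃ y : Fin n → ℤ, ∀ j, j ≠ j₀ →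
      u j - ∑ l, y l * b l j = u₀ j) :
    ∃ τ : ℝ, ∀ K : ℕ, FiniteDimensional k (BB k z w K) ∧
      (Module.finrank k (BB k z w K) : ℝ) ≤ (2 * R.card / |(w j₀ : ℝ)|) * K + τ := by
  classical
  choose c hc using hk
  set g : (Fin n → ℤ) → PowerSeries F := fun u =>
    PowerSeries.C (∏ i : Fin n, z i.succ ^ u i) * bs (1 : F) ((∑ i, w i * u i : ℤ) : ℚ) with hg
  set CR : ℕ := ∑ u₀ ∈ R, (∑ j ∈ Finset.univ.erase j₀, w j * u₀ j).natAbs with hCR
  have hwa : 0 < |(w j₀ : ℝ)| := by
    rw [abs_pos]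
    exact_mod_cast hw
  have hwn : 0 < (w j₀).natAbs := Int.natAbs_pos.mpr hw
  refine ⟨R.card * (2 * CR / |(w j₀ : ℝ)| + 1), fun K => ?_⟩
  set M : ℕ := (K + CR) / (w j₀).natAbs with hM
  set T : Finset (PowerSeries F) := (R ×ˢ Finset.Icc (-(M : ℤ)) M).image
    (fun q : (Fin n → ℤ) × ℤ => g (Function.update q.1 j₀ q.2)) with hT
  have hle : BB k z w K ≤ Submodule.span k (T : Set (PowerSeries F)) := by
    unfold BB
    rw [Submodule.span_le]
    rintro _ ⟨u, hu, rfl⟩
    obtain ⟨u₀, hu0, y, hy⟩ := hR u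
    set u' : Fin n → ℤ := fun j => u j - ∑ l, y l * b l j with hu'
    have e1 : ∑ i, w i * u' i = ∑ i, w i * u i := by
      have h1 : ∀ i, w i * u' i = w i * u i - ∑ l, y l * (w i * b l i) := by
        intro i
        rw [hu']
        show w i * (u i - ∑ l, y l * b l i) = _
        rw [mul_sub, Finset.mul_sum]
        congr 1
        exact Finset.sum_congr rfl fun l _ => by ring
      rw [Finset.sum_congr rfl fun i _ => h1 i, Finset.sum_sub_distrib, Finset.sum_comm]
      have h2 : ∑ l, ∑ i, y l * (w i * b l i) = 0 :=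
        Finset.sum_eq_zero fun l _ => by rw [← Finset.mul_sum, hb l, mul_zero]
      rw [h2, sub_zero]
    have e2 : u' = Function.update u₀ j₀ (u' j₀) := by
      funext j
      by_cases h : j = j₀
      · rw [h, Function.update_self]
      · rw [Function.update_of_ne h]
        exact hy j h
    have e3 : g u = (∏ l, c l ^ y l) • g u' := by
      rw [Algebra.smul_def, PowerSeries.algebraMap_apply, hg]
      show PowerSeries.C (∏ i : Fin n, z i.succ ^ u i) * bs (1 : F) ((∑ i, w i * u i : ℤ) : ℚ) =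
        PowerSeries.C (algebraMap k F (∏ l, c l ^ y l)) *
          (PowerSeries.C (∏ i : Fin n, z i.succ ^ u' i) *
            bs (1 : F) ((∑ i, w i * u' i : ℤ) : ℚ))
      rw [e1, ← mul_assoc, ← map_mul]
      congr 2
      rw [map_prod]
      have h3 : ∀ l, algebraMap k F (c l ^ y l) = ∏ i : Fin n, z i.succ ^ (y l * b l i) := by
        intro l
        rw [map_zpow₀, hc l, ← Finset.prod_zpow]
        exact Finset.prod_congr rfl fun i _ => by rw [← zpow_mul, mul_comm]
      rw [Finset.prod_congr rfl fun l _ => h3 l, Finset.prod_comm, ← Finset.prod_mul_distrib]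
      refine Finset.prod_congr rfl fun i _ => ?_
      rw [prod_zpow_eq (hz _), ← zpow_add₀ (hz _)]
      congr 1
      show u i = ∑ l, y l * b l i + (u i - ∑ l, y l * b l i)
      ring
    have e4 : u' j₀ ∈ Finset.Icc (-(M : ℤ)) M := by
      have h1 : w j₀ * u' j₀ + ∑ j ∈ Finset.univ.erase j₀, w j * u₀ j = ∑ i, w i * u i := by
        rw [← e1, ← Finset.add_sum_erase _ _ (Finset.mem_univ j₀)]
        congr 1
        refine Finset.sum_congr rfl fun j hj => ?_
        rw [← hy j (Finset.ne_of_mem_erase hj)]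
      have h2 : (∑ j ∈ Finset.univ.erase j₀, w j * u₀ j).natAbs ≤ CR :=
        Finset.single_le_sum (f := fun u₀ : Fin n → ℤ =>
          (∑ j ∈ Finset.univ.erase j₀, w j * u₀ j).natAbs) (fun _ _ => Nat.zero_le _) hu0
      have h3 : (w j₀ * u' j₀).natAbs ≤ K + CR := by
        have h4 : w j₀ * u' j₀ = ∑ i, w i * u i - ∑ j ∈ Finset.univ.erase j₀, w j * u₀ j := by
          linarith
        rw [h4]
        have h5 := abs_le.1 hu
        omega
      rw [Int.natAbs_mul] at h3
      have h6 : (u' j₀).natAbs ≤ M := by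
        rw [hM, Nat.le_div_iff_mul_le hwn, mul_comm]
        exact h3
      rw [Finset.mem_Icc]
      omega
    show g u ∈ Submodule.span k (T : Set (PowerSeries F))
    rw [e3]
    refine Submodule.smul_mem _ _ (Submodule.subset_span ?_)
    rw [Finset.mem_coe, hT, Finset.mem_image]
    exact ⟨(u₀, u' j₀), Finset.mem_product.2 ⟨hu0, e4⟩, by rw [← e2]⟩
  have hfd : FiniteDimensional k (Submodule.span k (T : Set (PowerSeries F))) :=
    FiniteDimensional.span_finset k T
  have hfB : FiniteDimensional k (BB k z w K) := Submodule.finiteDimensional_of_le hle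
  refine ⟨hfB, ?_⟩
  have h1 : Module.finrank k (BB k z w K) ≤ R.card * (2 * M + 1) := by
    calc Module.finrank k (BB k z w K)
        ≤ Module.finrank k (Submodule.span k (T : Set (PowerSeries F))) :=
          Submodule.finrank_mono hle
      _ ≤ T.card := finrank_span_finset_le_card T
      _ ≤ (R ×ˢ Finset.Icc (-(M : ℤ)) M).card := Finset.card_image_le
      _ = R.card * (2 * M + 1) := by
        rw [Finset.card_product, Int.card_Icc]
        congr 1
        omega
  have h2 : (M : ℝ) ≤ (K + CR) / |(w j₀ : ℝ)| := by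
    rw [hM]
    refine Nat.cast_div_le.trans (le_of_eq ?_)
    rw [Nat.cast_add, Nat.cast_natAbs, Int.cast_abs]
  calc (Module.finrank k (BB k z w K) : ℝ) ≤ ((R.card * (2 * M + 1) : ℕ) : ℝ) := by
        exact_mod_cast h1
    _ = R.card * (2 * (M : ℝ) + 1) := by push_cast; ring
    _ ≤ R.card * (2 * ((K + CR) / |(w j₀ : ℝ)|) + 1) := by gcongr
    _ = (2 * R.card / |(w j₀ : ℝ)|) * K + R.card * (2 * CR / |(w j₀ : ℝ)| + 1) := by
        field_simp
        ring

end BMF
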