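import Mathlib

/-! Lemma 5.1.  For K ≥ K₀ the linear map constantCoeff : B (K+C) -> Ω has W in its range and f * B K (dimension d_K, f ≠ 0 in a domain) in its kernel: dim W ≤ d_(K+C) - d_K
(rank-nullity).  Sum over K = K₀ + i C, i < M: M dim W ≤ d_(K₀+MC) ≤ σ (K₀ + M C) + τ; divide by M -> ∞. -/



namespace BMF

private theorem dimL_step {k Ω : Type} [Field k] [Field Ω] [Algebra k Ω]
    (U V : Submodule k (PowerSeries Ω)) [FiniteDimensional k U] [FiniteDimensional k V]
    (f : PowerSeries Ω) (hf : f ≠ 0) (hf0 : PowerSeries.constantCoeff f = 0)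
    (hmul : ∀ g ∈ U, f * g ∈ V) (W : Submodule k Ω)
    (hW : ∀ x ∈ W, ∃ g ∈ V, PowerSeries.constantCoeff g = x) :
    FiniteDimensional k W ∧ Module.finrank k W + Module.finrank k U ≤ Module.finrank k V := by
  let φ : PowerSeries Ω →ₗ[k] Ω := (PowerSeries.coeff (R := Ω) 0).restrictScalars k
  have hφ : ∀ g, φ g = PowerSeries.constantCoeff g := fun g => by
    simp [φ]
  let ψ : V →ₗ[k] Ω := φ.comp V.subtype
  have h1 : W ≤ LinearMap.range ψ := by
    intro x hx
    obtain ⟨g, hg, hgx⟩ := hW x hx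
    exact ⟨⟨g, hg⟩, by simp [ψ, hφ, hgx]⟩
  haveI : FiniteDimensional k (LinearMap.range ψ) := inferInstance
  haveI hfd : FiniteDimensional k W := Submodule.finiteDimensional_of_le h1
  have h2 : Module.finrank k W ≤ Module.finrank k (LinearMap.range ψ) := Submodule.finrank_mono h1
  let μ : U →ₗ[k] LinearMap.ker ψ :=
    { toFun := fun g => ⟨⟨f * (g : PowerSeries Ω), hmul g g.2⟩, by
        rw [LinearMap.mem_ker]
        simp only [ψ, LinearMap.comp_apply, Submodule.subtype_apply, hφ, map_mul, hf0, zero_mul]⟩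
      map_add' := fun a b => by
        apply Subtype.ext
        apply Subtype.ext
        simp [mul_add]
      map_smul' := fun c a => by
        apply Subtype.ext
        apply Subtype.ext
        simp }
  have hμ : Function.Injective μ := by
    intro a b hab
    have h := congrArg (fun z : LinearMap.ker ψ => ((z : V) : PowerSeries Ω)) hab
    have h' : f * (a : PowerSeries Ω) = f * (b : PowerSeries Ω) := h
    exact Subtype.ext (mul_left_cancel₀ hf h')
  have h3 : Module.finrank k U ≤ Module.finrank k (LinearMap.ker ψ) :=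
    LinearMap.finrank_le_finrank_of_injective hμ
  have h4 := LinearMap.finrank_range_add_finrank_ker ψ
  exact ⟨hfd, by omega⟩

theorem dim_lemma {k Ω : Type} [Field k] [Field Ω] [Algebra k Ω]
    (B : ℕ → Submodule k (PowerSeries Ω)) (σ τ : ℝ)
    (hfin : ∀ K, FiniteDimensional k (B K)) (hdim : ∀ K, (Module.finrank k (B K) : ℝ) ≤ σ * K + τ)
    (f : PowerSeries Ω) (hf : f ≠ 0) (hf0 : PowerSeries.constantCoeff f = 0) (C : ℕ)
    (hC : 1 ≤ C) (hmul : ∀ K, ∀ g ∈ B K, f * g ∈ B (K + C)) (W : Submodule k Ω) (K₀ : ℕ)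
    (hW : ∀ K ≥ K₀, ∀ x ∈ W, ∃ g ∈ B K, PowerSeries.constantCoeff g = x) :
    FiniteDimensional k W ∧ (Module.finrank k W : ℝ) ≤ σ * C := by
  have step : ∀ K ≥ K₀, FiniteDimensional k W ∧
      Module.finrank k W + Module.finrank k (B K) ≤ Module.finrank k (B (K + C)) := by
    intro K hK
    haveI := hfin K
    haveI := hfin (K + C)
    exact dimL_step (B K) (B (K + C)) f hf hf0 (hmul K) W (hW (K + C) (by omega))
  refine ⟨(step K₀ le_rfl).1, ?_⟩
  have hM : ∀ M : ℕ, M * Module.finrank k W ≤ Module.finrank k (B (K₀ + M * C)) := by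
    intro M
    induction M with
    | zero => simp
    | succ M ih =>
      have := (step (K₀ + M * C) (by omega)).2
      have e : K₀ + (M + 1) * C = K₀ + M * C + C := by ring
      rw [e]
      calc (M + 1) * Module.finrank k W = Module.finrank k W + M * Module.finrank k W := by ring
        _ ≤ Module.finrank k W + Module.finrank k (B (K₀ + M * C)) := by omega
        _ ≤ _ := this
  by_contra hcon
  push Not at hcon
  obtain ⟨M, hM'⟩ := exists_nat_gt ((σ * K₀ + τ) / ((Module.finrank k W : ℝ) - σ * C))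
  have hpos : 0 < (Module.finrank k W : ℝ) - σ * C := by linarith
  rw [div_lt_iff₀ hpos] at hM'
  have h1 : ((M * Module.finrank k W : ℕ) : ℝ) ≤ σ * ((K₀ + M * C : ℕ) : ℝ) + τ :=
    (Nat.cast_le.mpr (hM M)).trans (hdim _)
  push_cast at h1
  nlinarith

end BMF
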