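import Pool.Agent.Lib.MP_a325a5_ag.F.Def
import Mathlib.RingTheory.PowerSeries.Binomial

/-! Definitions for Theorem S. -/

open NumberField

namespace BMF

/-- the series `(1 + β s) ^ κ` -/
noncomputable def bs {Ω : Type} [Field Ω] [CharZero Ω] (β : Ω) (κ : ℚ) : PowerSeries Ω :=
  PowerSeries.rescale β (PowerSeries.binomialSeries Ω κ)

/-- the series `∏ j, (1 + s / (t - α j)) ^ κ j` -/
noncomputable def uu {Ω ι : Type} [Field Ω] [CharZero Ω] [Fintype ι] (α : ι → Ω) (t : Ω)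
    (κ : ι → ℚ) : PowerSeries Ω :=
  ∏ j, bs ((t - α j)⁻¹) (κ j)

/-- a polynomial as a power series at `t` -/
noncomputable def tp {Ω : Type} [Field Ω] (t : Ω) : Polynomial Ω →+* PowerSeries Ω :=
  Polynomial.eval₂RingHom PowerSeries.C (PowerSeries.X + PowerSeries.C t)

/-- `∏ j, (X - α j)` -/
noncomputable def pA {Ω ι : Type} [Field Ω] [Fintype ι] (α : ι → Ω) : Polynomial Ω :=
  ∏ j, (Polynomial.X - Polynomial.C (α j))

/-- `∑ j, κ j ∏ i ≠ j, (X - α i)` -/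
noncomputable def pK {Ω ι : Type} [Field Ω] [CharZero Ω] [Fintype ι] [DecidableEq ι] (α : ι → Ω)
    (κ : ι → ℚ) : Polynomial Ω :=
  ∑ j, Polynomial.C (κ j : Ω) * ∏ i ∈ Finset.univ.erase j, (Polynomial.X - Polynomial.C (α i))

/-- a vanishing sum without vanishing proper subsums -/
def NVS {K : Type} [Field K] {n : ℕ} (u : Fin (n + 1) → K) : Prop :=
  (∑ i, u i = 0) ∧ ∀ I : Finset (Fin (n + 1)), I.Nonempty → I ≠ Finset.univ → ∑ i ∈ I, u i ≠ 0

section pts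
variable {L F : Type} [Field L] [Field F] [Algebra L F]

/-- the three linear functions -/
def cc (α γ : Fin 3 → L) (t : F) (j : Fin 3) : F :=
  algebraMap L F (γ j) * (t - algebraMap L F (α j))

/-- the points considered in Theorem S -/
structure Pt (α γ : Fin 3 → L) {n : ℕ} (f : Fin (n + 1) → Polynomial L) (t : F)
    (z : Fin (n + 1) → F) : Prop where
  ne : ∀ j, t ≠ algebraMap L F (α j)
  z0 : z 0 = 1
  hz : ∀ i, z i ≠ 0
  eq : ∑ i, Polynomial.aeval t (f i) * z i = 0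
  sub : ∀ I : Finset (Fin (n + 1)), I.Nonempty → I ≠ Finset.univ →
    ∑ i ∈ I, Polynomial.aeval t (f i) * z i ≠ 0
  rel : ∃ a : Fin 3 → ℤ, a ≠ 0 ∧ ∏ j, cc α γ t j ^ a j = 1
  two : ∀ a b : Fin 3 → ℤ, ∏ j, cc α γ t j ^ a j = 1 → ∏ j, cc α γ t j ^ b j = 1 →
    ¬ LinearIndependent ℤ ![a, b]
  div : ∀ i, ∃ N : ℕ, 0 < N ∧ ∃ a : Fin 3 → ℤ, z i ^ N = ∏ j, cc α γ t j ^ a j

/-- an exact relation -/
def Rl (α γ : Fin 3 → L) {n : ℕ} (t : F) (z : Fin (n + 1) → F) (a : Fin 3 → ℤ)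
    (b : Fin n → ℤ) : Prop :=
  (∏ j, cc α γ t j ^ a j) * ∏ i : Fin n, z i.succ ^ b i = 1

/-- the size of an exponent vector -/
def sz {n : ℕ} (a : Fin 3 → ℤ) (b : Fin n → ℤ) : ℕ := ∑ j, (a j).natAbs + ∑ i, (b i).natAbs

/-- the exponents of a monomial in the branch functions -/
def tx {n : ℕ} (θ : Fin n → Fin 3 → ℚ) (u : Fin n → ℤ) (j : Fin 3) : ℚ := ∑ i, (u i : ℚ) * θ i j

variable [CharZero F]

/-- a monomial on the branch of exponent `θ` through `(t, z)` -/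
noncomputable def gen (α : Fin 3 → L) {n : ℕ} (t : F) (z : Fin (n + 1) → F)
    (θ : Fin n → Fin 3 → ℚ) (m : Fin 3 → ℤ) (u : Fin n → ℤ) (i : ℕ) : PowerSeries F :=
  PowerSeries.C ((∏ j, (t - algebraMap L F (α j)) ^ m j) * ∏ i : Fin n, z i.succ ^ u i) *
    uu (fun j => algebraMap L F (α j)) t (fun j => (m j : ℚ) + tx θ u j) *
    (PowerSeries.X + PowerSeries.C t) ^ i

/-- the spaces of functions with bounded poles on the branch -/
noncomputable def BA (α : Fin 3 → L) {n : ℕ} (t : F) (z : Fin (n + 1) → F)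
    (θ : Fin n → Fin 3 → ℚ) (k : ℕ) : Submodule L (PowerSeries F) :=
  Submodule.span L {g | ∃ (m : Fin 3 → ℤ) (u : Fin n → ℤ) (i : ℕ),
    (∀ j, -(k : ℚ) ≤ (m j : ℚ) + tx θ u j) ∧ (i : ℚ) + ∑ j, ((m j : ℚ) + tx θ u j) ≤ k ∧
    g = gen α t z θ m u i}

/-- the equation on the branch -/
noncomputable def fbr (α : Fin 3 → L) {n : ℕ} (f : Fin (n + 1) → Polynomial L) (t : F)
    (z : Fin (n + 1) → F) (θ : Fin (n + 1) → Fin 3 → ℚ) : PowerSeries F :=
  ∑ i, tp t ((f i).map (algebraMap L F)) * (PowerSeries.C (z i) *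
    uu (fun j => algebraMap L F (α j)) t (θ i))

/-- the spaces of functions on the coset through `z` in the direction `w` -/
noncomputable def BB (k : Type) [Field k] [Algebra k F] {n : ℕ} (z : Fin (n + 1) → F)
    (w : Fin n → ℤ) (K : ℕ) : Submodule k (PowerSeries F) :=
  Submodule.span k {g | ∃ u : Fin n → ℤ, |∑ i, w i * u i| ≤ K ∧
    g = PowerSeries.C (∏ i : Fin n, z i.succ ^ u i) * bs (1 : F) ((∑ i, w i * u i : ℤ) : ℚ)}

end pts

end BMF
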