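import Pool.Agent.Lib.MP_a325a5_ag.S.LatI
import Pool.Agent.Lib.MP_a325a5_ag.S.SDef

/-! 5.3, the lattice part.  The kernel X of x ↦ ∑ x_l b_l is a lattice of rank ≥ 1 (det = 0), ≤ 1 by h2 and hind (for x ≠ 0 in X the vector ∑ x_l a_l is not 0; two independent x, y would give two
independent vectors: if u ∑ x_l a_l + v ∑ y_l a_l = 0 then (u x + v y) kills all of (a,b), so u x + v y = 0).  So the rank of b is n-1, there is w ≠ 0 integral with b w = 0; j₀ = index of maximal
|w_j|.  For x_1 in X nonzero, s = ∑ x_1 a ≠ 0, k := index of maximal |s_k| (all elements of X are proportional).  D := matrix with rows (a_l k, (b_l j)_{j ≠ j₀}): det D ≠ 0 (if x D = 0 then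
(∑ x_l b_l)_j = 0 for j ≠ j₀, and w . (∑ x_l b_l) = 0 gives ∑ x_l b_l = 0, x in X, s_k-component 0, so x = 0), |det D| ≤ n! ∏ sz.  lat_index. -/

open Matrix

namespace BMF

private theorem latB_det {n : ℕ} (M : Matrix (Fin n) (Fin n) ℤ) (s : Fin n → ℤ)
    (h : ∀ l i, |M l i| ≤ s l) : |M.det| ≤ (n.factorial : ℤ) * ∏ l, s l := by
  rw [Matrix.det_apply]
  refine (Finset.abs_sum_le_sum_abs _ _).trans ?_
  have hb : ∀ σ ∈ (Finset.univ : Finset (Equiv.Perm (Fin n))),
      |Equiv.Perm.sign σ • ∏ i, M (σ i) i| ≤ ∏ l, s l := by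
    intro σ _
    have h1 : |Equiv.Perm.sign σ • ∏ i, M (σ i) i| = |∏ i, M (σ i) i| := by
      rcases Int.units_eq_one_or (Equiv.Perm.sign σ) with h | h <;> simp [h]
    rw [h1, Finset.abs_prod]
    calc ∏ i, |M (σ i) i| ≤ ∏ i, s (σ i) :=
          Finset.prod_le_prod (fun i _ => abs_nonneg _) fun i _ => h _ _
      _ = ∏ l, s l := Equiv.prod_comp σ s
  refine (Finset.sum_le_card_nsmul _ _ _ hb).trans ?_
  rw [Finset.card_univ, Fintype.card_perm, Fintype.card_fin, nsmul_eq_mul]

private theorem latB_sum_apply {n : ℕ} {κ : Type} (x : Fin n → ℤ) (a : Fin n → κ → ℤ) (j : κ) :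
    (∑ l, x l • a l) j = ∑ l, x l * a l j := by
  rw [Finset.sum_apply]
  refine Finset.sum_congr rfl fun l _ => ?_
  rw [Pi.smul_apply, smul_eq_mul]

/-- a vector killing both parts is zero -/
private theorem latB_zero {n : ℕ} {a : Fin n → Fin 3 → ℤ} {b : Fin n → Fin n → ℤ}
    (hind : LinearIndependent ℤ (fun l => (Sum.elim (a l) (b l) : Fin 3 ⊕ Fin n → ℤ)))
    {x : Fin n → ℤ} (h1 : ∑ l, x l • b l = 0) (h2 : ∑ l, x l • a l = 0) : x = 0 := by
  rw [Fintype.linearIndependent_iff] at hind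
  funext l
  refine hind x ?_ l
  funext j
  rw [latB_sum_apply]
  rcases j with j | j
  · have := congrFun h2 j
    rw [latB_sum_apply] at this
    exact this
  · have := congrFun h1 j
    rw [latB_sum_apply] at this
    exact this

/-- proportionality -/
private theorem latB_prop {n : ℕ} {a : Fin n → Fin 3 → ℤ} {b : Fin n → Fin n → ℤ}
    (hind : LinearIndependent ℤ (fun l => (Sum.elim (a l) (b l) : Fin 3 ⊕ Fin n → ℤ)))
    (h2 : ∀ x y : Fin n → ℤ, ∑ l, x l • b l = 0 → ∑ l, y l • b l = 0 →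
      ¬ LinearIndependent ℤ ![∑ l, x l • a l, ∑ l, y l • a l])
    {x y : Fin n → ℤ} (hx : ∑ l, x l • b l = 0) (hy : ∑ l, y l • b l = 0) (hy0 : y ≠ 0) :
    ∃ u v : ℤ, u ≠ 0 ∧ u • (∑ l, x l • a l) + v • (∑ l, y l • a l) = 0 := by
  have h := h2 x y hx hy
  rw [LinearIndependent.pair_iff] at h
  push Not at h
  obtain ⟨u, v, h3, h4⟩ := h
  refine ⟨u, v, ?_, h3⟩
  intro hu
  have hv := h4 hu
  rw [hu, zero_smul, zero_add, smul_eq_zero] at h3
  rcases h3 with h3 | h3
  · exact hv h3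
  · exact hy0 (latB_zero hind hy h3)

theorem lat_B {n : ℕ} (a : Fin n → Fin 3 → ℤ) (b : Fin n → Fin n → ℤ)
    (hind : LinearIndependent ℤ (fun l => (Sum.elim (a l) (b l) : Fin 3 ⊕ Fin n → ℤ)))
    (hb : (Matrix.of b).det = 0)
    (h2 : ∀ x y : Fin n → ℤ, ∑ l, x l • b l = 0 → ∑ l, y l • b l = 0 →
      ¬ LinearIndependent ℤ ![∑ l, x l • a l, ∑ l, y l • a l]) :
    ∃ (w : Fin n → ℤ) (j₀ : Fin n) (x : Fin n → ℤ) (R : Finset (Fin n → ℤ)),
      w j₀ ≠ 0 ∧ (∀ j, |w j| ≤ |w j₀|) ∧ (∀ l, ∑ i, w i * b l i = 0) ∧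
      ∑ l, x l • b l = 0 ∧ ∑ l, x l • a l ≠ 0 ∧
      (∀ u : Fin n → ℤ, ∃ u₀ ∈ R, ∃ y : Fin n → ℤ, ∀ j, j ≠ j₀ →
        u j - ∑ l, y l * b l j = u₀ j) ∧
      ((∑ j, |(∑ l, x l • a l) j| : ℤ) : ℝ) * R.card ≤
        3 * (n.factorial : ℝ) * ∏ l, (sz (a l) (b l) : ℝ) := by
  classical
  obtain ⟨m, rfl⟩ : ∃ m, n = m + 1 := by
    rcases n with _ | m
    · rw [Matrix.det_isEmpty] at hb
      exact absurd hb one_ne_zero
    · exact ⟨m, rfl⟩
  obtain ⟨w, hw0, hw⟩ := Matrix.exists_mulVec_eq_zero_iff.mpr hb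
  obtain ⟨x₁, hx0, hx1⟩ := Matrix.exists_vecMul_eq_zero_iff.mpr hb
  have hwl : ∀ l, ∑ i, w i * b l i = 0 := by
    intro l
    have := congrFun hw l
    simp only [Matrix.mulVec, dotProduct, Matrix.of_apply, Pi.zero_apply] at this
    rw [← this]
    exact Finset.sum_congr rfl fun i _ => mul_comm _ _
  have hx1b : ∑ l, x₁ l • b l = 0 := by
    funext j
    rw [latB_sum_apply]
    have := congrFun hx1 j
    simp only [Matrix.vecMul, dotProduct, Matrix.of_apply, Pi.zero_apply] at this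
    exact this
  obtain ⟨j₀, -, hj₀⟩ := Finset.exists_max_image Finset.univ (fun j => |w j|) ⟨0, Finset.mem_univ _⟩
  have hwj : w j₀ ≠ 0 := by
    intro h
    apply hw0
    funext j
    have := hj₀ j (Finset.mem_univ j)
    rw [h, abs_zero] at this
    exact abs_nonpos_iff.mp this
  set s : Fin 3 → ℤ := ∑ l, x₁ l • a l with hs
  have hs0 : s ≠ 0 := fun h => hx0 (latB_zero hind hx1b h)
  obtain ⟨k, -, hk⟩ := Finset.exists_max_image Finset.univ (fun j => |s j|) ⟨0, Finset.mem_univ _⟩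
  have hsk : s k ≠ 0 := by
    intro h
    apply hs0
    funext j
    have := hk j (Finset.mem_univ j)
    rw [h, abs_zero] at this
    exact abs_nonpos_iff.mp this
  let D : Matrix (Fin (m + 1)) (Fin (m + 1)) ℤ :=
    Matrix.of fun l i => Fin.cons (α := fun _ => ℤ) (a l k) (fun j : Fin m => b l (j₀.succAbove j)) i
  have hD0 : ∀ l, D l 0 = a l k := fun l => rfl
  have hDs : ∀ l (j : Fin m), D l j.succ = b l (j₀.succAbove j) := fun l j => rfl
  -- the key property
  have key : ∀ x : Fin (m + 1) → ℤ, (∀ j : Fin m, Matrix.vecMul x D j.succ = 0) →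
      ∑ l, x l • b l = 0 := by
    intro x hx
    have h1 : ∀ j, j ≠ j₀ → ∑ l, x l * b l j = 0 := by
      intro j hj
      obtain ⟨j', rfl⟩ := Fin.exists_succAbove_eq hj
      exact hx j'
    have h3 : ∑ j, w j * ∑ l, x l * b l j = 0 := by
      calc ∑ j, w j * ∑ l, x l * b l j = ∑ j, ∑ l, w j * (x l * b l j) := by
            refine Finset.sum_congr rfl fun j _ => Finset.mul_sum _ _ _
        _ = ∑ l, ∑ j, w j * (x l * b l j) := Finset.sum_comm
        _ = ∑ l, x l * ∑ j, w j * b l j := by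
            refine Finset.sum_congr rfl fun l _ => ?_
            rw [Finset.mul_sum]
            refine Finset.sum_congr rfl fun j _ => ?_
            ring
        _ = 0 := by
            refine Finset.sum_eq_zero fun l _ => ?_
            rw [hwl l, mul_zero]
    have h4 : w j₀ * ∑ l, x l * b l j₀ = 0 := by
      rw [Finset.sum_eq_single j₀] at h3
      · exact h3
      · intro j _ hj
        rw [h1 j hj, mul_zero]
      · intro h
        exact absurd (Finset.mem_univ _) h
    have h5 : ∑ l, x l * b l j₀ = 0 := (mul_eq_zero.mp h4).resolve_left hwj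
    funext j
    rw [latB_sum_apply]
    by_cases hj : j = j₀
    · rw [hj]
      exact h5
    · exact h1 j hj
  have hv0 : ∀ x : Fin (m + 1) → ℤ, Matrix.vecMul x D 0 = (∑ l, x l • a l) k := by
    intro x
    rw [latB_sum_apply]
    rfl
  have hDdet : D.det ≠ 0 := by
    intro h
    obtain ⟨x, hx, hxD⟩ := Matrix.exists_vecMul_eq_zero_iff.mpr h
    have h1 := key x fun j => congrFun hxD j.succ
    have h3 : (∑ l, x l • a l) k = 0 := by
      rw [← hv0]
      exact congrFun hxD 0
    obtain ⟨u, v, hu, huv⟩ := latB_prop hind h2 h1 hx1b hx0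
    have h4 := congrFun huv k
    simp only [Pi.add_apply, Pi.smul_apply, smul_eq_mul, Pi.zero_apply] at h4
    rw [h3, mul_zero, zero_add] at h4
    have hv : v = 0 := (mul_eq_zero.mp h4).resolve_right hsk
    rw [hv, zero_smul, add_zero, smul_eq_zero] at huv
    exact hx (latB_zero hind h1 (huv.resolve_left hu))
  obtain ⟨x, R, hxj, hx00, hR, hRc⟩ := lat_index D hDdet
  have hxb := key x hxj
  have hxk : (∑ l, x l • a l) k ≠ 0 := by
    rw [← hv0]
    exact hx00
  obtain ⟨u, v, hu, huv⟩ := latB_prop hind h2 hxb hx1b hx0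
  have hmax : ∀ j, |(∑ l, x l • a l) j| ≤ |(∑ l, x l • a l) k| := by
    intro j
    have e1 : ∀ i, u * (∑ l, x l • a l) i = -(v * s i) := by
      intro i
      have := congrFun huv i
      simp only [Pi.add_apply, Pi.smul_apply, smul_eq_mul, Pi.zero_apply] at this
      linarith
    have e2 : ∀ i, |u| * |(∑ l, x l • a l) i| = |v| * |s i| := by
      intro i
      rw [← abs_mul, e1, abs_neg, abs_mul]
    have h5 : |u| * |(∑ l, x l • a l) j| ≤ |u| * |(∑ l, x l • a l) k| := by
      rw [e2, e2]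
      exact mul_le_mul_of_nonneg_left (hk j (Finset.mem_univ j)) (abs_nonneg _)
    exact le_of_mul_le_mul_left h5 (abs_pos.mpr hu)
  refine ⟨w, j₀, x, R.image fun r => j₀.insertNth (α := fun _ => ℤ) 0 r, hwj,
    fun j => hj₀ j (Finset.mem_univ j), hwl, hxb, ?_, ?_, ?_⟩
  · intro h
    rw [h] at hxk
    exact hxk rfl
  · intro u'
    obtain ⟨u₀, hu₀, y, hy⟩ := hR fun j => u' (j₀.succAbove j)
    refine ⟨j₀.insertNth (α := fun _ => ℤ) 0 u₀, Finset.mem_image_of_mem _ hu₀, y, ?_⟩
    intro j hj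
    obtain ⟨j', rfl⟩ := Fin.exists_succAbove_eq hj
    rw [Fin.insertNth_apply_succAbove]
    exact hy j'
  · have hc : (R.image fun r => j₀.insertNth (α := fun _ => ℤ) 0 r).card ≤ R.card := Finset.card_image_le
    have hsum : ∑ j, |(∑ l, x l • a l) j| ≤ 3 * |(∑ l, x l • a l) k| := by
      calc ∑ j, |(∑ l, x l • a l) j| ≤ ∑ _j : Fin 3, |(∑ l, x l • a l) k| :=
            Finset.sum_le_sum fun j _ => hmax j
        _ = 3 * |(∑ l, x l • a l) k| := by
            rw [Finset.sum_const, Finset.card_univ, Fintype.card_fin, nsmul_eq_mul]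
            norm_num
    have hdet : |D.det| ≤ ((m + 1).factorial : ℤ) * ∏ l, ((sz (a l) (b l) : ℕ) : ℤ) := by
      apply latB_det
      intro l i
      have hA : ∀ j, (a l j).natAbs ≤ sz (a l) (b l) := by
        intro j
        have h1 : (a l j).natAbs ≤ ∑ j, (a l j).natAbs :=
          Finset.single_le_sum (f := fun j => (a l j).natAbs) (fun _ _ => Nat.zero_le _)
            (Finset.mem_univ j)
        unfold sz
        omega
      have hB : ∀ j, (b l j).natAbs ≤ sz (a l) (b l) := by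
        intro j
        have h1 : (b l j).natAbs ≤ ∑ j, (b l j).natAbs :=
          Finset.single_le_sum (f := fun j => (b l j).natAbs) (fun _ _ => Nat.zero_le _)
            (Finset.mem_univ j)
        unfold sz
        omega
      refine Fin.cases ?_ (fun j => ?_) i
      · rw [hD0, Int.abs_eq_natAbs]
        exact_mod_cast hA k
      · rw [hDs, Int.abs_eq_natAbs]
        exact_mod_cast hB _
    have h6 : (R.card : ℤ) * |(∑ l, x l • a l) k| ≤ |D.det| := by
      have := hRc
      rw [hv0] at this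
      rw [Int.abs_eq_natAbs, Int.abs_eq_natAbs]
      exact_mod_cast this
    have h7 : (∑ j, |(∑ l, x l • a l) j|) * (R.image fun r => j₀.insertNth (α := fun _ => ℤ) 0 r).card
        ≤ 3 * (((m + 1).factorial : ℤ) * ∏ l, ((sz (a l) (b l) : ℕ) : ℤ)) := by
      calc (∑ j, |(∑ l, x l • a l) j|) * ((R.image fun r => j₀.insertNth (α := fun _ => ℤ) 0 r).card : ℤ)
          ≤ (3 * |(∑ l, x l • a l) k|) * (R.card : ℤ) := by
            apply mul_le_mul hsum
            · exact_mod_cast hc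
            · positivity
            · positivity
        _ = 3 * ((R.card : ℤ) * |(∑ l, x l • a l) k|) := by ring
        _ ≤ 3 * |D.det| := by linarith
        _ ≤ _ := by linarith
    have h8 : (((∑ j, |(∑ l, x l • a l) j|) *
        (R.image fun r => j₀.insertNth (α := fun _ => ℤ) 0 r).card : ℤ) : ℝ)
        ≤ ((3 * (((m + 1).factorial : ℤ) * ∏ l, ((sz (a l) (b l) : ℕ) : ℤ)) : ℤ) : ℝ) := by
      exact_mod_cast h7
    have e3 : ((3 * (((m + 1).factorial : ℤ) * ∏ l, ((sz (a l) (b l) : ℕ) : ℤ)) : ℤ) : ℝ)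
        = 3 * ((m + 1).factorial : ℝ) * ∏ l, (sz (a l) (b l) : ℝ) := by
      push_cast
      ring
    rw [e3] at h8
    refine le_trans (le_of_eq ?_) h8
    push_cast
    ring

end BMF
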