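import Pool.Agent.Lib.MP_a325a5_ag.S.SDef
import Pool.Agent.Lib.MP_a325a5_ag.F.Q3

/-! mrk is the ℤ-rank of the subgroup generated by the P i in Additive Fˣ.  Let H be the subgroup generated by the three P (inl j): by Pt.div some multiple of every generator lies in H, so the rank is that
of H; the relation lattice of the three has rank exactly one (Pt.rel, Pt.two), so the rank of H is 3 - 1 = 2. -/

open NumberField

namespace BMF

private theorem ptmrk_torsion {A : Type} [AddCommGroup A] (H Λ : Submodule ℤ A)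
    [Module.Finite ℤ Λ] (hle : H ≤ Λ) (h : ∀ x ∈ Λ, ∃ N : ℤ, N ≠ 0 ∧ N • x ∈ H) :
    Module.finrank ℤ Λ = Module.finrank ℤ H := by
  have h1 := Submodule.finrank_quotient_add_finrank (Submodule.comap Λ.subtype H)
  have h2 : Module.finrank ℤ (Λ ⧸ Submodule.comap Λ.subtype H) = 0 := by
    apply Module.IsTorsion.finrank_eq_zero
    intro x
    obtain ⟨y, rfl⟩ := Submodule.mkQ_surjective _ x
    obtain ⟨N, hN, hy⟩ := h y.1 y.2
    refine ⟨⟨N, mem_nonZeroDivisors_of_ne_zero hN⟩, ?_⟩
    show N • (Submodule.comap Λ.subtype H).mkQ y = 0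
    rw [← map_smul, Submodule.mkQ_apply, Submodule.Quotient.mk_eq_zero]
    exact hy
  have h3 : Module.finrank ℤ (Submodule.comap Λ.subtype H) = Module.finrank ℤ H :=
    (Submodule.comapSubtypeEquivOfLe hle).finrank_eq
  omega

private theorem ptmrk_gen {A : Type} [AddCommGroup A] (H : Submodule ℤ A) (S : Set A)
    (h : ∀ x ∈ S, ∃ N : ℤ, N ≠ 0 ∧ N • x ∈ H) :
    ∀ x ∈ Submodule.span ℤ S, ∃ N : ℤ, N ≠ 0 ∧ N • x ∈ H := by
  intro x hx
  induction hx using Submodule.span_induction with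
  | mem x hx => exact h x hx
  | zero =>
    refine ⟨1, one_ne_zero, ?_⟩
    rw [smul_zero]
    exact Submodule.zero_mem _
  | add x y _ _ hx hy =>
    obtain ⟨N, hN, hx⟩ := hx
    obtain ⟨M, hM, hy⟩ := hy
    refine ⟨N * M, mul_ne_zero hN hM, ?_⟩
    have e1 : (N * M) • (x + y) = M • (N • x) + N • (M • y) := by
      rw [smul_add, ← mul_smul, ← mul_smul, mul_comm M N]
    rw [e1]
    exact Submodule.add_mem _ (Submodule.smul_mem _ _ hx) (Submodule.smul_mem _ _ hy)
  | smul c x _ hx =>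
    obtain ⟨N, hN, hx⟩ := hx
    refine ⟨N, hN, ?_⟩
    have e1 : N • (c • x) = c • (N • x) := by
      rw [← mul_smul, ← mul_smul, mul_comm]
    rw [e1]
    exact Submodule.smul_mem _ _ hx

private theorem ptmrk_lc {F : Type} [Field F] {m : ℕ} (P : Fin m → Fˣ) (a : Fin m → ℤ) :
    ∑ j, a j • Additive.ofMul (P j) = Additive.ofMul (∏ j, P j ^ a j) := by
  rw [ofMul_prod]
  exact Finset.sum_congr rfl fun j _ => (ofMul_zpow _ _).symm

theorem pt_mrk {L F : Type} [Field L] [Field F] [NumberField F] [Algebra L F]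
    (α γ : Fin 3 → L) {n : ℕ} (f : Fin (n + 1) → Polynomial L) (t : F) (z : Fin (n + 1) → F)
    (h : Pt α γ f t z) (P : Fin 3 ⊕ Fin n → Fˣ) (hP : ∀ j, (P (Sum.inl j) : F) = cc α γ t j)
    (hP' : ∀ i : Fin n, (P (Sum.inr i) : F) = z i.succ) :
    mrk (fun i : Fin (3 + n) => P (finSumFinEquiv.symm i)) = 2 := by
  classical
  obtain ⟨Q, hQ⟩ : ∃ Q : Fin 3 → Fˣ, Q = fun j => P (Sum.inl j) := ⟨_, rfl⟩
  have hQc : ∀ j, (Q j : F) = cc α γ t j := fun j => by rw [hQ]; exact hP j
  have hval : ∀ a : Fin 3 → ℤ, ((∏ j, Q j ^ a j : Fˣ) : F) = ∏ j, cc α γ t j ^ a j := by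
    intro a
    rw [Units.coe_prod]
    refine Finset.prod_congr rfl fun j _ => ?_
    rw [Units.val_zpow_eq_zpow_val, hQc]
  have hone : ∀ a : Fin 3 → ℤ, ∏ j, Q j ^ a j = 1 ↔ ∏ j, cc α γ t j ^ a j = 1 := by
    intro a
    rw [← hval a, Units.val_eq_one]
  let φ : (Fin 3 → ℤ) →ₗ[ℤ] Additive Fˣ :=
    Fintype.linearCombination ℤ (fun j => Additive.ofMul (Q j))
  have hφ : ∀ a, φ a = Additive.ofMul (∏ j, Q j ^ a j) := fun a => by
    rw [← ptmrk_lc]
    exact Fintype.linearCombination_apply ℤ _ a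
  have hφ0 : ∀ a, a ∈ LinearMap.ker φ ↔ ∏ j, cc α γ t j ^ a j = 1 := by
    intro a
    rw [LinearMap.mem_ker, hφ, ← hone]
    exact Iff.rfl
  have hrange : LinearMap.range φ = Submodule.span ℤ (Set.range fun j => Additive.ofMul (Q j)) :=
    Fintype.range_linearCombination ℤ _
  -- the kernel has rank one
  have hker : Module.finrank ℤ (LinearMap.ker φ) = 1 := by
    apply le_antisymm
    · by_contra hcon
      have h2 : 2 ≤ Module.finrank ℤ (LinearMap.ker φ) := by omega
      obtain ⟨g, hg⟩ := exists_linearIndependent_of_le_finrank h2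
      have h3 : LinearIndependent ℤ (fun i => (g i : Fin 3 → ℤ)) :=
        hg.map' (LinearMap.ker φ).subtype (Submodule.ker_subtype _)
      refine h.two (g 0) (g 1) ((hφ0 _).mp (g 0).2) ((hφ0 _).mp (g 1).2) ?_
      have h4 : (![((g 0 : LinearMap.ker φ) : Fin 3 → ℤ), (g 1 : Fin 3 → ℤ)])
          = (fun i => (g i : Fin 3 → ℤ)) := by
        funext i
        fin_cases i <;> rfl
      rw [h4]
      exact h3
    · obtain ⟨a, ha0, ha⟩ := h.rel
      have : Nontrivial (LinearMap.ker φ) :=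
        ⟨⟨⟨a, (hφ0 a).mpr ha⟩, 0, fun h0 => ha0 (congrArg Subtype.val h0)⟩⟩
      exact Module.finrank_pos
  have hH : Module.finrank ℤ
      (Submodule.span ℤ (Set.range fun j => Additive.ofMul (Q j))) = 2 := by
    have h1 := Submodule.finrank_quotient_add_finrank (LinearMap.ker φ)
    have h2 := φ.quotKerEquivRange.finrank_eq
    rw [h2, hker, hrange, Module.finrank_fin_fun] at h1
    omega
  -- the whole lattice
  have hΛ : (Set.range fun i : Fin (3 + n) => Additive.ofMul (P (finSumFinEquiv.symm i)))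
      = Set.range fun s : Fin 3 ⊕ Fin n => Additive.ofMul (P s) :=
    finSumFinEquiv.symm.surjective.range_comp (fun s => Additive.ofMul (P s))
  unfold mrk
  rw [hΛ, ← hH]
  have : Module.Finite ℤ (Submodule.span ℤ
      (Set.range fun s : Fin 3 ⊕ Fin n => Additive.ofMul (P s))) :=
    Module.Finite.span_of_finite ℤ (Set.finite_range _)
  apply ptmrk_torsion
  · apply Submodule.span_mono
    rintro x ⟨j, rfl⟩
    exact ⟨Sum.inl j, by rw [hQ]⟩
  · apply ptmrk_gen
    · intro x hx
      obtain ⟨s, rfl⟩ := hx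
      rcases s with j | i
      · refine ⟨1, one_ne_zero, ?_⟩
        rw [one_smul]
        exact Submodule.subset_span ⟨j, by rw [hQ]⟩
      · obtain ⟨N, hN, a, ha⟩ := h.div i.succ
        refine ⟨N, by exact_mod_cast hN.ne', ?_⟩
        have h1 : P (Sum.inr i) ^ N = ∏ j, Q j ^ a j := by
          apply Units.ext
          rw [hval, Units.val_pow_eq_pow_val, hP', ha]
        have h2 : ((N : ℕ) : ℤ) • Additive.ofMul (P (Sum.inr i))
            = ∑ j, a j • Additive.ofMul (Q j) := by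
          rw [ptmrk_lc, ← h1, ofMul_pow, natCast_zsmul]
        show ((N : ℕ) : ℤ) • Additive.ofMul (P (Sum.inr i)) ∈ _
        rw [h2]
        exact Submodule.sum_mem _ fun j _ => Submodule.smul_mem _ _ (Submodule.subset_span ⟨j, rfl⟩)

end BMF
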