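import Pool.Agent.Lib.MP_a325a5_ag.S.SDef
import Pool.Agent.Lib.MP_a325a5_ag.UL.MR

/-! Pt.ne: c j is a unit.  Pt.div: the group generated by the c j has rank 2 (relation lattice of rank one by h1, h2) and the whole group has rank ≤ 2, so z i has a power in the group of the c j. -/

open NumberField Pool.Agent.Lib.MP_a325a5_ag.UL

namespace BMF

private noncomputable def ptT {F ι : Type} [Field F] [Fintype ι] (p : ι → Fˣ) :
    (ι → ℤ) →ₗ[ℤ] Additive Fˣ :=
  Fintype.linearCombination ℤ (fun i => Additive.ofMul (p i))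

private theorem ptT_apply {F ι : Type} [Field F] [Fintype ι] (p : ι → Fˣ) (a : ι → ℤ) :
    ptT p a = Additive.ofMul (∏ i, p i ^ a i) := by
  rw [ptT, Fintype.linearCombination_apply, ofMul_prod]
  refine Finset.sum_congr rfl fun i _ => ?_
  rw [ofMul_zpow]

private theorem pt_rank {F : Type} [Field F] (c : Fin 3 → Fˣ)
    (h2 : ∀ a b : Fin 3 → ℤ, ∏ j, c j ^ a j = 1 → ∏ j, c j ^ b j = 1 →
      ¬ LinearIndependent ℤ ![a, b]) :
    2 ≤ Module.finrank ℤ (Submodule.span ℤ (Set.range fun i => Additive.ofMul (c i))) := by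
  have h1 := (LinearMap.ker (ptT c)).finrank_quotient_add_finrank
  rw [Module.finrank_fintype_fun_eq_card] at h1
  have h3 := (ptT c).quotKerEquivRange.finrank_eq
  have h4 : LinearMap.range (ptT c) =
      Submodule.span ℤ (Set.range fun i => Additive.ofMul (c i)) := by
    rw [ptT, Fintype.range_linearCombination]
  rw [h4] at h3
  have h5 : Module.finrank ℤ (LinearMap.ker (ptT c)) ≤ 1 := by
    by_contra hcon
    push Not at hcon
    obtain ⟨f, hf⟩ := exists_linearIndependent_of_le_finrank (R := ℤ)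
      (M := LinearMap.ker (ptT c)) (n := 2) hcon
    have hk : ∀ x : LinearMap.ker (ptT c), ∏ j, c j ^ (x : Fin 3 → ℤ) j = 1 := by
      intro x
      have := x.2
      rw [LinearMap.mem_ker, ptT_apply, ofMul_eq_zero] at this
      exact this
    apply h2 (f 0 : Fin 3 → ℤ) (f 1 : Fin 3 → ℤ) (hk _) (hk _)
    have h6 := hf.map' (LinearMap.ker (ptT c)).subtype (Submodule.ker_subtype _)
    have e : (⇑(LinearMap.ker (ptT c)).subtype ∘ f) = ![(f 0 : Fin 3 → ℤ), (f 1 : Fin 3 → ℤ)] := by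
      funext i
      fin_cases i <;> rfl
    rw [e] at h6
    exact h6
  simp only [Fintype.card_fin] at h1
  omega

private theorem pt_div {F : Type} [Field F] {ι : Type} [Finite ι] (c : Fin 3 → Fˣ) (z : ι → Fˣ)
    (hm : mr (Sum.elim c z) ≤ 2)
    (h2 : ∀ a b : Fin 3 → ℤ, ∏ j, c j ^ a j = 1 → ∏ j, c j ^ b j = 1 →
      ¬ LinearIndependent ℤ ![a, b]) (i : ι) :
    ∃ N : ℕ, 0 < N ∧ ∃ a : Fin 3 → ℤ, z i ^ N = ∏ j, c j ^ a j := by
  set C : Submodule ℤ (Additive Fˣ) := Submodule.span ℤ (Set.range fun i => Additive.ofMul (c i)) with hC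
  set S : Submodule ℤ (Additive Fˣ) :=
    Submodule.span ℤ (Set.range fun i => Additive.ofMul (Sum.elim c z i)) with hS
  have hCS : C ≤ S := by
    apply Submodule.span_mono
    rintro _ ⟨j, rfl⟩
    exact ⟨Sum.inl j, rfl⟩
  haveI : Module.Finite ℤ S := Module.Finite.span_of_finite ℤ (Set.finite_range _)
  haveI : Module.Finite ℤ C := Module.Finite.span_of_finite ℤ (Set.finite_range _)
  have hr : 2 ≤ Module.finrank ℤ C := pt_rank c h2
  have hs : Module.finrank ℤ S ≤ 2 := hm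
  have h1 : Module.finrank ℤ (C.submoduleOf S) = Module.finrank ℤ C :=
    (Submodule.submoduleOfEquivOfLe hCS).finrank_eq
  have h3 := (C.submoduleOf S).finrank_quotient_add_finrank
  have h0 : Module.finrank ℤ (S ⧸ C.submoduleOf S) = 0 := by omega
  have htor : Module.IsTorsion ℤ (S ⧸ C.submoduleOf S) := Module.finrank_eq_zero_iff_isTorsion.mp h0
  have hz : Additive.ofMul (z i) ∈ S := Submodule.subset_span ⟨Sum.inr i, rfl⟩
  obtain ⟨⟨N, hN⟩, hN2⟩ := @htor (Submodule.Quotient.mk ⟨Additive.ofMul (z i), hz⟩)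
  have hN0 : N ≠ 0 := nonZeroDivisors.ne_zero hN
  have hN3 : N • Additive.ofMul (z i) ∈ C := by
    have h5 : (Submodule.Quotient.mk (N • (⟨Additive.ofMul (z i), hz⟩ : S)) :
        S ⧸ C.submoduleOf S) = 0 := by
      rw [Submodule.Quotient.mk_smul]
      exact hN2
    rw [Submodule.Quotient.mk_eq_zero] at h5
    exact h5
  have hN4 : (N.natAbs : ℤ) • Additive.ofMul (z i) ∈ C := by
    rcases Int.natAbs_eq N with h | h
    · rw [h] at hN3
      exact hN3
    · have : -(N • Additive.ofMul (z i)) ∈ C := C.neg_mem hN3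
      rw [h, neg_smul, neg_neg] at this
      exact this
  have h4 : C = LinearMap.range (ptT c) := by
    rw [ptT, Fintype.range_linearCombination]
  rw [h4] at hN4
  obtain ⟨a, ha⟩ := hN4
  refine ⟨N.natAbs, Int.natAbs_pos.mpr hN0, a, ?_⟩
  rw [ptT_apply] at ha
  have ha2 : ((N.natAbs : ℤ) • Additive.ofMul (z i)) = Additive.ofMul (z i ^ N.natAbs) := by
    rw [natCast_zsmul, ← ofMul_pow]
  rw [ha2] at ha
  exact (Additive.ofMul.injective ha).symm

theorem pt_of {L F : Type} [Field L] [Field F] [Algebra L F] (α γ : Fin 3 → L) {n : ℕ}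
    (f : Fin (n + 1) → Polynomial L) (t : F) (c : Fin 3 → Fˣ) (z : Fin (n + 1) → Fˣ)
    (hc : ∀ j, (c j : F) = cc α γ t j) (h0 : z 0 = 1)
    (hs : NVS fun i => Polynomial.aeval t (f i) * (z i : F)) (hm : mr (Sum.elim c z) ≤ 2)
    (h1 : ∃ a : Fin 3 → ℤ, a ≠ 0 ∧ ∏ j, c j ^ a j = 1)
    (h2 : ∀ a b : Fin 3 → ℤ, ∏ j, c j ^ a j = 1 → ∏ j, c j ^ b j = 1 →
      ¬ LinearIndependent ℤ ![a, b]) : Pt α γ f t fun i => (z i : F) := by
  have hcoe : ∀ a : Fin 3 → ℤ, ((∏ j, c j ^ a j : Fˣ) : F) = ∏ j, cc α γ t j ^ a j := by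
    intro a
    rw [Units.coe_prod]
    refine Finset.prod_congr rfl fun j _ => ?_
    rw [Units.val_zpow_eq_zpow_val, hc]
  have hone : ∀ a : Fin 3 → ℤ, ∏ j, cc α γ t j ^ a j = 1 → ∏ j, c j ^ a j = 1 := by
    intro a ha
    apply Units.ext
    rw [hcoe, ha, Units.val_one]
  refine ⟨?_, ?_, fun i => (z i).ne_zero, hs.1, hs.2, ?_, ?_, ?_⟩
  · intro j hj
    apply (c j).ne_zero
    rw [hc, cc, hj, sub_self, mul_zero]
  · show ((z 0 : Fˣ) : F) = 1
    rw [h0, Units.val_one]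
  · obtain ⟨a, ha, ha2⟩ := h1
    exact ⟨a, ha, by rw [← hcoe, ha2, Units.val_one]⟩
  · intro a b ha hb
    exact h2 a b (hone a ha) (hone b hb)
  · intro i
    obtain ⟨N, hN, a, ha⟩ := pt_div c z hm h2 i
    refine ⟨N, hN, a, ?_⟩
    rw [← hcoe, ← ha, Units.val_pow_eq_pow_val]

end BMF
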