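import Pool.Agent.Lib.MP_a325a5_ag.S.RelN
import Pool.Agent.Lib.MP_a325a5_ag.F.Q4

/-! (4.2): as pigeon2 in F/Q4.lean (which is the case of 5 units): coords2, lattice2, lattice2_count, relationsN instead of two_relations.  V = the maximal |det(p_i,p_j)|. -/

open NumberField

namespace BMF

private theorem pgs_ht_root {K : Type} [Field K] [NumberField K] {M : ℕ} (hM : 0 < M) {z : Kˣ}
    (hz : z ^ M = 1) (n : ℤ) : ht ((z ^ n : Kˣ) : K) = 0 := by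
  have h1 : ht ((z : K) ^ M) = 0 := by
    rw [← Units.val_pow_eq_pow_val, hz, Units.val_one, ht_one]
  rw [ht_pow] at h1
  have hM' : (0 : ℝ) < M := by exact_mod_cast hM
  have h2 : ht (z : K) = 0 := (mul_eq_zero.mp h1).resolve_left hM'.ne'
  rw [Units.val_zpow_eq_zpow_val, ht_zpow, h2, mul_zero]

/-- the value of a word -/
private theorem pgs_prod {G : Type} [CommGroup G] {n : ℕ} (z e0 e1 : G) (P : Fin n → G)
    (t : Fin n → ℕ) (p : Fin n → ℤ × ℤ)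
    (hP : ∀ i, P i = z ^ t i * e0 ^ (p i).1 * e1 ^ (p i).2) (u : Fin n → ℕ) :
    ∏ i, P i ^ u i = z ^ (∑ i, t i * u i) * e0 ^ (∑ i, (u i : ℤ) * (p i).1) *
      e1 ^ (∑ i, (u i : ℤ) * (p i).2) := by
  rw [← Finset.prod_pow_eq_pow_sum]
  have h0 : ∀ (e : G) (f : Fin n → ℤ), e ^ (∑ i, f i) = ∏ i, e ^ f i := by
    intro e f
    induction (Finset.univ : Finset (Fin n)) using Finset.induction_on with
    | empty => simp
    | insert a s ha ih => rw [Finset.sum_insert ha, Finset.prod_insert ha, zpow_add, ih]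
  rw [h0, h0, ← Finset.prod_mul_distrib, ← Finset.prod_mul_distrib]
  refine Finset.prod_congr rfl fun i _ => ?_
  rw [hP i, mul_pow, mul_pow, ← pow_mul, ← zpow_natCast (e0 ^ (p i).1), ← zpow_mul,
    ← zpow_natCast (e1 ^ (p i).2), ← zpow_mul, mul_comm ((p i).1), mul_comm ((p i).2)]

private theorem pgs_dt_sum {n : ℕ} (p : Fin n → ℤ × ℤ) (q : ℤ × ℤ) (u : Fin n → ℕ) (A : ℕ)
    (hu : ∀ i, u i ≤ A) (D : ℤ) (hD : ∀ i, |dt (p i) q| ≤ D) :
    |dt (∑ i, (u i : ℤ) * (p i).1, ∑ i, (u i : ℤ) * (p i).2) q| ≤ (n * A : ℕ) * D := by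
  have h1 : dt (∑ i, (u i : ℤ) * (p i).1, ∑ i, (u i : ℤ) * (p i).2) q
      = ∑ i, (u i : ℤ) * dt (p i) q := by
    simp only [dt]
    rw [Finset.sum_mul, Finset.sum_mul, ← Finset.sum_sub_distrib]
    refine Finset.sum_congr rfl fun i _ => ?_
    ring
  rw [h1]
  refine (Finset.abs_sum_le_sum_abs _ _).trans ?_
  have h2 : ∀ i ∈ (Finset.univ : Finset (Fin n)), |(u i : ℤ) * dt (p i) q| ≤ (A : ℤ) * D := by
    intro i _
    rw [abs_mul]
    have h3 : |(u i : ℤ)| ≤ (A : ℤ) := by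
      rw [abs_of_nonneg (by positivity)]
      exact_mod_cast hu i
    exact mul_le_mul h3 (hD i) (abs_nonneg _) (by positivity)
  refine (Finset.sum_le_card_nsmul _ _ _ h2).trans ?_
  rw [Finset.card_univ, Fintype.card_fin, nsmul_eq_mul]
  push_cast
  rw [mul_assoc]

private theorem pgs_dt_swap (p q : ℤ × ℤ) : |dt p q| = |dt q p| := by
  have : dt p q = - dt q p := by simp only [dt]; ring
  rw [this, abs_neg]

/-- height of `e ^ w` -/
private theorem pgs_ht {K : Type} [Field K] [NumberField K] {M : ℕ} (hM : 0 < M) {z : Kˣ}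
    (hz : z ^ M = 1) (e : Fin 2 → Kˣ) (P Q : Kˣ) (s t : ℕ) (p q : ℤ × ℤ)
    (hP : P = z ^ s * e 0 ^ p.1 * e 1 ^ p.2) (hQ : Q = z ^ t * e 0 ^ q.1 * e 1 ^ q.2) {B : ℝ}
    (hPB : ht (P : K) ≤ B) (hQB : ht (Q : K) ≤ B) (w : ℤ × ℤ) :
    ht ((e 0 ^ w.1 * e 1 ^ w.2 : Kˣ) : K) * ((dt p q).natAbs : ℝ)
      ≤ 2 * ((max |dt w q| |dt p w| : ℤ) : ℝ) * B := by
  have hB : 0 ≤ B := (ht_nonneg _).trans hPB
  have h1 : (e 0 ^ w.1 * e 1 ^ w.2) ^ dt p q
      = P ^ dt w q * Q ^ dt p w * z ^ (-(s * dt w q + t * dt p w)) := by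
    rw [hP, hQ]
    have e1 : dt p q * w.1 = p.1 * dt w q + q.1 * dt p w := by simp only [dt]; ring
    have e2 : dt p q * w.2 = p.2 * dt w q + q.2 * dt p w := by simp only [dt]; ring
    simp only [mul_zpow, ← zpow_mul, ← zpow_natCast]
    rw [mul_comm w.1, mul_comm w.2, e1, e2, zpow_add, zpow_add, neg_add, zpow_add,
      zpow_neg, zpow_neg]
    generalize e 0 ^ (p.1 * dt w q) = a1
    generalize e 0 ^ (q.1 * dt p w) = a2
    generalize e 1 ^ (p.2 * dt w q) = a3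
    generalize e 1 ^ (q.2 * dt p w) = a4
    generalize z ^ ((s : ℤ) * dt w q) = a5
    generalize z ^ ((t : ℤ) * dt p w) = a6
    have : a5 * a1 * a3 * (a6 * a2 * a4) * (a5⁻¹ * a6⁻¹) = (a5 * a5⁻¹) * (a6 * a6⁻¹) *
        (a1 * a2 * (a3 * a4)) := by
      simp only [mul_comm, mul_left_comm, mul_assoc]
    rw [this, mul_inv_cancel, mul_inv_cancel, one_mul, one_mul]
  have h2 : ht ((e 0 ^ w.1 * e 1 ^ w.2 : Kˣ) : K) * ((dt p q).natAbs : ℝ)
      = ht (((e 0 ^ w.1 * e 1 ^ w.2) ^ dt p q : Kˣ) : K) := by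
    rw [Units.val_zpow_eq_zpow_val, ht_zpow, mul_comm]
    congr 1
    rw [← Int.cast_abs, Int.abs_eq_natAbs, Int.cast_natCast]
  rw [h2, h1, Units.val_mul, Units.val_mul]
  have h3 := ht_mul_le (((P ^ dt w q : Kˣ) : K) * ((Q ^ dt p w : Kˣ) : K))
    ((z ^ (-(s * dt w q + t * dt p w)) : Kˣ) : K)
  rw [pgs_ht_root hM hz, add_zero] at h3
  refine h3.trans ((ht_mul_le _ _).trans ?_)
  rw [Units.val_zpow_eq_zpow_val, Units.val_zpow_eq_zpow_val, ht_zpow, ht_zpow]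
  have h4 : |((dt w q : ℤ) : ℝ)| ≤ ((max |dt w q| |dt p w| : ℤ) : ℝ) := by
    rw [← Int.cast_abs]
    exact_mod_cast le_max_left _ _
  have h5 : |((dt p w : ℤ) : ℝ)| ≤ ((max |dt w q| |dt p w| : ℤ) : ℝ) := by
    rw [← Int.cast_abs]
    exact_mod_cast le_max_right _ _
  have h6 : |((dt w q : ℤ) : ℝ)| * ht (P : K) ≤ ((max |dt w q| |dt p w| : ℤ) : ℝ) * B :=
    mul_le_mul h4 hPB (ht_nonneg _) ((abs_nonneg _).trans h4)
  have h7 : |((dt p w : ℤ) : ℝ)| * ht (Q : K) ≤ ((max |dt w q| |dt p w| : ℤ) : ℝ) * B :=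
    mul_le_mul h5 hQB (ht_nonneg _) ((abs_nonneg _).trans h5)
  linarith

private theorem pgs_const {x c : ℝ} (hc : 1 ≤ c) (hx : 0 ≤ x) {r : ℝ}
    (hr1 : r ≤ 1) : (c * x) ^ r ≤ c * x ^ r := by
  rw [Real.mul_rpow (by linarith) hx]
  apply mul_le_mul_of_nonneg_right _ (Real.rpow_nonneg hx _)
  calc c ^ r ≤ c ^ (1 : ℝ) := Real.rpow_le_rpow_of_exponent_le hc hr1
    _ = c := Real.rpow_one c

theorem pigeonS (n : ℕ) (hn : 1 ≤ n) : ∃ C : ℝ, 0 < C ∧ ∀ (F : Type) [Field F]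
    [NumberField F] (B : ℝ) (P : Fin 3 ⊕ Fin n → Fˣ), (∀ i, ht (P i : F) ≤ B) →
    mrk (fun i : Fin (3 + n) => P (finSumFinEquiv.symm i)) = 2 →
    ∃ (V M : ℕ) (ζ : F) (g : Fin 2 → F) (a : Fin n → Fin 3 → ℤ) (b : Fin n → Fin n → ℤ),
      0 < V ∧ 0 < M ∧ IsPrimitiveRoot ζ M ∧ (∀ i, g i ≠ 0) ∧ MInd g ∧
      ht (g 0) * ht (g 1) * V ≤ C * B ^ 2 ∧
      LinearIndependent ℤ (fun l => (Sum.elim (a l) (b l) : Fin 3 ⊕ Fin n → ℤ)) ∧
      (∀ l, (∏ j, P (Sum.inl j) ^ a l j) * ∏ i, P (Sum.inr i) ^ b l i = 1) ∧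
      ∏ l, (sz (a l) (b l) : ℝ) ≤ C * ((M : ℝ) * V) ^ ((n : ℝ) / (n + 1)) := by
  classical
  obtain ⟨C1, hC1, hrel⟩ := relationsN n hn
  obtain ⟨N, hN⟩ : ∃ N : ℕ, N = 3 + n := ⟨_, rfl⟩
  refine ⟨8 + C1 * (2 * (N : ℝ) + 2) ^ 2, by positivity, ?_⟩
  intro K _ _ B PP hPPB hrk
  subst hN
  obtain ⟨P, hPdef⟩ : ∃ P : Fin (3 + n) → Kˣ, P = fun i => PP (finSumFinEquiv.symm i) := ⟨_, rfl⟩
  have hPB : ∀ i, ht (P i : K) ≤ B := fun i => by
    rw [hPdef]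
    exact hPPB _
  rw [← hPdef] at hrk
  obtain ⟨M, z, e, t, p, hM, hz, he, hP, i0, j0, hij⟩ := coords2 P hrk
  have hB : 0 ≤ B := (ht_nonneg _).trans (hPB ⟨0, by omega⟩)
  obtain ⟨ij, -, hmax⟩ := Finset.exists_max_image (Finset.univ : Finset (Fin (3 + n) × Fin (3 + n)))
    (fun ij => |dt (p ij.1) (p ij.2)|) ⟨(⟨0, by omega⟩, ⟨0, by omega⟩), Finset.mem_univ _⟩
  obtain ⟨p', hp'⟩ : ∃ p', p' = p ij.1 := ⟨_, rfl⟩
  obtain ⟨q', hq'⟩ : ∃ q', q' = p ij.2 := ⟨_, rfl⟩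
  have hmax' : ∀ i j, |dt (p i) (p j)| ≤ |dt p' q'| := by
    intro i j
    rw [hp', hq']
    exact hmax (i, j) (Finset.mem_univ _)
  have hD : dt p' q' ≠ 0 := by
    intro h0
    have h1 := hmax' i0 j0
    rw [h0, abs_zero] at h1
    exact hij (abs_nonpos_iff.mp h1)
  have hzM : z ^ M = 1 := hz.pow_eq_one
  obtain ⟨w, w', hww, hprod⟩ := lattice2 p' q' hD
  have hV : 0 < (dt p' q').natAbs := Int.natAbs_pos.mpr hD
  have hVR : ((|dt p' q'| : ℤ) : ℝ) = ((dt p' q').natAbs : ℝ) := by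
    rw [Int.abs_eq_natAbs, Int.cast_natCast]
  have hVR1 : (1 : ℝ) ≤ ((dt p' q').natAbs : ℝ) := by exact_mod_cast hV
  have hMR1 : (1 : ℝ) ≤ (M : ℝ) := by exact_mod_cast hM
  have hPi : P ij.1 = z ^ t ij.1 * e 0 ^ p'.1 * e 1 ^ p'.2 := by rw [hp']; exact hP _
  have hPj : P ij.2 = z ^ t ij.2 * e 0 ^ q'.1 * e 1 ^ q'.2 := by rw [hq']; exact hP _
  have hh0 := pgs_ht hM hzM e (P ij.1) (P ij.2) _ _ p' q' hPi hPj (hPB _) (hPB _) w
  have hh1 := pgs_ht hM hzM e (P ij.1) (P ij.2) _ _ p' q' hPi hPj (hPB _) (hPB _) w'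
  -- relations
  have hN1 : (1 : ℝ) ≤ (2 * ((3 + n : ℕ) : ℝ) + 2) ^ 2 := by
    have : (0 : ℝ) ≤ ((3 + n : ℕ) : ℝ) := Nat.cast_nonneg _
    nlinarith
  have hMV1 : (1 : ℝ) ≤ (M : ℝ) * ((dt p' q').natAbs : ℝ) :=
    one_le_mul_of_one_le_of_one_le hMR1 hVR1
  obtain ⟨a, b, hli, hab, haa⟩ := hrel Kˣ PP
    ((2 * ((3 + n : ℕ) : ℝ) + 2) ^ 2 * ((M : ℝ) * ((dt p' q').natAbs : ℝ)))
    (one_le_mul_of_one_le_of_one_le hN1 hMV1) (by
    intro A hA
    obtain ⟨S0, hS0⟩ : ∃ S0 : Finset (ℤ × ℤ), S0 = (Fintype.piFinset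
      (fun _ : Fin (3 + n) => Finset.range (A + 1))).image
        (fun u => (∑ i, (u i : ℤ) * (p i).1, ∑ i, (u i : ℤ) * (p i).2)) := ⟨_, rfl⟩
    have hcard := lattice2_count p' q' hD ((3 + n) * A) S0 (by
      intro v hv
      rw [hS0, Finset.mem_image] at hv
      obtain ⟨u, hu, rfl⟩ := hv
      have hu' : ∀ i, u i ≤ A := fun i => by
        have := Fintype.mem_piFinset.mp hu i
        rw [Finset.mem_range] at this
        omega
      constructor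
      · exact pgs_dt_sum p q' u A hu' _ (fun i => by rw [hq']; exact hq' ▸ hmax' i ij.2)
      · rw [pgs_dt_swap p' _]
        exact pgs_dt_sum p p' u A hu' _ (fun i => by
          rw [pgs_dt_swap, hp']
          exact hp' ▸ hmax' ij.1 i))
    refine ⟨((Finset.range M) ×ˢ S0).image
      (fun x => z ^ x.1 * e 0 ^ x.2.1 * e 1 ^ x.2.2), ?_, ?_⟩
    · intro u0 hu0
      obtain ⟨u, hudef⟩ : ∃ u : Fin (3 + n) → ℕ, u = fun i => u0 (finSumFinEquiv.symm i) :=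
        ⟨_, rfl⟩
      have hu : ∀ i, u i ≤ A := fun i => by
        rw [hudef]
        exact hu0 _
      have hre : ∏ i, PP i ^ u0 i = ∏ i, P i ^ u i := by
        rw [hPdef, hudef]
        exact (Equiv.prod_comp finSumFinEquiv.symm (fun i => PP i ^ u0 i)).symm
      rw [hre, pgs_prod z (e 0) (e 1) P t p hP u, Finset.mem_image]
      refine ⟨((∑ i, t i * u i) % M, (∑ i, (u i : ℤ) * (p i).1, ∑ i, (u i : ℤ) * (p i).2)),
        ?_, ?_⟩
      · rw [Finset.mem_product]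
        refine ⟨Finset.mem_range.mpr (Nat.mod_lt _ hM), ?_⟩
        rw [hS0]
        refine Finset.mem_image_of_mem _ ?_
        rw [Fintype.mem_piFinset]
        intro i
        rw [Finset.mem_range]
        have := hu i
        omega
      · show z ^ ((∑ i, t i * u i) % M) * _ * _ = _
        rw [← pow_eq_pow_mod _ hzM]
    · have h1 : (((((Finset.range M) ×ˢ S0).image
          (fun x => z ^ x.1 * e 0 ^ x.2.1 * e 1 ^ x.2.2)).card : ℕ) : ℝ)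
          ≤ (M : ℝ) * (S0.card : ℝ) := by
        have := Finset.card_image_le (s := (Finset.range M) ×ˢ S0)
          (f := fun x : ℕ × (ℤ × ℤ) => z ^ x.1 * e 0 ^ x.2.1 * e 1 ^ x.2.2)
        rw [Finset.card_product, Finset.card_range] at this
        exact_mod_cast this
      have h2 : (S0.card : ℝ) ≤ ((dt p' q').natAbs : ℝ) *
          (2 * (((3 + n : ℕ) : ℝ) * A : ℝ) + 2) ^ 2 := by
        rw [← hVR]
        exact_mod_cast hcard
      have hA1 : (1 : ℝ) ≤ (A : ℝ) := by exact_mod_cast hA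
      have h3 : (2 * (((3 + n : ℕ) : ℝ) * A : ℝ) + 2) ^ 2
          ≤ (2 * ((3 + n : ℕ) : ℝ) + 2) ^ 2 * (A : ℝ) ^ 2 := by
        rw [← mul_pow]
        have h0 : (0 : ℝ) ≤ ((3 + n : ℕ) : ℝ) := Nat.cast_nonneg _
        apply pow_le_pow_left₀ (by positivity)
        nlinarith
      refine h1.trans ?_
      calc (M : ℝ) * (S0.card : ℝ)
          ≤ (M : ℝ) * (((dt p' q').natAbs : ℝ) *
              ((2 * ((3 + n : ℕ) : ℝ) + 2) ^ 2 * (A : ℝ) ^ 2)) := by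
            apply mul_le_mul_of_nonneg_left _ (by positivity)
            refine h2.trans ?_
            exact mul_le_mul_of_nonneg_left h3 (by positivity)
        _ = (2 * ((3 + n : ℕ) : ℝ) + 2) ^ 2 * ((M : ℝ) * ((dt p' q').natAbs : ℝ)) *
              (A : ℝ) ^ 2 := by ring)
  refine ⟨(dt p' q').natAbs, M, (z : K),
    ![((e 0 ^ w.1 * e 1 ^ w.2 : Kˣ) : K), ((e 0 ^ w'.1 * e 1 ^ w'.2 : Kˣ) : K)], a, b, hV, hM,
    ?_, ?_, ?_, ?_, hli, hab, ?_⟩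
  · exact IsPrimitiveRoot.coe_units_iff.mpr hz
  · intro i
    fin_cases i
    · exact Units.ne_zero _
    · exact Units.ne_zero _
  · intro x y hxy
    have h1 : (e 0 : K) ^ (x * w.1 + y * w'.1) * (e 1 : K) ^ (x * w.2 + y * w'.2) = 1 := by
      have h0 : ((((e 0 ^ w.1 * e 1 ^ w.2) ^ x * (e 0 ^ w'.1 * e 1 ^ w'.2) ^ y : Kˣ)) : K)
          = 1 := by
        rw [Units.val_mul, Units.val_zpow_eq_zpow_val, Units.val_zpow_eq_zpow_val]
        exact hxy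
      have h2 : ((e 0 ^ w.1 * e 1 ^ w.2) ^ x * (e 0 ^ w'.1 * e 1 ^ w'.2) ^ y : Kˣ)
          = e 0 ^ (x * w.1 + y * w'.1) * e 1 ^ (x * w.2 + y * w'.2) := by
        simp only [mul_zpow, ← zpow_mul]
        rw [zpow_add, zpow_add, mul_comm x, mul_comm y, mul_comm x, mul_comm y]
        simp only [mul_comm, mul_left_comm, mul_assoc]
      rw [h2, Units.val_mul, Units.val_zpow_eq_zpow_val, Units.val_zpow_eq_zpow_val] at h0
      exact h0
    obtain ⟨h2, h3⟩ := he _ _ h1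
    have e1 : x * dt w w' = 0 := by
      have : x * dt w w' = (x * w.1 + y * w'.1) * w'.2 - (x * w.2 + y * w'.2) * w'.1 := by
        simp only [dt]; ring
      rw [this, h2, h3]; ring
    have e2 : y * dt w w' = 0 := by
      have : y * dt w w' = (x * w.2 + y * w'.2) * w.1 - (x * w.1 + y * w'.1) * w.2 := by
        simp only [dt]; ring
      rw [this, h2, h3]; ring
    exact ⟨(mul_eq_zero.mp e1).resolve_right hww, (mul_eq_zero.mp e2).resolve_right hww⟩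
  · show ht ((e 0 ^ w.1 * e 1 ^ w.2 : Kˣ) : K) * ht ((e 0 ^ w'.1 * e 1 ^ w'.2 : Kˣ) : K) *
      ((dt p' q').natAbs : ℝ) ≤ _
    obtain ⟨V, hVd⟩ : ∃ V : ℝ, V = ((dt p' q').natAbs : ℝ) := ⟨_, rfl⟩
    have hprodR : ((max |dt w q'| |dt p' w| : ℤ) : ℝ) * ((max |dt w' q'| |dt p' w'| : ℤ) : ℝ)
        ≤ 2 * V := by
      rw [hVd, ← hVR]
      exact_mod_cast hprod
    have hm1 : (0 : ℝ) ≤ ((max |dt w q'| |dt p' w| : ℤ) : ℝ) := by
      exact_mod_cast (abs_nonneg _).trans (le_max_left _ _)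
    have hm2 : (0 : ℝ) ≤ ((max |dt w' q'| |dt p' w'| : ℤ) : ℝ) := by
      exact_mod_cast (abs_nonneg _).trans (le_max_left _ _)
    have hn1 := ht_nonneg ((e 0 ^ w.1 * e 1 ^ w.2 : Kˣ) : K)
    have hn2 := ht_nonneg ((e 0 ^ w'.1 * e 1 ^ w'.2 : Kˣ) : K)
    rw [← hVd] at hh0 hh1 hVR1 ⊢
    generalize ((max |dt w q'| |dt p' w| : ℤ) : ℝ) = m1 at *
    generalize ((max |dt w' q'| |dt p' w'| : ℤ) : ℝ) = m2 at *
    generalize ht ((e 0 ^ w.1 * e 1 ^ w.2 : Kˣ) : K) = x1 at *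
    generalize ht ((e 0 ^ w'.1 * e 1 ^ w'.2 : Kˣ) : K) = x2 at *
    have h5 : (x1 * V) * (x2 * V) ≤ (2 * m1 * B) * (2 * m2 * B) :=
      mul_le_mul hh0 hh1 (by positivity) (by positivity)
    have h6 : (2 * m1 * B) * (2 * m2 * B) ≤ 8 * V * B ^ 2 := by
      have : (2 * m1 * B) * (2 * m2 * B) = (m1 * m2) * (4 * B ^ 2) := by ring
      rw [this]
      have h7 := mul_le_mul_of_nonneg_right hprodR (by positivity : (0 : ℝ) ≤ 4 * B ^ 2)
      linarith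
    have h8 : V * (x1 * x2 * V) ≤ V * (8 * B ^ 2) := by
      have : V * (x1 * x2 * V) = (x1 * V) * (x2 * V) := by ring
      rw [this]
      linarith
    have h9 := le_of_mul_le_mul_left h8 (by linarith)
    have h10 : 0 ≤ C1 * (2 * ((3 + n : ℕ) : ℝ) + 2) ^ 2 * B ^ 2 := by positivity
    calc x1 * x2 * V ≤ 8 * B ^ 2 := h9
      _ ≤ 8 * B ^ 2 + C1 * (2 * ((3 + n : ℕ) : ℝ) + 2) ^ 2 * B ^ 2 := by linarith
      _ = (8 + C1 * (2 * ((3 + n : ℕ) : ℝ) + 2) ^ 2) * B ^ 2 := by ring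
  · refine haa.trans ?_
    have h1 := pgs_const (x := (M : ℝ) * ((dt p' q').natAbs : ℝ))
      (c := (2 * ((3 + n : ℕ) : ℝ) + 2) ^ 2) hN1 (by positivity) (r := (n : ℝ) / (n + 1)) (by
        rw [div_le_one (by positivity)]
        linarith)
    have h2 : (0 : ℝ) ≤ ((M : ℝ) * ((dt p' q').natAbs : ℝ)) ^ ((n : ℝ) / (n + 1)) := by
      positivity
    have h3 := mul_le_mul_of_nonneg_left h1 hC1.le
    calc _ ≤ _ := h3
      _ = C1 * (2 * ((3 + n : ℕ) : ℝ) + 2) ^ 2 *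
          ((M : ℝ) * ((dt p' q').natAbs : ℝ)) ^ ((n : ℝ) / (n + 1)) := by ring
      _ ≤ _ := by
        apply mul_le_mul_of_nonneg_right _ h2
        linarith


end BMF
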