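import Pool.Agent.Lib.MP_a325a5_ag.S.MannB

/-! Lemma 3.5 (Mann), N₀ = m₀ (n+1)!.  Let N be the least positive multiple of m₀ with η_i^N = 1 for all i.  If a prime p divides N/m₀, N' = N/p: with ξ a primitive root of order
p^k, p^k || N (k = padicValNat p N' + 1), every x with x^N = 1 is ξ^j y with 0 ≤ j < p, y^N' = 1.  η_i = ξ^(j_i) y_i, y_0 = 1, j_0 = 0.  Apply mann_base coefficientwise to
S_j = ∑_{j_i = j} y_i G_i.  Not all j_i = 0 by minimality of N, so {i | j_i = 0} is proper and nonempty and its sum S_0 is not zero.  So p ∤ N' and all S_j are equal and nonzero, every class is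
nonempty, p ≤ n+1.  So N/m₀ is squarefree with prime factors ≤ n+1, hence divides (n+1)!. -/

open NumberField

namespace BMF

theorem mann (L : Type) [Field L] [NumberField L] [Algebra L (AlgebraicClosure ℚ)] (n : ℕ) :
    ∃ N₀ : ℕ, 0 < N₀ ∧ ∀ (G : Fin (n + 1) → Polynomial L)
      (η : Fin (n + 1) → AlgebraicClosure ℚ), η 0 = 1 → (∀ i, ∃ m : ℕ, 0 < m ∧ η i ^ m = 1) →
      ∑ i, Polynomial.C (η i) * (G i).map (algebraMap L (AlgebraicClosure ℚ)) = 0 →
      (∀ I : Finset (Fin (n + 1)), I.Nonempty → I ≠ Finset.univ →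
        ∑ i ∈ I, Polynomial.C (η i) * (G i).map (algebraMap L (AlgebraicClosure ℚ)) ≠ 0) →
      ∀ i, η i ^ N₀ = 1 := by
  classical
  obtain ⟨m₀, hm₀, hbase⟩ := mann_base L
  refine ⟨m₀ * (n + 1).factorial, Nat.mul_pos hm₀ (Nat.factorial_pos _), ?_⟩
  intro G η h0 htor hsum hsub
  -- the least multiple
  have hex : ∃ k : ℕ, 0 < k ∧ ∀ i, η i ^ (m₀ * k) = 1 := by
    choose m hm hηm using htor
    refine ⟨∏ i, m i, Finset.prod_pos fun i _ => hm i, fun i => ?_⟩
    obtain ⟨c, hc⟩ := (Finset.dvd_prod_of_mem m (Finset.mem_univ i)).mul_left m₀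
    rw [hc, pow_mul, hηm i, one_pow]
  set k := Nat.find hex with hk
  obtain ⟨hk0, hkη⟩ := Nat.find_spec hex
  rw [← hk] at hk0 hkη
  have hmin : ∀ k', 0 < k' → k' < k → ¬ ∀ i, η i ^ (m₀ * k') = 1 := fun k' hk' hlt h =>
    Nat.find_min hex hlt ⟨hk', h⟩
  have key : ∀ p : ℕ, p.Prime → p ∣ k → p ≤ n + 1 ∧ ¬ p * p ∣ k := by
    intro p hp hpk
    obtain ⟨k', hk'⟩ := hpk
    have hk'0 : 0 < k' := by
      rcases Nat.eq_zero_or_pos k' with h | h
      · rw [h, mul_zero] at hk'
        omega
      · exact h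
    have hlt : k' < k := by
      rw [hk']
      have := hp.two_le
      nlinarith
    have hnot := hmin k' hk'0 hlt
    have hN' : 0 < m₀ * k' := Nat.mul_pos hm₀ hk'0
    haveI : NeZero (p ^ (padicValNat p (m₀ * k') + 1)) := ⟨(pow_pos hp.pos _).ne'⟩
    obtain ⟨ξ, hξ⟩ := HasEnoughRootsOfUnity.exists_primitiveRoot (AlgebraicClosure ℚ)
      (p ^ (padicValNat p (m₀ * k') + 1))
    have hprim := mannb_prim hN' hp hξ
    have hdec : ∀ i, ∃ (j : Fin p) (y : AlgebraicClosure ℚ), y ^ (m₀ * k') = 1 ∧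
        η i = ξ ^ (j : ℕ) * y := by
      intro i
      refine mannb_dec hN' hp hξ _ ?_
      rw [mul_assoc, mul_comm k' p, ← hk']
      exact hkη i
    choose J y hy hJy using hdec
    have hp0 : 0 < p := hp.pos
    have hJ0 : ∀ i, J i = ⟨0, hp0⟩ ↔ η i ^ (m₀ * k') = 1 := by
      intro i
      have e1 : η i ^ (m₀ * k') = (ξ ^ (m₀ * k')) ^ (J i : ℕ) := by
        rw [hJy i, mul_pow, hy i, mul_one, ← pow_mul, ← pow_mul, mul_comm]
      rw [e1]
      constructor
      · intro h
        rw [h]
        exact pow_zero _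
      · intro h
        have h2 := hprim.dvd_of_pow_eq_one _ h
        exact Fin.ext (Nat.eq_zero_of_dvd_of_lt h2 (J i).2)
    -- the coefficients
    set S : ℕ → Fin p → AlgebraicClosure ℚ := fun t j =>
      ∑ i ∈ Finset.univ.filter (fun i => J i = j), y i * algebraMap L _ ((G i).coeff t) with hS
    have hSmem : ∀ t j, S t j ∈ IntermediateField.adjoin L
        {x : AlgebraicClosure ℚ | x ^ (m₀ * k') = 1} := by
      intro t j
      refine sum_mem fun i _ => mul_mem ?_ ?_
      · exact IntermediateField.subset_adjoin _ _ (hy i)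
      · exact IntermediateField.algebraMap_mem _ _
    have hSsum : ∀ t, ∑ j, S t j * ξ ^ (j : ℕ) = 0 := by
      intro t
      have h1 := congrArg (fun P : Polynomial (AlgebraicClosure ℚ) => P.coeff t) hsum
      simp only [Polynomial.finsetSum_coeff, Polynomial.coeff_C_mul, Polynomial.coeff_map,
        Polynomial.coeff_zero] at h1
      rw [← h1, ← Finset.sum_fiberwise (s := Finset.univ) (g := J)]
      refine Finset.sum_congr rfl fun j _ => ?_
      rw [hS, Finset.sum_mul]
      refine Finset.sum_congr rfl fun i hi => ?_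
      rw [hJy i, (Finset.mem_filter.1 hi).2]
      ring
    have hres := fun t => hbase (m₀ * k') p hN' hp (dvd_mul_right _ _) ξ hξ (S t) (hSmem t)
      (hSsum t)
    -- the class of 0
    have hI := hsub (Finset.univ.filter fun i => J i = ⟨0, hp0⟩)
      ⟨0, Finset.mem_filter.2 ⟨Finset.mem_univ _, (hJ0 0).2 (by rw [h0, one_pow])⟩⟩
      (by
        intro h
        refine hnot fun i => (hJ0 i).1 ?_
        have := Finset.mem_univ i
        rw [← h] at this
        exact (Finset.mem_filter.1 this).2)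
    have hne : ∃ t, S t ⟨0, hp0⟩ ≠ 0 := by
      by_contra hcon
      push Not at hcon
      refine hI (Polynomial.ext fun t => ?_)
      rw [Polynomial.finsetSum_coeff, Polynomial.coeff_zero, ← hcon t]
      refine Finset.sum_congr rfl fun i hi => ?_
      rw [Polynomial.coeff_C_mul, Polynomial.coeff_map, hJy i, (Finset.mem_filter.1 hi).2]
      show ξ ^ 0 * y i * _ = _
      rw [pow_zero, one_mul]
    obtain ⟨t, ht⟩ := hne
    have hpN : ¬ p ∣ m₀ * k' := fun h => ht ((hres t).1 h _)
    have hsurj : Function.Surjective J := by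
      intro j
      by_contra hcon
      push Not at hcon
      have hz : S t j = 0 := by
        rw [hS]
        refine Finset.sum_eq_zero fun i hi => ?_
        exact absurd (Finset.mem_filter.1 hi).2 (hcon i)
      exact ht (by rw [(hres t).2 ⟨0, hp0⟩ j, hz])
    constructor
    · have := Fintype.card_le_of_surjective J hsurj
      rwa [Fintype.card_fin, Fintype.card_fin] at this
    · rintro ⟨c, hc⟩
      refine hpN (Dvd.dvd.mul_left ⟨c, ?_⟩ _)
      rw [hk', mul_assoc] at hc
      exact Nat.eq_of_mul_eq_mul_left hp0 hc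
  have hsq : Squarefree k := Nat.squarefree_iff_prime_squarefree.2 fun p hp hpp =>
    (key p hp (dvd_of_mul_right_dvd hpp)).2 hpp
  have hkd : k ∣ (n + 1).factorial := by
    rw [← Nat.prod_primeFactors_of_squarefree hsq]
    refine Finset.prod_primes_dvd _ (fun p hp => ?_) fun p hp => ?_
    · exact (Nat.prime_of_mem_primeFactors hp).prime
    · exact (Nat.prime_of_mem_primeFactors hp).dvd_factorial.2
        (key p (Nat.prime_of_mem_primeFactors hp) (Nat.dvd_of_mem_primeFactors hp)).1
  intro i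
  obtain ⟨c, hc⟩ := Nat.mul_dvd_mul_left m₀ hkd
  rw [hc, pow_mul, hkη i, one_pow]

end BMF
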