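import Pool.Agent.Lib.MP_a325a5_ag.S.Uu

/-! End of Corollary 3.4.  tp t is injective; tp t of the left side equals fbr times ∏ (c_j(T))^C: c_j(T)^(C+κ) = c_j(t)^(C+κ) U^((C+κ) e_j) by uu_nat (C + κ_ij ≥ 0), uu_add. -/

open NumberField

namespace BMF

/-- the polynomials `f i ∏ c j ^ (C + κ i j)` -/
noncomputable def GG {L : Type} [Field L] (α γ : Fin 3 → L) {n : ℕ}
    (f : Fin (n + 1) → Polynomial L) (C : ℕ) (κ : Fin (n + 1) → Fin 3 → ℤ) (i : Fin (n + 1)) :
    Polynomial L :=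
  f i * ∏ j, (Polynomial.C (γ j) * (Polynomial.X - Polynomial.C (α j))) ^
    ((C : ℤ) + κ i j).toNat

theorem GG_toNat {C : ℕ} {k : ℤ} (hk : |k| ≤ C) : (((C : ℤ) + k).toNat : ℤ) = C + k := by
  have := abs_le.mp hk
  exact Int.toNat_of_nonneg (by linarith)

theorem GG_aeval {L F : Type} [Field L] [Field F] [Algebra L F] (α γ : Fin 3 → L) {n : ℕ}
    (f : Fin (n + 1) → Polynomial L) (C : ℕ) (κ : Fin (n + 1) → Fin 3 → ℤ)
    (hκ : ∀ i j, |κ i j| ≤ C) (t : F) (hc : ∀ j, cc α γ t j ≠ 0) (i : Fin (n + 1)) :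
    Polynomial.aeval t (GG α γ f C κ i) =
      Polynomial.aeval t (f i) * (∏ j, cc α γ t j ^ κ i j) * ∏ j, cc α γ t j ^ C := by
  rw [GG, map_mul, map_prod, mul_assoc, ← Finset.prod_mul_distrib]
  congr 1
  refine Finset.prod_congr rfl fun j _ => ?_
  have h1 : Polynomial.aeval t (Polynomial.C (γ j) * (Polynomial.X - Polynomial.C (α j))) =
      cc α γ t j := by
    simp [cc]
  rw [map_pow, h1, ← zpow_natCast, GG_toNat (hκ i j), zpow_add₀ (hc j), zpow_natCast, mul_comm]

theorem twist_id {L F : Type} [Field L] [NumberField L] [Field F] [NumberField F]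
    [Algebra L F] (α γ : Fin 3 → L) (hγ : ∀ j, γ j ≠ 0) {n : ℕ}
    (f : Fin (n + 1) → Polynomial L) (C : ℕ)
    (κ : Fin (n + 1) → Fin 3 → ℤ) (hκ : ∀ i j, |κ i j| ≤ C) (t : F) (z : Fin (n + 1) → F)
    (ht : ∀ j, t ≠ algebraMap L F (α j)) (h : fbr α f t z (fun i j => (κ i j : ℚ)) = 0) :
    ∑ i, Polynomial.C (z i * ∏ j, cc α γ t j ^ (-κ i j)) *
      (GG α γ f C κ i).map (algebraMap L F) = 0 := by
  have hc : ∀ j, cc α γ t j ≠ 0 := fun j =>
    mul_ne_zero ((map_ne_zero_iff _ (algebraMap L F).injective).mpr (hγ j))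
      (sub_ne_zero.mpr (ht j))
  apply tp_inj t
  rw [map_zero, map_sum]
  set α' : Fin 3 → F := fun j => algebraMap L F (α j) with hα'
  have key : ∀ i, tp t (Polynomial.C (z i * ∏ j, cc α γ t j ^ (-κ i j)) *
      (GG α γ f C κ i).map (algebraMap L F)) =
      (PowerSeries.C (∏ j, cc α γ t j ^ C) * uu α' t (fun _ => (C : ℚ))) *
      (tp t ((f i).map (algebraMap L F)) * (PowerSeries.C (z i) *
        uu α' t (fun j => (κ i j : ℚ)))) := by
    intro i
    have h1 : (GG α γ f C κ i).map (algebraMap L F) = (f i).map (algebraMap L F) *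
        (Polynomial.C (∏ j, algebraMap L F (γ j) ^ ((C : ℤ) + κ i j).toNat) *
          ∏ j, (Polynomial.X - Polynomial.C (α' j)) ^ ((C : ℤ) + κ i j).toNat) := by
      rw [GG, Polynomial.map_mul, Polynomial.map_prod, map_prod, ← Finset.prod_mul_distrib]
      congr 1
      refine Finset.prod_congr rfl fun j _ => ?_
      rw [Polynomial.map_pow, Polynomial.map_mul, Polynomial.map_sub, Polynomial.map_C,
        Polynomial.map_X, Polynomial.map_C, mul_pow, map_pow]
    have h2 : uu α' t (fun j => ((((C : ℤ) + κ i j).toNat : ℕ) : ℚ)) =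
        uu α' t (fun _ => (C : ℚ)) * uu α' t (fun j => (κ i j : ℚ)) := by
      rw [← uu_add]
      congr 1
      funext j
      rw [Pi.add_apply]
      have h3 := GG_toNat (hκ i j)
      exact_mod_cast congrArg (Int.cast : ℤ → ℚ) h3
    rw [map_mul (tp t), tp_C, h1, map_mul (tp t), map_mul (tp t), tp_C, uu_nat α' t ht, h2]
    have h4 : PowerSeries.C (z i * ∏ j, cc α γ t j ^ (-κ i j)) *
        (PowerSeries.C (∏ j, algebraMap L F (γ j) ^ ((C : ℤ) + κ i j).toNat) *
          PowerSeries.C (∏ j, (t - α' j) ^ ((C : ℤ) + κ i j).toNat)) =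
        PowerSeries.C (∏ j, cc α γ t j ^ C) * PowerSeries.C (z i) := by
      rw [← map_mul, ← map_mul, ← map_mul]
      congr 1
      rw [← Finset.prod_mul_distrib, mul_assoc, ← Finset.prod_mul_distrib, mul_comm]
      congr 1
      refine Finset.prod_congr rfl fun j _ => ?_
      rw [← mul_pow]
      change cc α γ t j ^ (-κ i j) * cc α γ t j ^ ((C : ℤ) + κ i j).toNat = _
      rw [← zpow_natCast, ← zpow_add₀ (hc j), GG_toNat (hκ i j), ← zpow_natCast]
      congr 1
      ring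
    linear_combination (tp t ((f i).map (algebraMap L F)) *
      (uu α' t (fun _ => (C : ℚ)) * uu α' t (fun j => (κ i j : ℚ)))) * h4
  rw [Finset.sum_congr rfl fun i _ => key i, ← Finset.mul_sum]
  rw [fbr] at h
  rw [h, mul_zero]

end BMF
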