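import Pool.Agent.Lib.MP_a325a5_ag.S.EndS
import Pool.Agent.Lib.MP_a325a5_ag.S.Mann
import Pool.Agent.Lib.MP_a325a5_ag.S.TwId
import Pool.Agent.Lib.MP_a325a5_ag.S.PtOf
import Pool.Agent.Lib.MP_a325a5_ag.F.FinT

/-! Theorem S with parameters in a number field inside the algebraic numbers, from the height bound
`hbd2` (hypothesis `hB`). -/

open NumberField Pool.Agent.Lib.MP_a325a5_ag.UL

namespace BMF

private theorem thmL_pull {L : Type} [Field L] [NumberField L] [Algebra L (AlgebraicClosure ℚ)]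
    {n : ℕ} (t : AlgebraicClosure ℚ) (z : Fin (n + 1) → (AlgebraicClosure ℚ)ˣ) :
    ∃ (K : Type) (_ : Field K) (_ : NumberField K) (_ : Algebra L K)
      (i : K →ₐ[L] AlgebraicClosure ℚ) (t' : K) (z' : Fin (n + 1) → Kˣ), i t' = t ∧
        (∀ l, i (z' l : K) = z l) ∧
        IntermediateField.adjoin L ({t'} ∪ Set.range fun l => (z' l : K)) = ⊤ := by
  classical
  obtain ⟨K, iF, iN, iA, i, hS, htop⟩ := exists_field L
    ({t} ∪ Set.range fun l => (z l : AlgebraicClosure ℚ))
    ((Set.finite_singleton t).union (Set.finite_range _))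
  obtain ⟨t', ht'⟩ := hS (Or.inl (Set.mem_singleton t))
  have hz : ∀ l, ∃ x : K, i x = (z l : AlgebraicClosure ℚ) := fun l => hS (Or.inr ⟨l, rfl⟩)
  choose x hx using hz
  have hx0 : ∀ l, x l ≠ 0 := by
    intro l h0
    have := hx l
    rw [h0, map_zero] at this
    exact (z l).ne_zero this.symm
  refine ⟨K, iF, iN, iA, i, t', fun l => Units.mk0 (x l) (hx0 l), ht', hx, ?_⟩
  have hpre : i ⁻¹' ({t} ∪ Set.range fun l => (z l : AlgebraicClosure ℚ)) =
      {t'} ∪ Set.range x := by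
    ext y
    simp only [Set.mem_preimage, Set.mem_union, Set.mem_singleton_iff, Set.mem_range]
    constructor
    · rintro (h | ⟨l, h⟩)
      · exact Or.inl (i.injective (h.trans ht'.symm))
      · exact Or.inr ⟨l, i.injective ((hx l).trans h)⟩
    · rintro (rfl | ⟨l, rfl⟩)
      · exact Or.inl ht'
      · exact Or.inr ⟨l, (hx l).symm⟩
  rw [hpre] at htop
  exact htop

private theorem thmL_rel {L K F : Type} [Field L] [Field K] [Field F] [Algebra L K] [Algebra L F]
    (i : K →ₐ[L] F) (α γ : Fin 3 → L) (t : K) (c : Fin 3 → Kˣ)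
    (hc : ∀ j, (c j : K) = cc α γ t j) (a : Fin 3 → ℤ) (h : ∏ j, c j ^ a j = 1) :
    ∏ j, (algebraMap L F (γ j) * (i t - algebraMap L F (α j))) ^ a j = 1 := by
  have h1 := congrArg (fun u : Kˣ => i (u : K)) h
  simp only [Units.coe_prod, Units.val_zpow_eq_zpow_val, Units.val_one, map_prod, map_one,
    map_zpow₀] at h1
  rw [← h1]
  refine Finset.prod_congr rfl fun j _ => ?_
  rw [hc]
  simp only [cc, map_mul, map_sub, AlgHom.commutes]

private theorem thmL_nvs {L K F : Type} [Field L] [Field K] [Field F] [Algebra L K] [Algebra L F]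
    (i : K →ₐ[L] F) {n : ℕ} (f : Fin (n + 1) → Polynomial L) (t : K) (z : Fin (n + 1) → K)
    (h : NVS fun l => Polynomial.aeval (i t) (f l) * i (z l)) :
    NVS fun l => Polynomial.aeval t (f l) * z l := by
  have key : ∀ I : Finset (Fin (n + 1)), i (∑ l ∈ I, Polynomial.aeval t (f l) * z l) =
      ∑ l ∈ I, Polynomial.aeval (i t) (f l) * i (z l) := by
    intro I
    rw [map_sum]
    refine Finset.sum_congr rfl fun l _ => ?_
    rw [map_mul, Polynomial.aeval_algHom_apply]
  refine ⟨i.injective ?_, fun I hI hI' h0 => h.2 I hI hI' ?_⟩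
  · change i (∑ l, Polynomial.aeval t (f l) * z l) = i 0
    rw [key, map_zero]
    exact h.1
  · rw [← key, h0, map_zero]

private theorem thmL_mr {K F : Type} [Field K] [Field F] (i : K →+* F) {ι : Type} [Fintype ι]
    (x : ι → Kˣ) (y : ι → Fˣ) (h : ∀ l, i (x l : K) = y l) : mr x = mr y := by
  refine mr_congr _ _ fun a => ?_
  have e : ∏ k, y k ^ a k = Units.map (i : K →* F) (∏ k, x k ^ a k) := by
    rw [map_prod]
    refine Finset.prod_congr rfl fun k _ => ?_
    rw [map_zpow]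
    refine congrArg (fun u : Fˣ => u ^ a k) (Units.ext ?_)
    rw [← h k]
    rfl
  rw [e]
  constructor
  · intro h
    exact Units.map_injective (f := (i : K →* F)) i.injective (h.trans (map_one _).symm)
  · intro h
    rw [h, map_one]

theorem thmS_L {L : Type} [Field L] [NumberField L] [Algebra L (AlgebraicClosure ℚ)]
    (α γ : Fin 3 → L) (hα : Function.Injective α) (hγ : ∀ j, γ j ≠ 0) {n : ℕ} (hn : 1 ≤ n)
    (f : Fin (n + 1) → Polynomial L) (hf : ∀ i, f i ≠ 0)
    (hB : ∃ B : ℝ, ∃ D₁ : ℕ, ∀ (K : Type) [Field K] [NumberField K] [Algebra L K] (t : K)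
      (c : Fin 3 → Kˣ) (z : Fin (n + 1) → Kˣ),
      (∀ j, (c j : K) = algebraMap L K (γ j) * (t - algebraMap L K (α j))) →
      NVS (fun i => Polynomial.aeval t (f i) * (z i : K)) → mr (Sum.elim c z) ≤ 2 →
      (∃ a : Fin 3 → ℤ, a ≠ 0 ∧ ∏ j, c j ^ a j = 1) ∧ ht t ≤ B ∧
      ((∀ i, ht ((z i : K) / z 0) ≤ B) ∨ (minpoly L t).natDegree ≤ D₁ ∨
        ∃ a b : Fin 3 → ℤ, LinearIndependent ℤ ![a, b] ∧ ∏ j, c j ^ a j = 1 ∧
          ∏ j, c j ^ b j = 1)) :
    ∃ (T : Set (AlgebraicClosure ℚ)) (N C : ℕ), T.Finite ∧ 0 < N ∧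
      ∀ (t : AlgebraicClosure ℚ) (c : Fin 3 → (AlgebraicClosure ℚ)ˣ)
        (z : Fin (n + 1) → (AlgebraicClosure ℚ)ˣ),
        (∀ j, (c j : AlgebraicClosure ℚ) =
          algebraMap L (AlgebraicClosure ℚ) (γ j) *
            (t - algebraMap L (AlgebraicClosure ℚ) (α j))) →
        NVS (fun i => Polynomial.aeval t (f i) * (z i : AlgebraicClosure ℚ)) →
        mr (Sum.elim c z) ≤ 2 → t ∈ T ∨
        ∃ κ : Fin (n + 1) → Fin 3 → ℤ, (∀ i j, |κ i j| ≤ C) ∧
          ∀ i, (z i * (z 0)⁻¹ * ∏ j, c j ^ (-κ i j)) ^ N = 1 := by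
  classical
  obtain ⟨B, D₁, hB⟩ := hB
  obtain ⟨C₁, hC⟩ := endS α γ hα hγ hn f hf B
  obtain ⟨N₀, hN₀, hmann⟩ := mann L n
  have h1 := fin_T1 L α γ hα hγ
  have h2 := fin_T2 L α γ hα hγ D₁
  have h3 := fin_T2 L α γ hα hγ C₁
  refine ⟨_, N₀, C₁, (h1.union h2).union h3, hN₀, ?_⟩
  intro t c z hc hs hm
  by_cases hT : t ∈ ({t : AlgebraicClosure ℚ | (∀ j, t ≠ algebraMap L _ (α j)) ∧
      ∃ a b : Fin 3 → ℤ, LinearIndependent ℤ ![a, b] ∧
      ∏ j, (algebraMap L _ (γ j) * (t - algebraMap L _ (α j))) ^ a j = 1 ∧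
      ∏ j, (algebraMap L _ (γ j) * (t - algebraMap L _ (α j))) ^ b j = 1} ∪
      {t : AlgebraicClosure ℚ | (∀ j, t ≠ algebraMap L _ (α j)) ∧ (∃ a : Fin 3 → ℤ, a ≠ 0 ∧
      ∏ j, (algebraMap L _ (γ j) * (t - algebraMap L _ (α j))) ^ a j = 1) ∧
      (minpoly L t).natDegree ≤ D₁}) ∪
      {t : AlgebraicClosure ℚ | (∀ j, t ≠ algebraMap L _ (α j)) ∧ (∃ a : Fin 3 → ℤ, a ≠ 0 ∧
      ∏ j, (algebraMap L _ (γ j) * (t - algebraMap L _ (α j))) ^ a j = 1) ∧
      (minpoly L t).natDegree ≤ C₁}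
  · exact Or.inl hT
  right
  simp only [Set.mem_union, not_or] at hT
  obtain ⟨⟨n1, n2⟩, n3⟩ := hT
  -- pull back to a number field
  obtain ⟨K, iF, iN, iA, i, t', z', hit, hiz, htop⟩ :=
    thmL_pull (L := L) t (fun l => z l * (z 0)⁻¹)
  have hta : ∀ j, t ≠ algebraMap L _ (α j) := by
    intro j hj
    have h4 := hc j
    rw [hj, sub_self, mul_zero] at h4
    exact (c j).ne_zero h4
  have hic : ∀ j, i (cc α γ t' j) = c j := by
    intro j
    rw [hc j]
    simp only [cc, map_mul, map_sub, AlgHom.commutes, hit]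
  have hcc : ∀ j, cc α γ t' j ≠ 0 := by
    intro j h0
    have h4 := hic j
    rw [h0, map_zero] at h4
    exact (c j).ne_zero h4.symm
  obtain ⟨c', hc'⟩ : ∃ c' : Fin 3 → Kˣ, ∀ j, (c' j : K) = cc α γ t' j :=
    ⟨fun j => Units.mk0 _ (hcc j), fun j => rfl⟩
  have hz0 : z' 0 = 1 := by
    apply Units.ext
    apply i.injective
    change i (z' 0 : K) = i ((1 : Kˣ) : K)
    rw [hiz 0, mul_inv_cancel, Units.val_one, Units.val_one, map_one]
  have hs' : NVS fun l => Polynomial.aeval t' (f l) * (z' l : K) := by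
    refine thmL_nvs i f t' (fun l => (z' l : K)) ?_
    have e : ∀ l, Polynomial.aeval (i t') (f l) * i (z' l : K) =
        (Polynomial.aeval t (f l) * (z l : AlgebraicClosure ℚ)) * ((z 0)⁻¹ : (AlgebraicClosure ℚ)ˣ) := by
      intro l
      rw [hit, hiz l]
      push_cast
      ring
    refine ⟨?_, fun I hI hI' h0 => hs.2 I hI hI' ?_⟩
    · simp only [e]
      rw [← Finset.sum_mul, hs.1, zero_mul]
    · simp only [e] at h0
      rw [← Finset.sum_mul] at h0
      exact (mul_eq_zero.mp h0).resolve_right (Units.ne_zero _)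
  have hm' : mr (Sum.elim c' z') ≤ 2 := by
    have e1 : mr (Sum.elim c' z') = mr (Sum.elim c fun l => z l * (z 0)⁻¹) := by
      refine thmL_mr (i : K →+* AlgebraicClosure ℚ) _ _ ?_
      rintro (j | l)
      · simp only [Sum.elim_inl]
        rw [hc' j]
        exact hic j
      · simp only [Sum.elim_inr]
        exact hiz l
    rw [e1]
    refine le_trans ?_ hm
    unfold mr
    refine Submodule.finrank_mono ?_
    rw [Submodule.span_le]
    rintro _ ⟨j | l, rfl⟩
    · exact Submodule.subset_span ⟨Sum.inl j, rfl⟩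
    · have h5 : Additive.ofMul (z l) ∈ Submodule.span ℤ
          (Set.range fun i => Additive.ofMul (Sum.elim c z i)) :=
        Submodule.subset_span ⟨Sum.inr l, rfl⟩
      have h6 : Additive.ofMul (z 0) ∈ Submodule.span ℤ
          (Set.range fun i => Additive.ofMul (Sum.elim c z i)) :=
        Submodule.subset_span ⟨Sum.inr 0, rfl⟩
      have h7 := Submodule.sub_mem _ h5 h6
      simpa [sub_eq_add_neg] using h7
  have hcB : ∀ j, (c' j : K) = algebraMap L K (γ j) * (t' - algebraMap L K (α j)) := hc'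
  obtain ⟨⟨a, ha0, ha⟩, hht, hor⟩ := hB K t' c' z' hcB hs' hm'
  have hrelQ : ∀ a : Fin 3 → ℤ, ∏ j, c' j ^ a j = 1 →
      ∏ j, (algebraMap L (AlgebraicClosure ℚ) (γ j) *
        (t - algebraMap L (AlgebraicClosure ℚ) (α j))) ^ a j = 1 := by
    intro a ha
    rw [← hit]
    exact thmL_rel i α γ t' c' hc' a ha
  have hno2 : ∀ a b : Fin 3 → ℤ, ∏ j, c' j ^ a j = 1 → ∏ j, c' j ^ b j = 1 →
      ¬ LinearIndependent ℤ ![a, b] := by
    intro a b ha hb hab
    exact n1 ⟨hta, a, b, hab, hrelQ a ha, hrelQ b hb⟩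
  have hbd : ∀ l, ht (z' l : K) ≤ B := by
    rcases hor with h | h | ⟨a, b, hab, ha, hb⟩
    · intro l
      have := h l
      rw [hz0] at this
      simpa using this
    · refine absurd ⟨hta, ⟨a, ha0, hrelQ a ha⟩, ?_⟩ n2
      rw [← hit, minpoly.algHom_eq i i.injective]
      exact h
    · exact absurd hab (hno2 a b ha hb)
  have hpt : Pt α γ f t' fun l => (z' l : K) :=
    pt_of α γ f t' c' z' hc' hz0 hs' hm' ⟨a, ha0, ha⟩ hno2
  rcases hC K t' (fun l => (z' l : K)) hpt htop hbd with h | ⟨κ, hκ0, hκ, hfbr, htor⟩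
  · refine absurd ⟨hta, ⟨a, ha0, hrelQ a ha⟩, ?_⟩ n3
    rw [← hit, minpoly.algHom_eq i i.injective]
    exact (minpoly.natDegree_le t').trans h
  · refine ⟨κ, hκ, ?_⟩
    have hid := twist_id α γ hγ f C₁ κ hκ t' (fun l => (z' l : K)) hpt.ne hfbr
    -- the roots of unity
    have hη : ∀ l, i ((z' l : K) * ∏ j, cc α γ t' j ^ (-κ l j)) =
        ((z l * (z 0)⁻¹ * ∏ j, c j ^ (-κ l j) : (AlgebraicClosure ℚ)ˣ) : AlgebraicClosure ℚ) := by
      intro l
      rw [map_mul, map_prod, hiz l]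
      simp only [map_zpow₀, hic, Units.val_mul, Units.coe_prod, Units.val_zpow_eq_zpow_val]
    have hmn := hmann (fun l => GG α γ f C₁ κ l)
      (fun l => i ((z' l : K) * ∏ j, cc α γ t' j ^ (-κ l j))) ?_ ?_ ?_ ?_
    · intro l
      have h8 := hmn l
      rw [hη l] at h8
      apply Units.ext
      rw [Units.val_pow_eq_pow_val]
      exact h8
    · simp only [hz0, hκ0]
      simp
    · intro l
      obtain ⟨m, hm0, hm1⟩ := htor l
      refine ⟨m, hm0, ?_⟩
      rw [← map_pow, hm1, map_one]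
    · have h9 := congrArg (Polynomial.map (i : K →+* AlgebraicClosure ℚ)) hid
      rw [Polynomial.map_sum, Polynomial.map_zero] at h9
      rw [← h9]
      refine Finset.sum_congr rfl fun l _ => ?_
      rw [Polynomial.map_mul, Polynomial.map_C, Polynomial.map_map]
      congr 2
      ext x
      exact (i.commutes x).symm
    · intro I hI hI' h0
      apply hpt.sub I hI hI'
      have h9 := congrArg (Polynomial.eval t) h0
      rw [Polynomial.eval_finset_sum, Polynomial.eval_zero] at h9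
      have h10 : ∀ l, Polynomial.eval t (Polynomial.C (i ((z' l : K) *
          ∏ j, cc α γ t' j ^ (-κ l j))) * (GG α γ f C₁ κ l).map
            (algebraMap L (AlgebraicClosure ℚ))) =
          i ((Polynomial.aeval t' (f l) * (z' l : K)) * ∏ j, cc α γ t' j ^ C₁) := by
        intro l
        rw [Polynomial.eval_mul, Polynomial.eval_C, Polynomial.eval_map_algebraMap, ← hit,
          Polynomial.aeval_algHom_apply, GG_aeval α γ f C₁ κ hκ t' hcc l, ← map_mul]
        congr 1
        have h11 : (∏ j, cc α γ t' j ^ (-κ l j)) * ∏ j, cc α γ t' j ^ κ l j = 1 := by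
          rw [← Finset.prod_mul_distrib]
          refine Finset.prod_eq_one fun j _ => ?_
          rw [← zpow_add₀ (hcc j)]
          simp
        calc (z' l : K) * (∏ j, cc α γ t' j ^ (-κ l j)) * (Polynomial.aeval t' (f l) *
              (∏ j, cc α γ t' j ^ κ l j) * ∏ j, cc α γ t' j ^ C₁)
            = ((∏ j, cc α γ t' j ^ (-κ l j)) * ∏ j, cc α γ t' j ^ κ l j) *
              ((Polynomial.aeval t' (f l) * (z' l : K)) * ∏ j, cc α γ t' j ^ C₁) := by ring
          _ = _ := by rw [h11, one_mul]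
      simp only [h10] at h9
      rw [← map_sum, ← Finset.sum_mul] at h9
      have h12 := i.injective (h9.trans (map_zero i).symm)
      exact (mul_eq_zero.mp h12).resolve_right
        (Finset.prod_ne_zero_iff.mpr fun j _ => pow_ne_zero _ (hcc j))

end BMF
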