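import Mathlib

/-! Index: H = row lattice of D in ℤ^(m+1), of index |det D|.  x = generator of {x : last m coordinates of x D vanish} (rank one), e := (x D)_0, H ∩ (ℤ × 0) = ℤ e.  ℤ^(m+1)/H has the subgroup
ℤ/eℤ with quotient ℤ^m/pr(H): |det D| = |e| [ℤ^m : pr H].  R = representatives of ℤ^m / pr H.  (Or: bring D to a triangular form by unimodular row operations, Hermite normal form.) -/



namespace BMF

private theorem latI_card {n : ℕ} (D : Matrix (Fin n) (Fin n) ℤ) (hD : D.det ≠ 0) :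
    Nat.card ((Fin n → ℤ) ⧸ LinearMap.range (Matrix.toLin' D.transpose)) = D.det.natAbs := by
  have hinj : Function.Injective (Matrix.toLin' D.transpose) := by
    rw [← LinearMap.ker_eq_bot, LinearMap.ker_eq_bot']
    intro v hv
    rw [Matrix.toLin'_apply] at hv
    exact Matrix.eq_zero_of_mulVec_eq_zero (by rwa [Matrix.det_transpose]) hv
  have h := Submodule.natAbs_det_equiv (LinearMap.range (Matrix.toLin' D.transpose))
    (LinearEquiv.ofInjective _ hinj)
  rw [← h]
  have e : ((LinearMap.range (Matrix.toLin' D.transpose)).subtype ∘ₗ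
      AddMonoidHom.toIntLinearMap ((LinearEquiv.ofInjective _ hinj :
        (Fin n → ℤ) ≃ₗ[ℤ] LinearMap.range (Matrix.toLin' D.transpose)) :
        (Fin n → ℤ) →+ LinearMap.range (Matrix.toLin' D.transpose))) =
      Matrix.toLin' D.transpose := by
    ext v
    rfl
  rw [e, LinearMap.det_toLin', Matrix.det_transpose]

/-- a subgroup `H` of finite index of `ℤ × ℤ^m` -/
private theorem latI_sub {m : ℕ} (H : Submodule ℤ (Fin (m + 1) → ℤ))
    (hH : Nat.card ((Fin (m + 1) → ℤ) ⧸ H) ≠ 0) :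
    ∃ (e : ℕ) (R : Finset (Fin m → ℤ)), e ≠ 0 ∧
      (Fin.cons (e : ℤ) (0 : Fin m → ℤ) : Fin (m + 1) → ℤ) ∈ H ∧
      (∀ u : Fin m → ℤ, ∃ u₀ ∈ R, ∃ y ∈ H, ∀ j : Fin m, u j - y j.succ = u₀ j) ∧
      R.card * e ≤ Nat.card ((Fin (m + 1) → ℤ) ⧸ H) := by
  classical
  haveI hfin : Finite ((Fin (m + 1) → ℤ) ⧸ H) := Nat.finite_of_card_ne_zero hH
  -- the inclusion of the first coordinate
  let ι₀ : ℤ →ₗ[ℤ] (Fin (m + 1) → ℤ) :=
    { toFun := fun c => Fin.cons c (0 : Fin m → ℤ)
      map_add' := fun a b => by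
        funext j
        refine Fin.cases ?_ (fun j => ?_) j <;> simp
      map_smul' := fun a b => by
        funext j
        refine Fin.cases ?_ (fun j => ?_) j <;> simp }
  let I : Submodule ℤ ℤ := H.comap ι₀
  obtain ⟨g, hg⟩ : ∃ g : ℤ, I = Ideal.span {g} := (IsPrincipalIdealRing.principal I).principal
  let pr : (Fin (m + 1) → ℤ) →ₗ[ℤ] (Fin m → ℤ) :=
    { toFun := fun v j => v j.succ
      map_add' := fun a b => rfl
      map_smul' := fun a b => rfl }
  let P : Submodule ℤ (Fin m → ℤ) := H.map pr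
  -- index of P
  have hPfin : Finite ((Fin m → ℤ) ⧸ P) := by
    let φ : (Fin (m + 1) → ℤ) ⧸ H → (Fin m → ℤ) ⧸ P :=
      Submodule.mapQ H P pr (fun x hx => ⟨x, hx, rfl⟩)
    have hφ : Function.Surjective φ := by
      intro q
      obtain ⟨u, rfl⟩ := Submodule.Quotient.mk_surjective _ q
      refine ⟨Submodule.Quotient.mk (Fin.cons 0 u), ?_⟩
      show Submodule.Quotient.mk (pr (Fin.cons 0 u)) = _
      congr 1
    exact Finite.of_surjective φ hφ
  haveI : Fintype ((Fin m → ℤ) ⧸ P) := Fintype.ofFinite _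
  let R : Finset (Fin m → ℤ) := Finset.univ.image (fun q : (Fin m → ℤ) ⧸ P => q.out)
  have hRsep : ∀ u ∈ R, ∀ v ∈ R, u - v ∈ P → u = v := by
    intro u hu v hv huv
    obtain ⟨q, -, rfl⟩ := Finset.mem_image.mp hu
    obtain ⟨r, -, rfl⟩ := Finset.mem_image.mp hv
    have h : (Submodule.Quotient.mk (p := P) q.out) = Submodule.Quotient.mk r.out :=
      (Submodule.Quotient.eq P).mpr huv
    have h1 : Submodule.Quotient.mk (p := P) q.out = q := Quotient.out_eq q
    have h2 : Submodule.Quotient.mk (p := P) r.out = r := Quotient.out_eq r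
    rw [h1, h2] at h
    rw [h]
  -- g is not zero
  have hg0 : g ≠ 0 := by
    intro h0
    have hinj : Function.Injective (fun c : ℤ => (Submodule.Quotient.mk (ι₀ c) :
        (Fin (m + 1) → ℤ) ⧸ H)) := by
      intro c d hcd
      have h := (Submodule.Quotient.eq H).mp hcd
      rw [← map_sub] at h
      have h' : c - d ∈ I := h
      rw [hg, h0] at h'
      have h'' : c - d = 0 := by simpa using h'
      linarith
    exact not_injective_infinite_finite _ hinj
  refine ⟨g.natAbs, R, Int.natAbs_ne_zero.mpr hg0, ?_, ?_, ?_⟩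
  · have : ((g.natAbs : ℕ) : ℤ) ∈ I := by
      rw [hg, Ideal.mem_span_singleton]
      exact Int.dvd_natAbs_self
    exact this
  · intro u
    set q : (Fin m → ℤ) ⧸ P := Submodule.Quotient.mk u with hq
    refine ⟨q.out, Finset.mem_image_of_mem _ (Finset.mem_univ _), ?_⟩
    have h1 : Submodule.Quotient.mk (p := P) q.out = Submodule.Quotient.mk u := by
      rw [← hq]; exact Quotient.out_eq q
    have h2 : u - q.out ∈ P := (Submodule.Quotient.eq P).mp h1.symm
    obtain ⟨y, hy, hyu⟩ := h2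
    refine ⟨y, hy, fun j => ?_⟩
    have h3 : y j.succ = u j - q.out j := congrFun hyu j
    rw [h3]
    ring
  · -- the injection
    let F : R × Fin g.natAbs → (Fin (m + 1) → ℤ) ⧸ H := fun p =>
      Submodule.Quotient.mk (Fin.cons ((p.2 : ℕ) : ℤ) (p.1 : Fin m → ℤ))
    have hF : Function.Injective F := by
      rintro ⟨⟨u, hu⟩, i⟩ ⟨⟨v, hv⟩, k⟩ h
      have h1 := (Submodule.Quotient.eq H).mp h
      have h2 : u - v ∈ P := by
        refine ⟨_, h1, ?_⟩
        funext j
        simp [pr]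
      have h3 : u = v := hRsep u hu v hv h2
      subst h3
      have h4 : ((i : ℕ) : ℤ) - ((k : ℕ) : ℤ) ∈ I := by
        show ι₀ _ ∈ H
        have e : ι₀ (((i : ℕ) : ℤ) - ((k : ℕ) : ℤ)) =
            (Fin.cons ((i : ℕ) : ℤ) u : Fin (m + 1) → ℤ) - Fin.cons ((k : ℕ) : ℤ) u := by
          funext j
          refine Fin.cases ?_ (fun j => ?_) j <;> simp [ι₀]
        rw [e]
        exact h1
      rw [hg, Ideal.mem_span_singleton] at h4
      have h5 : ((i : ℕ) : ℤ) - ((k : ℕ) : ℤ) = 0 := by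
        apply Int.eq_zero_of_abs_lt_dvd ((abs_dvd _ _).mpr h4)
        have hi := i.2
        have hk := k.2
        have : (g.natAbs : ℤ) = |g| := (Int.abs_eq_natAbs g).symm
        rw [abs_lt]
        rcases abs_cases g with ⟨h6, _⟩ | ⟨h6, _⟩ <;> constructor <;> omega
      have h6 : i = k := by
        apply Fin.ext
        omega
      rw [h6]
    have h := Nat.card_le_card_of_injective F hF
    rw [Nat.card_prod, Nat.card_eq_fintype_card, Fintype.card_coe, Nat.card_eq_fintype_card,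
      Fintype.card_fin] at h
    exact h

theorem lat_index {m : ℕ} (D : Matrix (Fin (m + 1)) (Fin (m + 1)) ℤ) (hD : D.det ≠ 0) :
    ∃ (x : Fin (m + 1) → ℤ) (R : Finset (Fin m → ℤ)),
      (∀ j : Fin m, Matrix.vecMul x D j.succ = 0) ∧ Matrix.vecMul x D 0 ≠ 0 ∧
      (∀ u : Fin m → ℤ, ∃ u₀ ∈ R, ∃ y : Fin (m + 1) → ℤ, ∀ j : Fin m,
        u j - Matrix.vecMul y D j.succ = u₀ j) ∧
      R.card * (Matrix.vecMul x D 0).natAbs ≤ D.det.natAbs := by
  have hc := latI_card D hD
  obtain ⟨e, R, he, hmem, hR, hle⟩ := latI_sub (LinearMap.range (Matrix.toLin' D.transpose))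
    (by rw [hc]; exact Int.natAbs_ne_zero.mpr hD)
  obtain ⟨x, hx⟩ := hmem
  rw [Matrix.toLin'_apply, Matrix.mulVec_transpose] at hx
  refine ⟨x, R, ?_, ?_, ?_, ?_⟩
  · intro j
    rw [hx]
    simp
  · rw [hx]
    simpa using he
  · intro u
    obtain ⟨u₀, hu₀, y, ⟨y', hy'⟩, hy⟩ := hR u
    refine ⟨u₀, hu₀, y', fun j => ?_⟩
    rw [Matrix.toLin'_apply, Matrix.mulVec_transpose] at hy'
    rw [hy']
    exact hy j
  · rw [hx]
    rw [hc] at hle
    simpa using hle

end BMF
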