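import Mathlib

/-! Choose a_k in Λ outside the real span of the former vectors with minimal sup norm (a natural number); it exists because the span has dimension ≤ k < n and the v_l are independent over ℝ too
(integer vectors independent over ℤ are independent over ℝ: LinearIndependent.of.. / rank of a matrix).  Monotone: a_j is not in sp a i for i ≤ j. -/

open NumberField

namespace BMF

/-- an integer vector as a real vector -/
def rc {N : ℕ} (v : Fin N → ℤ) : Fin N → ℝ := fun i => (v i : ℝ)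

/-- the real span of the first `k` vectors -/
def sp {N n : ℕ} (a : Fin n → Fin N → ℤ) (k : ℕ) : Submodule ℝ (Fin N → ℝ) :=
  Submodule.span ℝ {x | ∃ j : Fin n, (j : ℕ) < k ∧ x = rc (a j)}

private theorem greedy_indep {N n : ℕ} (v : Fin n → Fin N → ℤ) :
    LinearIndependent ℝ (fun l => rc (v l)) ↔ LinearIndependent ℤ v := by
  have h := linearIndependent_algebraMap_comp_iff (R := ℤ) (S := ℝ) (v := v)
  exact h

private theorem greedy_sp_congr {N n : ℕ} (a a' : Fin n → Fin N → ℤ) (k : ℕ)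
    (h : ∀ j : Fin n, (j : ℕ) < k → a j = a' j) : sp a k = sp a' k := by
  unfold sp
  congr 1
  ext x
  constructor
  · rintro ⟨j, hj, rfl⟩
    exact ⟨j, hj, by rw [h j hj]⟩
  · rintro ⟨j, hj, rfl⟩
    exact ⟨j, hj, by rw [h j hj]⟩

private theorem greedy_sp_mono {N n : ℕ} (a : Fin n → Fin N → ℤ) {k m : ℕ} (h : k ≤ m) :
    sp a k ≤ sp a m := by
  apply Submodule.span_mono
  rintro x ⟨j, hj, rfl⟩
  exact ⟨j, lt_of_lt_of_le hj h, rfl⟩

private theorem greedy_finrank {N n : ℕ} (a : Fin n → Fin N → ℤ) (k : ℕ) :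
    Module.finrank ℝ (sp a k) ≤ k := by
  classical
  have h1 : sp a k = Submodule.span ℝ
      (((Finset.univ.filter (fun j : Fin n => (j : ℕ) < k)).image (fun j => rc (a j)) :
        Finset (Fin N → ℝ)) : Set (Fin N → ℝ)) := by
    unfold sp
    congr 1
    ext x
    simp only [Set.mem_setOf_eq, Finset.coe_image, Finset.coe_filter, Finset.mem_univ, true_and,
      Set.mem_image]
    constructor
    · rintro ⟨j, hj, rfl⟩
      exact ⟨j, hj, rfl⟩
    · rintro ⟨j, hj, rfl⟩
      exact ⟨j, hj, rfl⟩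
  rw [h1]
  refine (finrank_span_finset_le_card _).trans ?_
  refine Finset.card_image_le.trans ?_
  rw [Fin.card_filter_val_lt]
  exact min_le_right _ _

/-- the sup norm as a natural number -/
private def greedyNn {N : ℕ} (v : Fin N → ℤ) : ℕ := Finset.univ.sup fun i => (v i).natAbs

private theorem greedy_norm {N : ℕ} (v : Fin N → ℤ) : ‖rc v‖ = greedyNn v := by
  apply le_antisymm
  · rw [pi_norm_le_iff_of_nonneg (Nat.cast_nonneg _)]
    intro i
    have h1 : (v i).natAbs ≤ greedyNn v :=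
      Finset.le_sup (f := fun i => (v i).natAbs) (Finset.mem_univ i)
    show ‖((v i : ℤ) : ℝ)‖ ≤ _
    rw [Real.norm_eq_abs, ← Int.cast_abs, Int.abs_eq_natAbs]
    exact_mod_cast h1
  · rcases Nat.eq_zero_or_pos N with h0 | h0
    · subst h0
      have : greedyNn v = 0 := by
        unfold greedyNn
        simp
      rw [this]
      simp
    · have hne : (Finset.univ : Finset (Fin N)).Nonempty := ⟨⟨0, h0⟩, Finset.mem_univ _⟩
      obtain ⟨i, _, hi⟩ := Finset.exists_mem_eq_sup Finset.univ hne (fun i => (v i).natAbs)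
      have h1 : greedyNn v = (v i).natAbs := hi
      rw [h1]
      have h2 := norm_le_pi_norm (rc v) i
      refine le_trans (le_of_eq ?_) h2
      show (((v i).natAbs : ℕ) : ℝ) = ‖((v i : ℤ) : ℝ)‖
      rw [Real.norm_eq_abs, ← Int.cast_abs, Int.abs_eq_natAbs]
      simp

theorem greedy {N n : ℕ} (Λ : AddSubgroup (Fin N → ℤ))
    (h : ∃ v : Fin n → Fin N → ℤ, (∀ l, v l ∈ Λ) ∧ LinearIndependent ℤ v) :
    ∃ a : Fin n → Fin N → ℤ, (∀ l, a l ∈ Λ) ∧ LinearIndependent ℤ a ∧
      (∀ k : Fin n, rc (a k) ∉ sp a k) ∧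
      (∀ k : Fin n, ∀ v ∈ Λ, rc v ∉ sp a k → ‖rc (a k)‖ ≤ ‖rc v‖) ∧
      ∀ i j : Fin n, i ≤ j → ‖rc (a i)‖ ≤ ‖rc (a j)‖ := by
  classical
  obtain ⟨v, hv, hvi⟩ := h
  have hvr := (greedy_indep v).mpr hvi
  have key : ∀ m : ℕ, m ≤ n → ∃ a : Fin n → Fin N → ℤ, ∀ k : Fin n, (k : ℕ) < m →
      a k ∈ Λ ∧ rc (a k) ∉ sp a k ∧ ∀ w ∈ Λ, rc w ∉ sp a k → ‖rc (a k)‖ ≤ ‖rc w‖ := by
    intro m
    induction m with
    | zero =>
      intro _
      exact ⟨fun _ => 0, fun k hk => absurd hk (Nat.not_lt_zero _)⟩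
    | succ m ih =>
      intro hm
      obtain ⟨a, ha⟩ := ih (by omega)
      have hex : ∃ w, w ∈ Λ ∧ rc w ∉ sp a m := by
        by_contra hcon
        push Not at hcon
        have h1 : Submodule.span ℝ (Set.range (fun l => rc (v l))) ≤ sp a m := by
          rw [Submodule.span_le]
          rintro x ⟨l, rfl⟩
          exact hcon (v l) (hv l)
        have h2 := Submodule.finrank_mono h1
        rw [finrank_span_eq_card hvr, Fintype.card_fin] at h2
        have h3 := greedy_finrank a m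
        omega
      have hmin : ∃ w, (w ∈ Λ ∧ rc w ∉ sp a m) ∧ ∀ w', (w' ∈ Λ ∧ rc w' ∉ sp a m) →
          greedyNn w ≤ greedyNn w' := by
        obtain ⟨w, hw, hw'⟩ := WellFounded.has_min (measure greedyNn (α := Fin N → ℤ)).wf
          {w | w ∈ Λ ∧ rc w ∉ sp a m} hex
        exact ⟨w, hw, fun w' h' => not_lt.mp (hw' w' h')⟩
      obtain ⟨w, ⟨hw1, hw2⟩, hw3⟩ := hmin
      refine ⟨Function.update a ⟨m, hm⟩ w, ?_⟩
      have hag : ∀ k : ℕ, k ≤ m → sp (Function.update a ⟨m, hm⟩ w) k = sp a k := by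
        intro k hk
        apply greedy_sp_congr
        intro j hj
        rw [Function.update_of_ne]
        intro h
        rw [h] at hj
        simp at hj
        omega
      intro k hk
      rcases Nat.lt_succ_iff_lt_or_eq.mp hk with hk' | hk'
      · rw [hag k hk'.le, Function.update_of_ne (by
          intro h
          rw [h] at hk'
          simp at hk')]
        exact ha k hk'
      · have hk2 : k = ⟨m, hm⟩ := Fin.ext hk'
        rw [hk2, Function.update_self]
        show w ∈ Λ ∧ rc w ∉ sp (Function.update a ⟨m, hm⟩ w) m ∧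
          ∀ w' ∈ Λ, rc w' ∉ sp (Function.update a ⟨m, hm⟩ w) m → ‖rc w‖ ≤ ‖rc w'‖
        rw [hag m le_rfl]
        refine ⟨hw1, hw2, fun w' h1 h2 => ?_⟩
        rw [greedy_norm, greedy_norm]
        exact_mod_cast hw3 w' ⟨h1, h2⟩
  obtain ⟨a, ha⟩ := key n le_rfl
  have h1 : ∀ k : Fin n, rc (a k) ∉ sp a k := fun k => (ha k k.isLt).2.1
  refine ⟨a, fun l => (ha l l.isLt).1, ?_, h1, fun k => (ha k k.isLt).2.2, ?_⟩
  · rw [← greedy_indep]
    rw [linearIndependent_iff']
    by_contra hcon
    push Not at hcon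
    obtain ⟨s, g, hs, i, his, hgi⟩ := hcon
    -- the largest index with a nonzero coefficient
    let s' := s.filter (fun i => g i ≠ 0)
    have hs' : s'.Nonempty := ⟨i, Finset.mem_filter.mpr ⟨his, hgi⟩⟩
    have hmax := Finset.max'_mem s' hs'
    set k := s'.max' hs' with hk
    have hk1 := (Finset.mem_filter.mp hmax).1
    have hk2 := (Finset.mem_filter.mp hmax).2
    apply h1 k
    have h3 : g k • rc (a k) = -∑ i ∈ s.erase k, g i • rc (a i) := by
      rw [← Finset.add_sum_erase s _ hk1] at hs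
      exact eq_neg_of_add_eq_zero_left hs
    have h4 : rc (a k) = (g k)⁻¹ • (-∑ i ∈ s.erase k, g i • rc (a i)) := by
      rw [← h3, smul_smul, inv_mul_cancel₀ hk2, one_smul]
    rw [h4]
    refine Submodule.smul_mem _ _ (Submodule.neg_mem _ (Submodule.sum_mem _ fun i hi => ?_))
    by_cases hgi0 : g i = 0
    · rw [hgi0, zero_smul]
      exact Submodule.zero_mem _
    · refine Submodule.smul_mem _ _ (Submodule.subset_span ⟨i, ?_, rfl⟩)
      have hi2 := Finset.mem_erase.mp hi
      have h5 : i ∈ s' := Finset.mem_filter.mpr ⟨hi2.2, hgi0⟩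
      have h6 := Finset.le_max' s' i h5
      exact lt_of_le_of_ne h6 (fun h => hi2.1 (Fin.ext h))
  · intro i j hij
    refine (ha i i.isLt).2.2 (a j) (ha j j.isLt).1 fun hmem => h1 j ?_
    exact greedy_sp_mono a hij hmem

end BMF
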