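import Pool.Agent.Lib.MP_a325a5_ag.S.Close

/-! Lemma 3.3, by induction on r (generalising D).  r = 0: exists_close.  r + 1: take the close pair i ≠ j, κ = componentwise minimum of θ_i, θ_j; the polynomial
P(X) := p_i ∏((X-α_l)/(t-α_l))^(θ_il-κ_l) + p_j ∏((X-α_l)/(t-α_l))^(θ_jl-κ_l) (exponents natural numbers ≤ cr) has tp t P * U^κ = the sum of the two terms (uu_nat), it is nonzero (no vanishing
subsum) of degree ≤ D + 3 cr.  Apply the induction hypothesis to the r + 2 terms (reindex: remove j, replace i); subsums of the new family are subsums of the old one. -/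

open NumberField

namespace BMF

private theorem allc_close_J {Ω ι : Type} [Field Ω] [CharZero Ω] [Fintype ι] [DecidableEq ι]
    [Nonempty ι] (hι : Fintype.card ι ≤ 3) (α : ι → Ω)
    (hα : Function.Injective α) (t : Ω) (ht : ∀ j, t ≠ α j) (r D : ℕ) {J : Type} [Fintype J]
    (hJ : Fintype.card J = r + 2)
    (p : J → Polynomial Ω) (hp : ∀ i, p i ≠ 0) (hd : ∀ i, (p i).natDegree ≤ D)
    (θ : J → ι → ℚ) (h : ∑ i, tp t (p i) * uu α t (θ i) = 0) :
    ∃ i j, i ≠ j ∧ ∀ l, ∃ m : ℤ, θ i l - θ j l = m ∧ |m| ≤ cr r D := by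
  have e : Fin (r + 2) ≃ J := (Fintype.equivFinOfCardEq hJ).symm
  obtain ⟨i, j, hij, h1⟩ := exists_close hι α hα t ht r D (fun i => p (e i)) (fun i => hp _)
    (fun i => hd _) (fun i => θ (e i)) (by
      rw [← h]; exact Equiv.sum_comp e (fun i => tp t (p i) * uu α t (θ i)))
  exact ⟨e i, e j, fun hh => hij (e.injective hh), h1⟩

private noncomputable def allcM {Ω ι : Type} [Field Ω] [Fintype ι] (α : ι → Ω) (t : Ω)
    (n : ι → ℕ) : Polynomial Ω :=
  Polynomial.C (∏ j, (t - α j) ^ n j)⁻¹ * ∏ j, (Polynomial.X - Polynomial.C (α j)) ^ n j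

private theorem allcM_tp {Ω ι : Type} [Field Ω] [CharZero Ω] [Fintype ι] (α : ι → Ω) (t : Ω)
    (ht : ∀ j, t ≠ α j) (n : ι → ℕ) :
    tp t (allcM α t n) = uu α t (fun j => (n j : ℚ)) := by
  have h0 : (∏ j, (t - α j) ^ n j) ≠ 0 :=
    Finset.prod_ne_zero_iff.2 fun j _ => pow_ne_zero _ (sub_ne_zero.2 (ht j))
  rw [allcM, map_mul, tp_C, uu_nat _ _ ht, ← mul_assoc, ← map_mul, inv_mul_cancel₀ h0, map_one,
    one_mul]

private theorem allcM_deg {Ω ι : Type} [Field Ω] [Fintype ι] (α : ι → Ω) (t : Ω)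
    (n : ι → ℕ) (c : ℕ) (hι : Fintype.card ι ≤ 3) (hn : ∀ j, n j ≤ c) :
    (allcM α t n).natDegree ≤ 3 * c := by
  unfold allcM
  refine (Polynomial.natDegree_C_mul_le _ _).trans ?_
  refine (Polynomial.natDegree_prod_le _ _).trans ?_
  calc ∑ i, ((Polynomial.X - Polynomial.C (α i)) ^ n i).natDegree
      ≤ ∑ _i : ι, c := by
        refine Finset.sum_le_sum fun i _ => ?_
        refine (Polynomial.natDegree_pow_le).trans ?_
        rw [Polynomial.natDegree_X_sub_C, mul_one]
        exact hn i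
    _ = Fintype.card ι * c := by simp
    _ ≤ 3 * c := Nat.mul_le_mul_right _ hι

private theorem allc_split {θ1 θ2 : ℚ} {m : ℤ} {c : ℕ} (h : θ1 - θ2 = m) (hm : |m| ≤ (c : ℤ)) :
    ∃ a b : ℕ, a ≤ c ∧ b ≤ c ∧ θ1 = min θ1 θ2 + a ∧ θ2 = min θ1 θ2 + b := by
  rcases le_total θ1 θ2 with hle | hle
  · refine ⟨0, m.natAbs, Nat.zero_le _, ?_, ?_, ?_⟩
    · have := Int.natCast_natAbs m
      omega
    · rw [min_eq_left hle]; simp
    · rw [min_eq_left hle]
      have hm0 : m ≤ 0 := by
        have : (m : ℚ) ≤ 0 := by rw [← h]; linarith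
        exact_mod_cast this
      have h3 : ((m.natAbs : ℕ) : ℚ) = -(m : ℚ) := by
        rw [Nat.cast_natAbs, abs_of_nonpos hm0, Int.cast_neg]
      rw [h3, ← h]; ring
  · refine ⟨m.natAbs, 0, ?_, Nat.zero_le _, ?_, ?_⟩
    · have := Int.natCast_natAbs m
      omega
    · rw [min_eq_right hle]
      have hm0 : 0 ≤ m := by
        have : (0 : ℚ) ≤ m := by rw [← h]; linarith
        exact_mod_cast this
      have h3 : ((m.natAbs : ℕ) : ℚ) = (m : ℚ) := by
        rw [Nat.cast_natAbs, abs_of_nonneg hm0]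
      rw [h3, ← h]; ring
    · rw [min_eq_right hle]; simp

private theorem allc_J (r : ℕ) : ∀ D : ℕ, ∃ C : ℕ, ∀ (Ω ι J : Type) [Field Ω] [CharZero Ω]
    [Fintype ι] [DecidableEq ι] [Nonempty ι] [Fintype J] [DecidableEq J],
    Fintype.card ι ≤ 3 → Fintype.card J = r + 2 → ∀ (α : ι → Ω), Function.Injective α →
    ∀ (t : Ω), (∀ j, t ≠ α j) → ∀ (p : J → Polynomial Ω), (∀ i, p i ≠ 0) →
    (∀ i, (p i).natDegree ≤ D) → ∀ θ : J → ι → ℚ,
    ∑ i, tp t (p i) * uu α t (θ i) = 0 →
    (∀ I : Finset J, I.Nonempty → I ≠ Finset.univ →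
      ∑ i ∈ I, tp t (p i) * uu α t (θ i) ≠ 0) →
    ∀ i j l, ∃ m : ℤ, θ i l - θ j l = m ∧ |m| ≤ C := by
  induction r with
  | zero =>
    intro D
    refine ⟨cr 0 D, ?_⟩
    intro Ω ι J _ _ _ _ _ _ _ hι hJ α hα t ht p hp hd θ h _ i j l
    obtain ⟨i0, j0, hij, h1⟩ := allc_close_J hι α hα t ht 0 D hJ p hp hd θ h
    have hall : ∀ x : J, x = i0 ∨ x = j0 := by
      intro x
      by_contra hx
      push Not at hx
      have hc : ({x, i0, j0} : Finset J).card = 3 := Finset.card_eq_three.2
        ⟨x, i0, j0, hx.1, hx.2, hij, rfl⟩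
      have := Finset.card_le_univ ({x, i0, j0} : Finset J)
      omega
    obtain ⟨m, hm, hmc⟩ := h1 l
    rcases hall i with rfl | rfl <;> rcases hall j with rfl | rfl
    · exact ⟨0, by simp, by simp⟩
    · exact ⟨m, hm, hmc⟩
    · refine ⟨-m, ?_, by rwa [abs_neg]⟩
      push_cast
      rw [← hm]; ring
    · exact ⟨0, by simp, by simp⟩
  | succ r ih =>
    intro D
    set c := cr (r + 1) D with hc
    obtain ⟨C', hC'⟩ := ih (D + 3 * c)
    refine ⟨C' + 2 * c, ?_⟩
    intro Ω ι J _ _ _ _ _ _ _ hι hJ α hα t ht p hp hd θ h hsub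
    obtain ⟨i0, j0, hij, h1⟩ := allc_close_J hι α hα t ht (r + 1) D hJ p hp hd θ h
    have h2 : ∀ l, ∃ a b : ℕ, a ≤ c ∧ b ≤ c ∧ θ i0 l = min (θ i0 l) (θ j0 l) + a ∧
        θ j0 l = min (θ i0 l) (θ j0 l) + b := by
      intro l
      obtain ⟨m, hm, hmc⟩ := h1 l
      exact allc_split hm hmc
    choose a b ha hb hθi hθj using h2
    set κ : ι → ℚ := fun l => min (θ i0 l) (θ j0 l) with hκ
    have hθi' : θ i0 = (fun l => (a l : ℚ)) + κ := by
      funext l; rw [Pi.add_apply, add_comm]; exact hθi l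
    have hθj' : θ j0 = (fun l => (b l : ℚ)) + κ := by
      funext l; rw [Pi.add_apply, add_comm]; exact hθj l
    set P : Polynomial Ω := p i0 * allcM α t a + p j0 * allcM α t b with hP
    have hPsum : tp t P * uu α t κ = tp t (p i0) * uu α t (θ i0) + tp t (p j0) * uu α t (θ j0) := by
      rw [hP, map_add, map_mul, map_mul, allcM_tp α t ht, allcM_tp α t ht, hθi', hθj', uu_add,
        uu_add]
      ring
    have hcardJ : 3 ≤ Fintype.card J := by omega
    have hP0 : P ≠ 0 := by
      intro h0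
      have h3 := hsub {i0, j0} ⟨i0, by simp⟩ (by
        intro hu
        have h4 : ({i0, j0} : Finset J).card = Fintype.card J := by rw [hu]; rfl
        have h5 := Finset.card_le_two (a := i0) (b := j0)
        omega)
      rw [Finset.sum_pair hij, ← hPsum, h0, map_zero, zero_mul] at h3
      exact h3 rfl
    have hPd : P.natDegree ≤ D + 3 * c := by
      refine (Polynomial.natDegree_add_le _ _).trans (max_le ?_ ?_)
      · exact (Polynomial.natDegree_mul_le).trans (Nat.add_le_add (hd _)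
          (allcM_deg α t a c hι ha))
      · exact (Polynomial.natDegree_mul_le).trans (Nat.add_le_add (hd _)
          (allcM_deg α t b c hι hb))
    -- the new family
    let J' : Type := {x : J // x ≠ j0}
    let p' : J' → Polynomial Ω := fun x => if x.1 = i0 then P else p x.1
    let θ' : J' → ι → ℚ := fun x => if x.1 = i0 then κ else θ x.1
    have hJ' : Fintype.card J' = r + 2 := by
      have : Fintype.card J' = Fintype.card J - 1 := by
        simp only [J', ne_eq, Fintype.card_subtype_compl, Fintype.card_unique]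
      omega
    -- transfer of subsums
    have htr : ∀ I : Finset J', ∃ K : Finset J, (∀ x : J', x ∈ I ↔ x.1 ∈ K) ∧
        (j0 ∈ K ↔ i0 ∈ K) ∧
        ∑ i ∈ I, tp t (p' i) * uu α t (θ' i) = ∑ i ∈ K, tp t (p i) * uu α t (θ i) := by
      intro I
      set K0 : Finset J := I.map (Function.Embedding.subtype _) with hK0
      have hj0K : j0 ∉ K0 := by
        rw [hK0, Finset.mem_map]
        rintro ⟨x, _, hx⟩
        exact x.2 hx
      have hmem : ∀ x : J', x ∈ I ↔ x.1 ∈ K0 := by
        intro x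
        rw [hK0, Finset.mem_map]
        constructor
        · intro hx
          exact ⟨x, hx, rfl⟩
        · rintro ⟨y, hy, hxy⟩
          have : y = x := Subtype.ext hxy
          rwa [← this]
      have hsum0 : ∑ i ∈ I, tp t (p' i) * uu α t (θ' i) =
          ∑ i ∈ K0, tp t (if i = i0 then P else p i) * uu α t (if i = i0 then κ else θ i) := by
        rw [hK0, Finset.sum_map]
        rfl
      by_cases hi : i0 ∈ K0
      · refine ⟨insert j0 K0, ?_, ?_, ?_⟩
        · intro x
          rw [hmem x, Finset.mem_insert]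
          constructor
          · exact Or.inr
          · rintro (hx | hx)
            · exact absurd hx x.2
            · exact hx
        · simp [hi]
        · rw [hsum0, Finset.sum_insert hj0K, ← Finset.add_sum_erase _ _ hi,
            ← Finset.add_sum_erase K0 _ hi, if_pos rfl, if_pos rfl, hPsum]
          have h6 : ∑ i ∈ K0.erase i0, tp t (if i = i0 then P else p i) *
              uu α t (if i = i0 then κ else θ i) =
              ∑ i ∈ K0.erase i0, tp t (p i) * uu α t (θ i) := by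
            refine Finset.sum_congr rfl fun i hi' => ?_
            have h7 : i ≠ i0 := (Finset.mem_erase.1 hi').1
            rw [if_neg h7, if_neg h7]
          rw [h6]
          ring
      · refine ⟨K0, hmem, ⟨fun hh => absurd hh hj0K, fun hh => absurd hh hi⟩, ?_⟩
        rw [hsum0]
        refine Finset.sum_congr rfl fun i hi' => ?_
        have h7 : i ≠ i0 := fun hh => hi (hh ▸ hi')
        rw [if_neg h7, if_neg h7]
    have hi0' : i0 ≠ j0 := hij
    have key := hC' Ω ι J' hι hJ' α hα t ht p' (by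
        intro x
        by_cases hx : x.1 = i0
        · simp only [p', if_pos hx]; exact hP0
        · simp only [p', if_neg hx]; exact hp _) (by
        intro x
        by_cases hx : x.1 = i0
        · simp only [p', if_pos hx]; exact hPd
        · simp only [p', if_neg hx]; exact (hd _).trans (Nat.le_add_right _ _)) θ' (by
        obtain ⟨K, hK1, hK2, hK3⟩ := htr Finset.univ
        rw [hK3, ← h]
        have hKu : K = Finset.univ := by
          ext x
          simp only [Finset.mem_univ, iff_true]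
          by_cases hx : x = j0
          · rw [hx, hK2]
            exact (hK1 ⟨i0, hi0'⟩).1 (Finset.mem_univ _)
          · exact (hK1 ⟨x, hx⟩).1 (Finset.mem_univ _)
        rw [hKu]) (by
        intro I hI hIu
        obtain ⟨K, hK1, hK2, hK3⟩ := htr I
        rw [hK3]
        obtain ⟨x, hx⟩ := hI
        refine hsub K ⟨x.1, (hK1 x).1 hx⟩ ?_
        intro hKu
        apply hIu
        ext y
        simp only [Finset.mem_univ, iff_true]
        rw [hK1 y, hKu]
        exact Finset.mem_univ _)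
    -- every θ x is θ' (π x) plus a natural number
    have hrep : ∀ x : J, ∃ y : J', ∀ l, ∃ n : ℕ, n ≤ c ∧ θ x l = θ' y l + n := by
      intro x
      by_cases hx : x = j0
      · refine ⟨⟨i0, hi0'⟩, fun l => ⟨b l, hb l, ?_⟩⟩
        simp only [θ', if_true]
        rw [hx]
        exact hθj l
      · by_cases hx2 : x = i0
        · refine ⟨⟨i0, hi0'⟩, fun l => ⟨a l, ha l, ?_⟩⟩
          simp only [θ', if_true]
          rw [hx2]
          exact hθi l
        · refine ⟨⟨x, hx⟩, fun l => ⟨0, Nat.zero_le _, ?_⟩⟩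
          simp only [θ', if_neg hx2]
          simp
    intro i j l
    obtain ⟨y1, hy1⟩ := hrep i
    obtain ⟨y2, hy2⟩ := hrep j
    obtain ⟨n1, hn1, hn1'⟩ := hy1 l
    obtain ⟨n2, hn2, hn2'⟩ := hy2 l
    obtain ⟨m, hm, hmc⟩ := key y1 y2 l
    refine ⟨m + n1 - n2, ?_, ?_⟩
    · rw [hn1', hn2']
      push_cast
      rw [← hm]; ring
    · rw [abs_le] at hmc ⊢
      push_cast at hmc ⊢
      constructor <;> omega

theorem all_close (r D : ℕ) : ∃ C : ℕ, ∀ (Ω ι : Type) [Field Ω] [CharZero Ω] [Fintype ι]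
    [DecidableEq ι] [Nonempty ι], Fintype.card ι ≤ 3 → ∀ (α : ι → Ω), Function.Injective α →
    ∀ (t : Ω), (∀ j, t ≠ α j) → ∀ (p : Fin (r + 2) → Polynomial Ω), (∀ i, p i ≠ 0) →
    (∀ i, (p i).natDegree ≤ D) → ∀ θ : Fin (r + 2) → ι → ℚ,
    ∑ i, tp t (p i) * uu α t (θ i) = 0 →
    (∀ I : Finset (Fin (r + 2)), I.Nonempty → I ≠ Finset.univ →
      ∑ i ∈ I, tp t (p i) * uu α t (θ i) ≠ 0) →
    ∀ i j l, ∃ m : ℤ, θ i l - θ j l = m ∧ |m| ≤ C := by
  obtain ⟨C, hC⟩ := allc_J r D
  refine ⟨C, ?_⟩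
  intro Ω ι _ _ _ _ _ hι α hα t ht p hp hd θ h hsub
  exact hC Ω ι (Fin (r + 2)) hι (Fintype.card_fin _) α hα t ht p hp hd θ h hsub

end BMF
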