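import Pool.Agent.Lib.MP_a325a5_ag.S.Uu

/-! 5.2.  gen_rel: the scalars: ∏ (t-α)^(m+a) z^(u+b) = ∏ (t-α)^m z^u ∏ γ^(-a) by Rl; the exponents of uu agree.  gen_relN: apply gen_rel to ∑ x_l (a_l, b_l), which is again a relation. -/

open NumberField

namespace BMF

section
variable {L F : Type} [Field L] [Field F] [CharZero F] [Algebra L F]

theorem gen_const (α : Fin 3 → L) {n : ℕ} (t : F) (z : Fin (n + 1) → F)
    (θ : Fin n → Fin 3 → ℚ) (m : Fin 3 → ℤ) (u : Fin n → ℤ) (i : ℕ) :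
    PowerSeries.constantCoeff (gen α t z θ m u i) =
      (∏ j, (t - algebraMap L F (α j)) ^ m j) * (∏ i : Fin n, z i.succ ^ u i) * t ^ i := by
  unfold gen
  rw [map_mul, map_mul, uu_const, mul_one, map_pow, map_add, PowerSeries.constantCoeff_X,
    zero_add, PowerSeries.constantCoeff_C, PowerSeries.constantCoeff_C]

private theorem GenR_tx {n : ℕ} (θ : Fin n → Fin 3 → ℚ) (u v : Fin n → ℤ) (j : Fin 3) :
    tx θ (u + v) j = tx θ u j + tx θ v j := by
  unfold tx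
  rw [← Finset.sum_add_distrib]
  refine Finset.sum_congr rfl fun i _ => ?_
  rw [Pi.add_apply, Int.cast_add, add_mul]

private theorem GenR_tx_sum {n : ℕ} (θ : Fin n → Fin 3 → ℚ) (b : Fin n → Fin n → ℤ)
    (x : Fin n → ℤ) (j : Fin 3) :
    tx θ (∑ l, x l • b l) j = ∑ l, (x l : ℚ) * tx θ (b l) j := by
  unfold tx
  have h1 : ∀ i : Fin n, (((∑ l, x l • b l) i : ℤ) : ℚ) * θ i j =
      ∑ l, (x l : ℚ) * ((b l i : ℚ) * θ i j) := by
    intro i
    rw [Finset.sum_apply, Int.cast_sum, Finset.sum_mul]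
    refine Finset.sum_congr rfl fun l _ => ?_
    rw [Pi.smul_apply, smul_eq_mul, Int.cast_mul, mul_assoc]
  rw [Finset.sum_congr rfl fun i _ => h1 i, Finset.sum_comm]
  refine Finset.sum_congr rfl fun l _ => ?_
  rw [Finset.mul_sum]

theorem gen_rel (α γ : Fin 3 → L) (hγ : ∀ j, γ j ≠ 0) {n : ℕ} (t : F) (z : Fin (n + 1) → F)
    (ht : ∀ j, t ≠ algebraMap L F (α j)) (hz : ∀ i, z i ≠ 0) (θ : Fin n → Fin 3 → ℚ)
    (a : Fin 3 → ℤ) (b : Fin n → ℤ) (h : Rl α γ t z a b) (hθ : ∀ j, tx θ b j = -(a j : ℚ))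
    (m : Fin 3 → ℤ) (u : Fin n → ℤ) (i : ℕ) :
    gen α t z θ (m + a) (u + b) i = (∏ j, γ j ^ (-a j)) • gen α t z θ m u i := by
  have ht' : ∀ j, t - algebraMap L F (α j) ≠ 0 := fun j => sub_ne_zero.2 (ht j)
  have hγ' : ∀ j, algebraMap L F (γ j) ≠ 0 := fun j =>
    (map_ne_zero (algebraMap L F)).2 (hγ j)
  have hexp : (fun j => (((m + a) j : ℤ) : ℚ) + tx θ (u + b) j) =
      fun j => (m j : ℚ) + tx θ u j := by
    funext j
    rw [GenR_tx, hθ j, Pi.add_apply, Int.cast_add]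
    ring
  have h1 : (∏ j, (t - algebraMap L F (α j)) ^ (m + a) j) =
      (∏ j, (t - algebraMap L F (α j)) ^ m j) * ∏ j, (t - algebraMap L F (α j)) ^ a j := by
    rw [← Finset.prod_mul_distrib]
    exact Finset.prod_congr rfl fun j _ => zpow_add₀ (ht' j) _ _
  have h2 : (∏ i : Fin n, z i.succ ^ (u + b) i) =
      (∏ i : Fin n, z i.succ ^ u i) * ∏ i : Fin n, z i.succ ^ b i := by
    rw [← Finset.prod_mul_distrib]
    exact Finset.prod_congr rfl fun j _ => zpow_add₀ (hz _) _ _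
  have h3 : (∏ j, (t - algebraMap L F (α j)) ^ a j) * ∏ i : Fin n, z i.succ ^ b i =
      algebraMap L F (∏ j, γ j ^ (-a j)) := by
    have h4 : (∏ j, algebraMap L F (γ j) ^ a j) * ((∏ j, (t - algebraMap L F (α j)) ^ a j) *
        ∏ i : Fin n, z i.succ ^ b i) = 1 := by
      rw [← mul_assoc, ← Finset.prod_mul_distrib]
      have h5 := h
      unfold Rl cc at h5
      rw [← h5]
      refine congrArg (· * _) (Finset.prod_congr rfl fun j _ => ?_)
      exact (mul_zpow _ _ _).symm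
    have h6 : algebraMap L F (∏ j, γ j ^ (-a j)) = (∏ j, algebraMap L F (γ j) ^ a j)⁻¹ := by
      rw [map_prod, ← Finset.prod_inv_distrib]
      refine Finset.prod_congr rfl fun j _ => ?_
      rw [map_zpow₀, zpow_neg]
    rw [h6]
    exact eq_inv_of_mul_eq_one_right h4
  unfold gen
  rw [hexp, h1, h2]
  have h7 : (∏ j, (t - algebraMap L F (α j)) ^ m j) * (∏ j, (t - algebraMap L F (α j)) ^ a j) *
      ((∏ i : Fin n, z i.succ ^ u i) * ∏ i : Fin n, z i.succ ^ b i) =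
      algebraMap L F (∏ j, γ j ^ (-a j)) *
        ((∏ j, (t - algebraMap L F (α j)) ^ m j) * ∏ i : Fin n, z i.succ ^ u i) := by
    rw [← h3]
    ring
  rw [h7, Algebra.smul_def, PowerSeries.algebraMap_apply, map_mul, mul_assoc, mul_assoc,
    mul_assoc]

theorem gen_relN (α γ : Fin 3 → L) (hγ : ∀ j, γ j ≠ 0) {n : ℕ} (t : F) (z : Fin (n + 1) → F)
    (ht : ∀ j, t ≠ algebraMap L F (α j)) (hz : ∀ i, z i ≠ 0) (θ : Fin n → Fin 3 → ℚ)
    (a : Fin n → Fin 3 → ℤ) (b : Fin n → Fin n → ℤ) (h : ∀ l, Rl α γ t z (a l) (b l))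
    (hθ : ∀ l j, tx θ (b l) j = -(a l j : ℚ)) (x : Fin n → ℤ) (u : Fin n → ℤ) :
    ∃ c : L, (∀ (m : Fin 3 → ℤ) (i : ℕ),
      gen α t z θ (m + ∑ l, x l • a l) (u + ∑ l, x l • b l) i = c • gen α t z θ m u i) ∧
      ∀ (m : Fin 3 → ℤ) (j : Fin 3), ((m + ∑ l, x l • a l) j : ℚ) + tx θ (u + ∑ l, x l • b l) j =
        (m j : ℚ) + tx θ u j := by
  have hcc : ∀ j, cc α γ t j ≠ 0 := fun j =>
    mul_ne_zero ((map_ne_zero (algebraMap L F)).2 (hγ j)) (sub_ne_zero.2 (ht j))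
  have hA : ∀ j, (∑ l, x l • a l) j = ∑ l, x l * a l j := by
    intro j
    rw [Finset.sum_apply]
    exact Finset.sum_congr rfl fun l _ => by rw [Pi.smul_apply, smul_eq_mul]
  have hB : ∀ j, (∑ l, x l • b l) j = ∑ l, x l * b l j := by
    intro j
    rw [Finset.sum_apply]
    exact Finset.sum_congr rfl fun l _ => by rw [Pi.smul_apply, smul_eq_mul]
  have hzp : ∀ (c : F) (hc : c ≠ 0) (e : Fin n → ℤ), c ^ (∑ l, e l) = ∏ l, c ^ e l := by
    intro c hc e
    have : ∀ s : Finset (Fin n), c ^ (∑ l ∈ s, e l) = ∏ l ∈ s, c ^ e l := by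
      intro s
      induction s using Finset.induction_on with
      | empty => simp
      | insert a s ha ih => rw [Finset.sum_insert ha, Finset.prod_insert ha, zpow_add₀ hc, ih]
    exact this _
  have hRl : Rl α γ t z (∑ l, x l • a l) (∑ l, x l • b l) := by
    unfold Rl
    have h1 : (∏ j, cc α γ t j ^ (∑ l, x l • a l) j) = ∏ l, (∏ j, cc α γ t j ^ a l j) ^ x l := by
      rw [Finset.prod_congr rfl fun j _ => by
        rw [hA j, hzp _ (hcc j)], Finset.prod_comm]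
      refine Finset.prod_congr rfl fun l _ => ?_
      rw [← Finset.prod_zpow]
      exact Finset.prod_congr rfl fun j _ => by rw [mul_comm, zpow_mul]
    have h2 : (∏ i : Fin n, z i.succ ^ (∑ l, x l • b l) i) =
        ∏ l, (∏ i : Fin n, z i.succ ^ b l i) ^ x l := by
      rw [Finset.prod_congr rfl fun j _ => by
        rw [hB j, hzp _ (hz _)], Finset.prod_comm]
      refine Finset.prod_congr rfl fun l _ => ?_
      rw [← Finset.prod_zpow]
      exact Finset.prod_congr rfl fun j _ => by rw [mul_comm, zpow_mul]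
    rw [h1, h2, ← Finset.prod_mul_distrib]
    refine Finset.prod_eq_one fun l _ => ?_
    rw [← mul_zpow]
    have h3 := h l
    unfold Rl at h3
    rw [h3, one_zpow]
  have hθ' : ∀ j, tx θ (∑ l, x l • b l) j = -(((∑ l, x l • a l) j : ℤ) : ℚ) := by
    intro j
    rw [GenR_tx_sum, hA j, Int.cast_sum, ← Finset.sum_neg_distrib]
    refine Finset.sum_congr rfl fun l _ => ?_
    rw [hθ l j, Int.cast_mul]
    ring
  refine ⟨∏ j, γ j ^ (-(∑ l, x l • a l) j), fun m i => ?_, fun m j => ?_⟩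
  · exact gen_rel α γ hγ t z ht hz θ _ _ hRl hθ' m u i
  · rw [GenR_tx, hθ' j, Pi.add_apply, Int.cast_add]
    ring

end

end BMF
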