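import Pool.Agent.Lib.MP_a325a5_ag.S.BaFix
import Pool.Agent.Lib.MP_a325a5_ag.S.GenR

/-! Every generator gen m u i of BA is an L-multiple of a generator with u in R (gen_relN), so BA ≤ the sum over u in R of the spaces of BA_fix. -/

open NumberField

namespace BMF

private theorem baDim_sup {L V : Type} [Field L] [AddCommGroup V] [Module L V] {ι : Type}
    (s : ι → Submodule L V) (d : ℕ)
    (hf : ∀ i, FiniteDimensional L (s i)) (hs : ∀ i, Module.finrank L (s i) ≤ d) (R : Finset ι) :
    FiniteDimensional L (R.sup s : Submodule L V) ∧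
      Module.finrank L (R.sup s : Submodule L V) ≤ R.card * d := by
  classical
  induction R using Finset.induction_on with
  | empty =>
    rw [Finset.sup_empty]
    refine ⟨inferInstance, ?_⟩
    simp
  | insert a R ha ih =>
    haveI := ih.1
    haveI := hf a
    rw [Finset.sup_insert]
    refine ⟨inferInstance, ?_⟩
    refine (Submodule.finrank_add_le_finrank_add_finrank _ _).trans ?_
    rw [Finset.card_insert_of_notMem ha]
    have := hs a
    have := ih.2
    linarith

theorem BA_dim {L F : Type} [Field L] [Field F] [CharZero F] [Algebra L F]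
    (α γ : Fin 3 → L) (hγ : ∀ j, γ j ≠ 0) {n : ℕ} (t : F) (z : Fin (n + 1) → F)
    (ht : ∀ j, t ≠ algebraMap L F (α j)) (hz : ∀ i, z i ≠ 0) (θ : Fin n → Fin 3 → ℚ)
    (a : Fin n → Fin 3 → ℤ) (b : Fin n → Fin n → ℤ) (h : ∀ l, Rl α γ t z (a l) (b l))
    (hθ : ∀ l j, tx θ (b l) j = -(a l j : ℚ)) (R : Finset (Fin n → ℤ))
    (hR : ∀ u : Fin n → ℤ, ∃ u₀ ∈ R, ∃ x : Fin n → ℤ, u = u₀ + ∑ l, x l • b l) (k : ℕ) :
    FiniteDimensional L (BA α t z θ k) ∧
      Module.finrank L (BA α t z θ k) ≤ R.card * (4 * k + 1) := by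
  classical
  choose s hs1 hs2 hs3 using fun u => BA_fix α t z ht θ u k
  have hsup := baDim_sup s (4 * k + 1) hs1 hs2 R
  have hle : BA α t z θ k ≤ R.sup s := by
    unfold BA
    rw [Submodule.span_le]
    rintro g ⟨m, u, i, hm, hi, rfl⟩
    obtain ⟨u₀, hu₀, x, rfl⟩ := hR u
    obtain ⟨c, hc1, hc2⟩ := gen_relN α γ hγ t z ht hz θ a b h hθ x u₀
    have e1 := hc1 (m - ∑ l, x l • a l) i
    rw [sub_add_cancel] at e1
    have e2 : ∀ j, (m j : ℚ) + tx θ (u₀ + ∑ l, x l • b l) j =
        ((m - ∑ l, x l • a l) j : ℚ) + tx θ u₀ j := by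
      intro j
      have := hc2 (m - ∑ l, x l • a l) j
      rw [sub_add_cancel] at this
      exact this
    rw [SetLike.mem_coe, e1]
    apply Submodule.smul_mem
    have h1 : gen α t z θ (m - ∑ l, x l • a l) u₀ i ∈ s u₀ := by
      apply hs3
      · intro j
        rw [← e2]
        exact hm j
      · have : ∑ j, (((m - ∑ l, x l • a l) j : ℚ) + tx θ u₀ j) =
            ∑ j, ((m j : ℚ) + tx θ (u₀ + ∑ l, x l • b l) j) :=
          Finset.sum_congr rfl fun j _ => (e2 j).symm
        rw [this]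
        exact hi
    exact (Finset.le_sup (f := s) hu₀) h1
  haveI := hsup.1
  exact ⟨Submodule.finiteDimensional_of_le hle, (Submodule.finrank_mono hle).trans hsup.2⟩

end BMF
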