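import Pool.Agent.Lib.MP_a325a5_ag.S.GenR

/-! F = L[t, z] is the L-span of the monomials t^i z^u (u natural exponents; adjoin = Algebra.adjoin as F is algebraic), finite dimensional, so finitely many monomials span; gen 0 u i has this
constant coefficient and lies in BA for k ≥ |tx θ u j|, i + ∑ |tx θ u j|.  BA is increasing in k. -/

open NumberField

namespace BMF

private theorem baEv_mono {L F : Type} [Field L] [Field F] [CharZero F] [Algebra L F]
    (α : Fin 3 → L) {n : ℕ} (t : F) (z : Fin (n + 1) → F) (θ : Fin n → Fin 3 → ℚ) :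
    Monotone (BA α t z θ) := by
  intro k k' hk
  apply Submodule.span_mono
  rintro g ⟨m, u, i, hm, hi, rfl⟩
  have hk' : (k : ℚ) ≤ k' := by exact_mod_cast hk
  exact ⟨m, u, i, fun j => by have := hm j; linarith, by linarith, rfl⟩

private theorem baEv_gen {L F : Type} [Field L] [Field F] [CharZero F] [Algebra L F]
    (α : Fin 3 → L) {n : ℕ} (t : F) (z : Fin (n + 1) → F) (θ : Fin n → Fin 3 → ℚ)
    (u : Fin n → ℤ) (i : ℕ) : ∃ k, gen α t z θ 0 u i ∈ BA α t z θ k := by
  obtain ⟨k, hk⟩ := exists_nat_ge (i + ∑ j, |tx θ u j|)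
  refine ⟨k, Submodule.subset_span ⟨0, u, i, fun j => ?_, ?_, rfl⟩⟩
  · have h1 : |tx θ u j| ≤ ∑ j, |tx θ u j| :=
      Finset.single_le_sum (f := fun j => |tx θ u j|) (fun _ _ => abs_nonneg _) (Finset.mem_univ j)
    have h2 := neg_abs_le (tx θ u j)
    have h3 : (0 : ℚ) ≤ i := Nat.cast_nonneg _
    simp only [Pi.zero_apply, Int.cast_zero, zero_add]
    linarith
  · have h1 : ∑ j, ((((0 : Fin 3 → ℤ) j : ℤ) : ℚ) + tx θ u j) ≤ ∑ j, |tx θ u j| := by
      apply Finset.sum_le_sum
      intro j _
      simp only [Pi.zero_apply, Int.cast_zero, zero_add]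
      exact le_abs_self _
    linarith

theorem BA_ev {L F : Type} [Field L] [Field F] [CharZero F] [Algebra L F]
    [FiniteDimensional L F] (α : Fin 3 → L) {n : ℕ} (t : F) (z : Fin (n + 1) → F)
    (hz0 : z 0 = 1) (θ : Fin n → Fin 3 → ℚ)
    (hgen : IntermediateField.adjoin L ({t} ∪ Set.range z) = ⊤) :
    ∃ k₀ : ℕ, ∀ k ≥ k₀, ∀ x : F, ∃ g ∈ BA α t z θ k, PowerSeries.constantCoeff g = x := by
  let φ : PowerSeries F →ₗ[L] F := (PowerSeries.coeff (R := F) 0).restrictScalars L
  have hφ : ∀ g, φ g = PowerSeries.constantCoeff g := fun g => by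
    simp [φ]
  let S : ℕ →o Submodule L F :=
    { toFun := fun k => (BA α t z θ k).map φ
      monotone' := fun k k' hk => Submodule.map_mono (baEv_mono α t z θ hk) }
  obtain ⟨k₀, hk₀⟩ := monotone_stabilizes_iff_noetherian.mpr
    (inferInstance : IsNoetherian L F) S
  have hmon : ∀ x ∈ Submonoid.closure ({t} ∪ Set.range z), ∃ (u : Fin n → ℤ) (i : ℕ),
      (∀ j, 0 ≤ u j) ∧ x = (∏ i : Fin n, z i.succ ^ u i) * t ^ i := by
    intro x hx
    induction hx using Submonoid.closure_induction with
    | mem x hx =>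
      rcases hx with hx | ⟨i, rfl⟩
      · rw [Set.mem_singleton_iff] at hx
        subst hx
        exact ⟨0, 1, fun _ => le_rfl, by simp⟩
      · refine Fin.cases ?_ (fun i => ?_) i
        · exact ⟨0, 0, fun _ => le_rfl, by simp [hz0]⟩
        · refine ⟨Pi.single i 1, 0, fun j => ?_, ?_⟩
          · by_cases h : j = i
            · subst h; simp
            · simp [Pi.single_eq_of_ne h]
          · rw [pow_zero, mul_one, Finset.prod_eq_single i]
            · simp
            · intro j _ hj
              rw [Pi.single_eq_of_ne hj, zpow_zero]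
            · intro h; exact absurd (Finset.mem_univ i) h
    | one => exact ⟨0, 0, fun _ => le_rfl, by simp⟩
    | mul x y _ _ hx hy =>
      obtain ⟨u, i, hu, rfl⟩ := hx
      obtain ⟨v, k, hv, rfl⟩ := hy
      refine ⟨u + v, i + k, fun j => add_nonneg (hu j) (hv j), ?_⟩
      have h1 : ∏ i : Fin n, z i.succ ^ (u + v) i =
          (∏ i : Fin n, z i.succ ^ u i) * ∏ i : Fin n, z i.succ ^ v i := by
        rw [← Finset.prod_mul_distrib]
        apply Finset.prod_congr rfl
        intro i _
        obtain ⟨a, ha⟩ := Int.eq_ofNat_of_zero_le (hu i)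
        obtain ⟨b, hb⟩ := Int.eq_ofNat_of_zero_le (hv i)
        rw [Pi.add_apply, ha, hb]
        rw [← Nat.cast_add, zpow_natCast, zpow_natCast, zpow_natCast, pow_add]
      rw [h1, pow_add]
      ring
  have htop : ∀ x : F, ∃ k, x ∈ S k := by
    have hadj : Algebra.adjoin L ({t} ∪ Set.range z) = ⊤ := by
      have h1 := IntermediateField.adjoin_toSubalgebra_of_isAlgebraic (F := L) (E := F)
        (S := {t} ∪ Set.range z) fun x _ => Algebra.IsAlgebraic.isAlgebraic x
      rw [← h1, hgen, IntermediateField.top_toSubalgebra]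
    intro x
    have hx : x ∈ Submodule.span L (Submonoid.closure ({t} ∪ Set.range z) : Set F) := by
      rw [← Algebra.adjoin_eq_span, hadj]
      trivial
    induction hx using Submodule.span_induction with
    | mem x hx =>
      obtain ⟨u, i, -, rfl⟩ := hmon x hx
      obtain ⟨k, hk⟩ := baEv_gen α t z θ u i
      refine ⟨k, _, hk, ?_⟩
      rw [hφ, gen_const]
      simp
    | zero => exact ⟨0, Submodule.zero_mem _⟩
    | add x y _ _ hx hy =>
      obtain ⟨k, hk⟩ := hx
      obtain ⟨l, hl⟩ := hy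
      exact ⟨max k l, Submodule.add_mem _ (S.monotone (le_max_left k l) hk)
        (S.monotone (le_max_right k l) hl)⟩
    | smul c x _ hx =>
      obtain ⟨k, hk⟩ := hx
      exact ⟨k, Submodule.smul_mem _ _ hk⟩
  refine ⟨k₀, fun k hk x => ?_⟩
  obtain ⟨l, hl⟩ := htop x
  have h1 : x ∈ S k := by
    have h2 : x ∈ S (max l k) := S.monotone (le_max_left l k) hl
    have h3 : S k₀ = S (max l k) := hk₀ _ (hk.trans (le_max_right l k))
    have h4 : S k₀ = S k := hk₀ _ hk
    rw [← h4, h3]
    exact h2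
  obtain ⟨g, hg, hgx⟩ := h1
  exact ⟨g, hg, by rw [← hφ]; exact hgx⟩

end BMF
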