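import Pool.Agent.Lib.MP_a325a5_ag.S.Uu

/-! 5.2, fixed u.  m⁰_j := -⌊k + tx θ u j⌋, so m_j ≥ m⁰_j.  gen m u i = gen m⁰ u 0 * tp t (q), q = ∏ (X - α_j)^(m_j - m⁰_j) X^i in L[X] mapped to F, of degree ≤ 4k (uu_nat, uu_add).
s := image of the polynomials over L of degree < 4k+1 (Polynomial.degreeLT L (4k+1), finrank = 4k+1) under q ↦ gen m⁰ u 0 * tp t (q.map).  (If no (m,i) satisfies the conditions take s = ⊥.) -/

open NumberField

namespace BMF

private theorem baFix_smul {L F : Type} [Field L] [Field F] [Algebra L F] (c : L)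
    (g : PowerSeries F) : c • g = PowerSeries.C (algebraMap L F c) * g := by
  ext n
  rw [PowerSeries.coeff_C_mul, ← Algebra.smul_def]
  rfl

private theorem baFix_gen {L F : Type} [Field L] [Field F] [CharZero F] [Algebra L F]
    (α : Fin 3 → L) {n : ℕ} (t : F) (z : Fin (n + 1) → F) (ht : ∀ j, t ≠ algebraMap L F (α j))
    (θ : Fin n → Fin 3 → ℚ) (u : Fin n → ℤ) (m₀ : Fin 3 → ℤ) (e : Fin 3 → ℕ) (i : ℕ) :
    gen α t z θ (fun j => m₀ j + e j) u i = gen α t z θ m₀ u 0 *
      tp t (((∏ j, (Polynomial.X - Polynomial.C (α j)) ^ e j) * Polynomial.X ^ i).map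
        (algebraMap L F)) := by
  have h1 : ((∏ j, (Polynomial.X - Polynomial.C (α j)) ^ e j) * Polynomial.X ^ i).map
        (algebraMap L F) = (∏ j, (Polynomial.X - Polynomial.C (algebraMap L F (α j))) ^ e j) *
          Polynomial.X ^ i := by
    rw [Polynomial.map_mul, Polynomial.map_prod, Polynomial.map_pow, Polynomial.map_X]
    simp only [Polynomial.map_pow, Polynomial.map_sub, Polynomial.map_X, Polynomial.map_C]
  rw [h1, map_mul, map_pow, tp_X, uu_nat (fun j => algebraMap L F (α j)) t ht e]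
  unfold gen
  have h2 : (fun j => (((m₀ j + (e j : ℤ) : ℤ)) : ℚ) + tx θ u j) =
      (fun j => (m₀ j : ℚ) + tx θ u j) + fun j => (e j : ℚ) := by
    funext j
    simp only [Pi.add_apply]
    push_cast
    ring
  rw [h2, uu_add]
  have h3 : (∏ j, (t - algebraMap L F (α j)) ^ (m₀ j + (e j : ℤ))) =
      (∏ j, (t - algebraMap L F (α j)) ^ m₀ j) * ∏ j, (t - algebraMap L F (α j)) ^ e j := by
    rw [← Finset.prod_mul_distrib]
    apply Finset.prod_congr rfl
    intro j _
    rw [zpow_add₀ (sub_ne_zero.mpr (ht j)), zpow_natCast]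
  rw [h3]
  simp only [map_mul, pow_zero, mul_one]
  ring

theorem BA_fix {L F : Type} [Field L] [Field F] [CharZero F] [Algebra L F] (α : Fin 3 → L)
    {n : ℕ} (t : F) (z : Fin (n + 1) → F) (ht : ∀ j, t ≠ algebraMap L F (α j))
    (θ : Fin n → Fin 3 → ℚ) (u : Fin n → ℤ) (k : ℕ) :
    ∃ s : Submodule L (PowerSeries F), FiniteDimensional L s ∧ Module.finrank L s ≤ 4 * k + 1 ∧
      ∀ (m : Fin 3 → ℤ) (i : ℕ), (∀ j, -(k : ℚ) ≤ (m j : ℚ) + tx θ u j) →
        (i : ℚ) + ∑ j, ((m j : ℚ) + tx θ u j) ≤ k → gen α t z θ m u i ∈ s := by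
  set m₀ : Fin 3 → ℤ := fun j => -⌊(k : ℚ) + tx θ u j⌋ with hm₀
  let Φ : Polynomial L →ₗ[L] PowerSeries F :=
    { toFun := fun q => gen α t z θ m₀ u 0 * tp t (q.map (algebraMap L F))
      map_add' := fun p q => by
        rw [Polynomial.map_add, map_add, mul_add]
      map_smul' := fun c q => by
        rw [RingHom.id_apply, baFix_smul, Polynomial.smul_eq_C_mul, Polynomial.map_mul,
          Polynomial.map_C, map_mul, tp_C]
        ring }
  haveI hfd : FiniteDimensional L (Polynomial.degreeLT L (4 * k + 1)) :=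
    Module.Finite.equiv (Polynomial.degreeLTEquiv L (4 * k + 1)).symm
  refine ⟨(Polynomial.degreeLT L (4 * k + 1)).map Φ, inferInstance, ?_, ?_⟩
  · refine (Submodule.finrank_map_le Φ _).trans ?_
    rw [(Polynomial.degreeLTEquiv L (4 * k + 1)).finrank_eq, Module.finrank_fin_fun]
  · intro m i hm hi
    have hle : ∀ j, m₀ j ≤ m j := by
      intro j
      have h := hm j
      have h1 : -(m j : ℚ) ≤ (k : ℚ) + tx θ u j := by linarith
      have h2 : -(m j) ≤ ⌊(k : ℚ) + tx θ u j⌋ := by
        rw [Int.le_floor]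
        push_cast
        exact h1
      simp only [hm₀]
      omega
    set e : Fin 3 → ℕ := fun j => (m j - m₀ j).toNat with he
    have hme : m = fun j => m₀ j + (e j : ℤ) := by
      funext j
      have := hle j
      simp only [he]
      omega
    have hm₀k : ∀ j, -(k : ℚ) ≤ (m₀ j : ℚ) + tx θ u j := by
      intro j
      have := Int.floor_le ((k : ℚ) + tx θ u j)
      simp only [hm₀]
      push_cast
      linarith
    have hdeg : (∑ j, e j) + i ≤ 4 * k := by
      have h1 : (((∑ j, e j) + i : ℕ) : ℚ) ≤ ((4 * k : ℕ) : ℚ) := by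
        push_cast
        have h2 : ∀ j, (m j : ℚ) = (m₀ j : ℚ) + (e j : ℚ) := by
          intro j
          have := congrFun hme j
          rw [this]
          push_cast
          rfl
        simp only [Fin.sum_univ_three] at hi ⊢
        rw [h2 0, h2 1, h2 2] at hi
        have a0 := hm₀k 0
        have a1 := hm₀k 1
        have a2 := hm₀k 2
        linarith
      exact_mod_cast h1
    refine ⟨(∏ j, (Polynomial.X - Polynomial.C (α j)) ^ e j) * Polynomial.X ^ i, ?_, ?_⟩
    · show _ ∈ Polynomial.degreeLT L (4 * k + 1)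
      rw [Polynomial.mem_degreeLT]
      refine lt_of_le_of_lt Polynomial.degree_le_natDegree ?_
      have h1 : ((∏ j, (Polynomial.X - Polynomial.C (α j)) ^ e j) *
          Polynomial.X ^ i).natDegree ≤ (∑ j, e j) + i := by
        refine Polynomial.natDegree_mul_le.trans ?_
        refine add_le_add ?_ (by rw [Polynomial.natDegree_X_pow])
        refine (Polynomial.natDegree_prod_le _ _).trans (Finset.sum_le_sum fun j _ => ?_)
        refine Polynomial.natDegree_pow_le.trans ?_
        rw [Polynomial.natDegree_X_sub_C, mul_one]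
      have h2 : ((∏ j, (Polynomial.X - Polynomial.C (α j)) ^ e j) *
          Polynomial.X ^ i).natDegree < 4 * k + 1 := by omega
      exact_mod_cast h2
    · show gen α t z θ m₀ u 0 * tp t _ = gen α t z θ m u i
      rw [hme, baFix_gen α t z ht θ u m₀ e i]

end BMF
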