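import Pool.Agent.Lib.MP_a325a5_ag.S.Uu

/-! 5.2.  By linearity g = gen m u i.  The product of gen m u i with T^l z_i'(T) (z_i'(T) = C (z i') * uu (θ i')) is gen m (u + e_i') (i + l) (for i' = 0: gen m u (i+l)), the conditions change by at
most l + ∑_j |θ_i'j| ≤ C; the coefficients of f_i' are in L. -/

open NumberField

namespace BMF

private theorem baMul_smul {L F : Type} [Field L] [Field F] [Algebra L F] (c : L)
    (g : PowerSeries F) : c • g = PowerSeries.C (algebraMap L F c) * g := by
  ext n
  rw [PowerSeries.coeff_C_mul, ← Algebra.smul_def]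
  rfl

private theorem baMul_tp {L F : Type} [Field L] [Field F] [CharZero F] [Algebra L F] (t : F)
    (f : Polynomial L) : tp t (f.map (algebraMap L F)) =
      ∑ l ∈ Finset.range (f.natDegree + 1),
        PowerSeries.C (algebraMap L F (f.coeff l)) * (PowerSeries.X + PowerSeries.C t) ^ l := by
  conv_lhs => rw [f.as_sum_range_C_mul_X_pow]
  rw [Polynomial.map_sum, map_sum]
  apply Finset.sum_congr rfl
  intro l _
  rw [Polynomial.map_mul, Polynomial.map_pow, Polynomial.map_C, Polynomial.map_X, map_mul, map_pow,
    tp_X, tp_C]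

private theorem baMul_gen {L F : Type} [Field L] [Field F] [CharZero F] [Algebra L F]
    (α : Fin 3 → L) {n : ℕ} (t : F) (z : Fin (n + 1) → F) (hz : ∀ i, z i ≠ 0)
    (θ : Fin n → Fin 3 → ℚ) (m : Fin 3 → ℤ) (u : Fin n → ℤ) (i l : ℕ) (j : Fin n) :
    (PowerSeries.X + PowerSeries.C t) ^ l * (PowerSeries.C (z j.succ) *
      uu (fun j => algebraMap L F (α j)) t (θ j)) * gen α t z θ m u i =
      gen α t z θ m (u + Pi.single j 1) (i + l) := by
  unfold gen
  have h1 : (fun k => (m k : ℚ) + tx θ (u + Pi.single j 1) k) =
      θ j + fun k => (m k : ℚ) + tx θ u k := by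
    funext k
    simp only [Pi.add_apply, tx]
    have : ∑ i, (((u + Pi.single j 1 : Fin n → ℤ) i : ℤ) : ℚ) * θ i k =
        ∑ i, (u i : ℚ) * θ i k + θ j k := by
      have h2 : ∀ i, (((u + Pi.single j 1 : Fin n → ℤ) i : ℤ) : ℚ) * θ i k =
          (u i : ℚ) * θ i k + (if i = j then θ j k else 0) := by
        intro i
        by_cases hij : i = j
        · subst hij
          simp only [Pi.add_apply, Pi.single_eq_same, if_true]
          push_cast
          ring
        · simp only [Pi.add_apply, Pi.single_eq_of_ne hij, if_neg hij, add_zero]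
      simp only [h2]
      rw [Finset.sum_add_distrib, Finset.sum_ite_eq' Finset.univ j, if_pos (Finset.mem_univ j)]
    simp only [Pi.add_apply] at this
    rw [this]
    ring
  have h3 : ∏ i : Fin n, z i.succ ^ (u + Pi.single j 1 : Fin n → ℤ) i =
      z j.succ * ∏ i : Fin n, z i.succ ^ u i := by
    have h4 : ∀ i : Fin n, z i.succ ^ (u + Pi.single j 1 : Fin n → ℤ) i =
        (if i = j then z j.succ else 1) * z i.succ ^ u i := by
      intro i
      by_cases hij : i = j
      · subst hij
        rw [Pi.add_apply, Pi.single_eq_same, if_pos rfl, zpow_add₀ (hz _), zpow_one]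
        ring
      · rw [Pi.add_apply, Pi.single_eq_of_ne hij, if_neg hij, add_zero, one_mul]
    simp only [h4]
    rw [Finset.prod_mul_distrib, Finset.prod_ite_eq' Finset.univ j, if_pos (Finset.mem_univ j)]
  rw [h1, uu_add, h3, pow_add]
  simp only [map_mul]
  ring

theorem fbr_mul {L F : Type} [Field L] [Field F] [CharZero F] [Algebra L F] (α : Fin 3 → L)
    {n : ℕ} (f : Fin (n + 1) → Polynomial L) (t : F) (z : Fin (n + 1) → F)
    (ht : ∀ j, t ≠ algebraMap L F (α j)) (hz0 : z 0 = 1) (hz : ∀ i, z i ≠ 0)
    (θ : Fin n → Fin 3 → ℚ) (C : ℕ)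
    (hC : ∀ i, ((f i).natDegree : ℚ) + ∑ j, |(Fin.cons 0 θ : Fin (n + 1) → Fin 3 → ℚ) i j| ≤ C)
    (k : ℕ) (g : PowerSeries F) (hg : g ∈ BA α t z θ k) :
    fbr α f t z (Fin.cons 0 θ) * g ∈ BA α t z θ (k + C) := by
  unfold BA at hg
  induction hg using Submodule.span_induction with
  | mem g hg =>
    obtain ⟨m, u, i, hm, hi, rfl⟩ := hg
    unfold fbr
    rw [Finset.sum_mul]
    apply Submodule.sum_mem
    intro i' _
    rw [baMul_tp, Finset.sum_mul, Finset.sum_mul]
    apply Submodule.sum_mem
    intro l hl
    rw [Finset.mem_range] at hl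
    have hl' : (l : ℚ) ≤ (f i').natDegree := by
      have : l ≤ (f i').natDegree := by omega
      exact_mod_cast this
    have hCi := hC i'
    rw [mul_assoc, mul_assoc, ← baMul_smul]
    apply Submodule.smul_mem
    rcases Fin.eq_zero_or_eq_succ i' with rfl | ⟨j, rfl⟩
    · rw [hz0, map_one, one_mul, Fin.cons_zero, uu_zero, one_mul]
      rw [Fin.cons_zero] at hCi
      have hCi' : ((f 0).natDegree : ℚ) ≤ C := by
        simpa using hCi
      apply Submodule.subset_span
      refine ⟨m, u, i + l, fun j => ?_, ?_, ?_⟩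
      · have := hm j
        have h0 : (0 : ℚ) ≤ C := Nat.cast_nonneg _
        push_cast
        linarith
      · push_cast
        linarith
      · unfold gen
        rw [pow_add]
        ring
    · rw [Fin.cons_succ] at hCi ⊢
      rw [← mul_assoc, baMul_gen α t z hz]
      have htx : ∀ k, tx θ (u + Pi.single j 1) k = tx θ u k + θ j k := by
        intro k
        simp only [tx]
        have h2 : ∀ i, (((u + Pi.single j 1 : Fin n → ℤ) i : ℤ) : ℚ) * θ i k =
            (u i : ℚ) * θ i k + (if i = j then θ j k else 0) := by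
          intro i
          by_cases hij : i = j
          · subst hij
            simp only [Pi.add_apply, Pi.single_eq_same, if_true]
            push_cast
            ring
          · simp only [Pi.add_apply, Pi.single_eq_of_ne hij, if_neg hij, add_zero]
        simp only [h2]
        rw [Finset.sum_add_distrib, Finset.sum_ite_eq' Finset.univ j, if_pos (Finset.mem_univ j)]
      have hdeg : (0 : ℚ) ≤ (f j.succ).natDegree := Nat.cast_nonneg _
      apply Submodule.subset_span
      refine ⟨m, u + Pi.single j 1, i + l, fun k' => ?_, ?_, rfl⟩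
      · have h1 := hm k'
        have h2 : |θ j k'| ≤ ∑ j', |θ j j'| :=
          Finset.single_le_sum (f := fun j' => |θ j j'|) (fun _ _ => abs_nonneg _)
            (Finset.mem_univ k')
        have h3 := neg_abs_le (θ j k')
        rw [htx]
        push_cast
        linarith
      · have h4 : ∑ k', ((m k' : ℚ) + tx θ (u + Pi.single j 1) k') ≤
            ∑ k', ((m k' : ℚ) + tx θ u k') + ∑ k', |θ j k'| := by
          rw [← Finset.sum_add_distrib]
          apply Finset.sum_le_sum
          intro k' _
          rw [htx]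
          have := le_abs_self (θ j k')
          linarith
        push_cast
        linarith
  | zero => rw [mul_zero]; exact Submodule.zero_mem _
  | add x y _ _ hx hy => rw [mul_add]; exact Submodule.add_mem _ hx hy
  | smul c x _ hx => rw [mul_smul_comm]; exact Submodule.smul_mem _ _ hx

theorem fbr_const {L F : Type} [Field L] [Field F] [CharZero F] [Algebra L F] (α : Fin 3 → L)
    {n : ℕ} (f : Fin (n + 1) → Polynomial L) (t : F) (z : Fin (n + 1) → F)
    (θ : Fin (n + 1) → Fin 3 → ℚ) :
    PowerSeries.constantCoeff (fbr α f t z θ) = ∑ i, Polynomial.aeval t (f i) * z i := by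
  unfold fbr
  rw [map_sum]
  apply Finset.sum_congr rfl
  intro i _
  rw [map_mul, map_mul, tp_const, uu_const, PowerSeries.constantCoeff_C, mul_one,
    Polynomial.eval_map_algebraMap]

end BMF
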