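import Pool.Agent.Lib.MP_a325a5_ag.S.SDef

/-! The series (1 + β s)^κ.  binomialSeries_add, binomialSeries_nat, rescale.  For bs_deriv compare coefficients:
(k+1) choose(κ,k+1) + k choose(κ,k) = κ choose(κ,k). -/

open NumberField

namespace BMF

variable {Ω : Type} [Field Ω] [CharZero Ω]

theorem bs_coeff (β : Ω) (κ : ℚ) (n : ℕ) :
    PowerSeries.coeff n (bs β κ) = β ^ n * ((Ring.choose κ n : ℚ) : Ω) := by
  rw [bs, PowerSeries.coeff_rescale, PowerSeries.binomialSeries_coeff, Rat.smul_one_eq_cast]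

theorem bs_choose (κ : ℚ) (n : ℕ) :
    ((n : ℚ) + 1) * Ring.choose κ (n + 1) = (κ - n) * Ring.choose κ n := by
  have h := Ring.choose_smul_choose κ (Nat.le_succ n)
  rw [Nat.succ_eq_add_one, Nat.choose_succ_self_right, Nat.add_sub_cancel_left,
    Ring.choose_one_right, nsmul_eq_mul] at h
  push_cast at h
  rw [h]; ring

theorem bs_const (β : Ω) (κ : ℚ) : PowerSeries.constantCoeff (bs β κ) = 1 := by
  rw [← PowerSeries.coeff_zero_eq_constantCoeff_apply, bs_coeff, Ring.choose_zero_right]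
  simp

theorem bs_add (β : Ω) (κ κ' : ℚ) : bs β (κ + κ') = bs β κ * bs β κ' := by
  rw [bs, bs, bs, PowerSeries.binomialSeries_add, map_mul]

theorem bs_zero (β : Ω) : bs β 0 = 1 := by
  rw [bs, PowerSeries.binomialSeries_zero, map_one]

theorem bs_nat (β : Ω) (n : ℕ) :
    bs β (n : ℚ) = (1 + PowerSeries.C β * PowerSeries.X) ^ n := by
  rw [bs, PowerSeries.binomialSeries_nat, map_pow, map_add, map_one, PowerSeries.rescale_X]

theorem bs_deriv (β : Ω) (κ : ℚ) :
    (1 + PowerSeries.C β * PowerSeries.X) * PowerSeries.derivative Ω (bs β κ) =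
      PowerSeries.C ((κ : Ω) * β) * bs β κ := by
  ext n
  rw [add_mul, one_mul, mul_assoc, map_add, PowerSeries.coeff_C_mul, PowerSeries.coeff_C_mul,
    PowerSeries.coeff_derivative, bs_coeff, bs_coeff]
  have h := bs_choose κ n
  have h' : ((n : Ω) + 1) * ((Ring.choose κ (n + 1) : ℚ) : Ω) =
      ((κ : Ω) - n) * ((Ring.choose κ n : ℚ) : Ω) := by
    exact_mod_cast congrArg (Rat.cast : ℚ → Ω) h
  cases n with
  | zero =>
    rw [PowerSeries.coeff_zero_X_mul]
    simp only [Nat.cast_zero, zero_add, sub_zero, one_mul, pow_one, pow_zero, mul_one, mul_zero,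
      add_zero] at h' ⊢
    rw [h']; ring
  | succ k =>
    rw [PowerSeries.coeff_succ_X_mul, PowerSeries.coeff_derivative, bs_coeff]
    push_cast at h' ⊢
    linear_combination β ^ (k + 2) * h'

theorem bs_ne (β : Ω) (κ : ℚ) : bs β κ ≠ 0 := by
  intro h
  have h1 := bs_const β κ
  rw [h, map_zero] at h1
  exact zero_ne_one h1

end BMF
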