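import Pool.Agent.Lib.MP_a325a5_ag.S.SDef

/-! Lemma 3.1: write p = (X - α_j)^μ p₁, q = (X - α_j)^ν q₁ with p₁(α_j) q₁(α_j) ≠ 0, cancel (X - α_j)^(μ+ν) and evaluate at α_j:
with A_j(α_j) ≠ 0 (product of differences), pA = (X - α_j) A_j, pA' ..: (μ + κ_j) p₁ q₁ A_j = (ν + κ'_j) p₁ q₁ A_j at α_j. -/

open NumberField

namespace BMF

variable {Ω ι : Type} [Field Ω] [CharZero Ω] [Fintype ι] [DecidableEq ι]

omit [CharZero Ω] in
private theorem ord_der (a : Ω) (μ : ℕ) (p : Polynomial Ω) :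
    (Polynomial.X - Polynomial.C a) *
      Polynomial.derivative ((Polynomial.X - Polynomial.C a) ^ μ * p) =
    (Polynomial.X - Polynomial.C a) ^ μ * (Polynomial.C (μ : Ω) * p +
      (Polynomial.X - Polynomial.C a) * Polynomial.derivative p) := by
  rw [Polynomial.derivative_mul, Polynomial.derivative_X_sub_C_pow]
  rcases μ with _ | μ
  · simp
  · simp only [Nat.add_sub_cancel]
    have : Polynomial.C (((μ + 1 : ℕ) : Ω)) = ((μ + 1 : ℕ) : Polynomial Ω) := by simp
    rw [this]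
    ring

private theorem ord_pK (α : ι → Ω) (κ : ι → ℚ) (j : ι) :
    (pK α κ).eval (α j) = (κ j : Ω) * ∏ i ∈ Finset.univ.erase j, (α j - α i) := by
  unfold pK
  rw [Polynomial.eval_finset_sum, Finset.sum_eq_single j]
  · rw [Polynomial.eval_mul, Polynomial.eval_C, Polynomial.eval_prod]
    simp
  · intro i _ hij
    rw [Polynomial.eval_mul, Polynomial.eval_prod]
    have : ∏ k ∈ Finset.univ.erase i, (Polynomial.X - Polynomial.C (α k)).eval (α j) = 0 := by
      apply Finset.prod_eq_zero (Finset.mem_erase.mpr ⟨fun h => hij h.symm, Finset.mem_univ j⟩)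
      simp
    rw [this, mul_zero]
  · intro h
    exact absurd (Finset.mem_univ j) h

theorem ord_eq (α : ι → Ω) (hα : Function.Injective α) (p q : Polynomial Ω) (hp : p ≠ 0)
    (hq : q ≠ 0) (κ κ' : ι → ℚ)
    (h : (pA α * Polynomial.derivative p + p * pK α κ) * q =
      p * (pA α * Polynomial.derivative q + q * pK α κ')) (j : ι) :
    κ j + (p.rootMultiplicity (α j) : ℚ) = κ' j + (q.rootMultiplicity (α j) : ℚ) := by
  set μ := p.rootMultiplicity (α j) with hμ
  set ν := q.rootMultiplicity (α j) with hν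
  obtain ⟨p₁, hp₁, hp₁'⟩ := Polynomial.exists_eq_pow_rootMultiplicity_mul_and_not_dvd p hp (α j)
  obtain ⟨q₁, hq₁, hq₁'⟩ := Polynomial.exists_eq_pow_rootMultiplicity_mul_and_not_dvd q hq (α j)
  rw [← hμ] at hp₁
  rw [← hν] at hq₁
  set Y : Polynomial Ω := Polynomial.X - Polynomial.C (α j) with hY
  set A : Polynomial Ω := ∏ i ∈ Finset.univ.erase j, (Polynomial.X - Polynomial.C (α i)) with hA
  have hpA : pA α = Y * A := by
    unfold pA
    rw [← Finset.mul_prod_erase _ _ (Finset.mem_univ j)]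
  have hY0 : Y ≠ 0 := Polynomial.X_sub_C_ne_zero _
  have dp := ord_der (α j) μ p₁
  have dq := ord_der (α j) ν q₁
  rw [← hY] at dp dq
  rw [← hp₁] at dp
  rw [← hq₁] at dq
  have h1 : Y ^ (μ + ν) * ((A * (Polynomial.C (μ : Ω) * p₁ + Y * Polynomial.derivative p₁) +
      p₁ * pK α κ) * q₁) = Y ^ (μ + ν) * (p₁ * (A * (Polynomial.C (ν : Ω) * q₁ +
      Y * Polynomial.derivative q₁) + q₁ * pK α κ')) := by
    have e1 : (pA α * Polynomial.derivative p + p * pK α κ) * q =
        Y ^ (μ + ν) * ((A * (Polynomial.C (μ : Ω) * p₁ + Y * Polynomial.derivative p₁) +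
          p₁ * pK α κ) * q₁) := by
      have : pA α * Polynomial.derivative p = A * (Y * Polynomial.derivative p) := by
        rw [hpA]; ring
      rw [this, dp]
      conv_lhs => rw [hq₁]
      rw [hp₁]
      rw [pow_add]
      ring
    have e2 : p * (pA α * Polynomial.derivative q + q * pK α κ') =
        Y ^ (μ + ν) * (p₁ * (A * (Polynomial.C (ν : Ω) * q₁ +
      Y * Polynomial.derivative q₁) + q₁ * pK α κ')) := by
      have : pA α * Polynomial.derivative q = A * (Y * Polynomial.derivative q) := by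
        rw [hpA]; ring
      rw [this, dq]
      conv_lhs => rw [hp₁]
      rw [hq₁]
      rw [pow_add]
      ring
    rw [← e1, ← e2, h]
  have h2 := mul_left_cancel₀ (pow_ne_zero _ hY0) h1
  have h3 := congrArg (Polynomial.eval (α j)) h2
  have hYe : Y.eval (α j) = 0 := by simp [hY]
  have hAe : A.eval (α j) = ∏ i ∈ Finset.univ.erase j, (α j - α i) := by
    rw [hA, Polynomial.eval_prod]
    simp
  have hA0 : A.eval (α j) ≠ 0 := by
    rw [hAe, Finset.prod_ne_zero_iff]
    intro i hi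
    rw [sub_ne_zero]
    intro hij
    exact (Finset.ne_of_mem_erase hi) (hα hij).symm
  have hp0 : p₁.eval (α j) ≠ 0 := fun h0 => hp₁' (Polynomial.dvd_iff_isRoot.mpr h0)
  have hq0 : q₁.eval (α j) ≠ 0 := fun h0 => hq₁' (Polynomial.dvd_iff_isRoot.mpr h0)
  simp only [Polynomial.eval_mul, Polynomial.eval_add, Polynomial.eval_C, hYe, zero_mul, add_zero,
    ord_pK, ← hAe] at h3
  have h4 : (μ : Ω) + (κ j : Ω) = (ν : Ω) + (κ' j : Ω) := by
    have h5 : (A.eval (α j) * p₁.eval (α j) * q₁.eval (α j)) * ((μ : Ω) + (κ j : Ω)) =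
        (A.eval (α j) * p₁.eval (α j) * q₁.eval (α j)) * ((ν : Ω) + (κ' j : Ω)) := by
      linear_combination h3
    exact mul_left_cancel₀ (mul_ne_zero (mul_ne_zero hA0 hp0) hq0) h5
  have h6 : ((μ : ℚ) + κ j) = (ν : ℚ) + κ' j := by
    have : (((μ : ℚ) + κ j : ℚ) : Ω) = (((ν : ℚ) + κ' j : ℚ) : Ω) := by
      push_cast
      exact h4
    exact_mod_cast this
  linarith

end BMF
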