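import Pool.Agent.Lib.MP_a325a5_ag.S.Uu
import Pool.Agent.Lib.MP_a325a5_ag.S.Ord

/-! Lemma 3.2, by induction on r.  D_i := pA p_i' + p_i pK(θ_i) (degree ≤ D + 2 as card ι ≤ 3); pA (p_i U^θ_i)' = D_i U^θ_i.  Differentiate the relation,
multiply by pA p_0 and subtract D_0 times the relation: ∑_{i≥1} (D_i p_0 - p_i D_0) U^θ_i = 0.  If some D_i p_0 = p_i D_0 use ord_eq (the multiplicities are at most D).
Otherwise r ≥ 1 (one single nonzero term is impossible) and the induction hypothesis applies with degree 2D+2 (monotonicity of cr in D may be needed). -/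

open NumberField

namespace BMF

/-- the bound of Lemma 3.2 for `r + 2` terms of degree at most `D` -/
def cr : ℕ → ℕ → ℕ
  | 0, D => D
  | r + 1, D => max D (cr r (2 * D + 2))

theorem le_cr (r D : ℕ) : D ≤ cr r D := by
  cases r with
  | zero => exact le_rfl
  | succ r => exact le_max_left _ _

variable {Ω ι : Type} [Field Ω] [CharZero Ω] [Fintype ι] [DecidableEq ι]

omit [CharZero Ω] [DecidableEq ι] in
theorem close_pA_deg (hι : Fintype.card ι ≤ 3) (α : ι → Ω) : (pA α).natDegree ≤ 3 := by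
  rw [pA]
  refine (Polynomial.natDegree_prod_le _ _).trans ?_
  refine (Finset.sum_le_sum fun i _ => (Polynomial.natDegree_X_sub_C_le (α i))).trans ?_
  simpa using hι

theorem close_pK_deg (hι : Fintype.card ι ≤ 3) (α : ι → Ω) (κ : ι → ℚ) :
    (pK α κ).natDegree ≤ 2 := by
  rw [pK]
  refine Polynomial.natDegree_sum_le_of_forall_le _ _ fun j _ => ?_
  refine (Polynomial.natDegree_C_mul_le _ _).trans ?_
  refine (Polynomial.natDegree_prod_le _ _).trans ?_
  refine (Finset.sum_le_sum fun i _ => (Polynomial.natDegree_X_sub_C_le (α i))).trans ?_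
  rw [Finset.sum_const, smul_eq_mul, mul_one, Finset.card_erase_of_mem (Finset.mem_univ j),
    Finset.card_univ]
  omega

/-- the polynomial `D_i` -/
noncomputable def closeD (α : ι → Ω) (p : Polynomial Ω) (κ : ι → ℚ) : Polynomial Ω :=
  pA α * Polynomial.derivative p + p * pK α κ

theorem closeD_deg (hι : Fintype.card ι ≤ 3) (α : ι → Ω) (p : Polynomial Ω) (κ : ι → ℚ) {D : ℕ}
    (hp : p.natDegree ≤ D) : (closeD α p κ).natDegree ≤ D + 2 := by
  rw [closeD]
  refine (Polynomial.natDegree_add_le _ _).trans (max_le ?_ ?_)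
  · rcases Nat.eq_zero_or_pos p.natDegree with h | h
    · rw [Polynomial.derivative_of_natDegree_zero h, mul_zero, Polynomial.natDegree_zero]
      omega
    · refine Polynomial.natDegree_mul_le.trans ?_
      have h1 := close_pA_deg hι α
      have h2 := Polynomial.natDegree_derivative_lt h.ne'
      omega
  · refine Polynomial.natDegree_mul_le.trans ?_
    have h1 := close_pK_deg hι α κ
    omega

theorem tp_closeD (α : ι → Ω) (t : Ω) (ht : ∀ j, t ≠ α j) (p : Polynomial Ω) (κ : ι → ℚ) :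
    tp t (pA α) * PowerSeries.derivative Ω (tp t p * uu α t κ) =
      tp t (closeD α p κ) * uu α t κ := by
  have h := uu_deriv α t ht κ
  rw [Derivation.leibniz, smul_eq_mul, smul_eq_mul, tp_deriv, closeD, map_add (tp t),
    map_mul (tp t), map_mul (tp t)]
  linear_combination (tp t p) * h

omit [CharZero Ω] in
theorem close_mult (p : Polynomial Ω) (a : Ω) : p.rootMultiplicity a ≤ p.natDegree := by
  classical
  rw [← Polynomial.count_roots]
  exact (Multiset.count_le_card _ _).trans (Polynomial.card_roots' p)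

theorem close_step (α : ι → Ω)
    (hα : Function.Injective α) (t : Ω) (ht : ∀ j, t ≠ α j) (r D : ℕ)
    (p : Fin (r + 2) → Polynomial Ω) (hp : ∀ i, p i ≠ 0) (hd : ∀ i, (p i).natDegree ≤ D)
    (θ : Fin (r + 2) → ι → ℚ) (h : ∑ i, tp t (p i) * uu α t (θ i) = 0) :
    (∃ i j, i ≠ j ∧ ∀ l, ∃ m : ℤ, θ i l - θ j l = m ∧ |m| ≤ D) ∨
      ((∑ i : Fin (r + 1), tp t (closeD α (p i.succ) (θ i.succ) * p 0 -
        p i.succ * closeD α (p 0) (θ 0)) * uu α t (θ i.succ) = 0) ∧
      ∀ i : Fin (r + 1), closeD α (p i.succ) (θ i.succ) * p 0 -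
        p i.succ * closeD α (p 0) (θ 0) ≠ 0) := by
  have h1 : ∑ i, tp t (closeD α (p i) (θ i)) * uu α t (θ i) = 0 := by
    have h2 := congrArg (fun g => tp t (pA α) * PowerSeries.derivative Ω g) h
    simp only [map_sum, Finset.mul_sum, map_zero, mul_zero] at h2
    rw [← h2]
    exact Finset.sum_congr rfl fun i _ => (tp_closeD α t ht (p i) (θ i)).symm
  have h2 : ∑ i, tp t (closeD α (p i) (θ i) * p 0 - p i * closeD α (p 0) (θ 0)) *
      uu α t (θ i) = 0 := by
    have h3 : ∀ i, tp t (closeD α (p i) (θ i) * p 0 - p i * closeD α (p 0) (θ 0)) *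
        uu α t (θ i) = tp t (p 0) * (tp t (closeD α (p i) (θ i)) * uu α t (θ i)) -
        tp t (closeD α (p 0) (θ 0)) * (tp t (p i) * uu α t (θ i)) := by
      intro i
      rw [map_sub (tp t), map_mul (tp t), map_mul (tp t)]
      ring
    rw [Finset.sum_congr rfl fun i _ => h3 i, Finset.sum_sub_distrib, ← Finset.mul_sum,
      ← Finset.mul_sum, h1, h, mul_zero, mul_zero, sub_zero]
  rw [Fin.sum_univ_succ] at h2
  have h3 : closeD α (p 0) (θ 0) * p 0 - p 0 * closeD α (p 0) (θ 0) = 0 := by ring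
  rw [h3, map_zero, zero_mul, zero_add] at h2
  by_cases hc : ∃ i : Fin (r + 1), closeD α (p i.succ) (θ i.succ) * p 0 =
      p i.succ * closeD α (p 0) (θ 0)
  · left
    obtain ⟨i, hi⟩ := hc
    refine ⟨i.succ, 0, Fin.succ_ne_zero i, fun l => ?_⟩
    have h4 := ord_eq α hα (p i.succ) (p 0) (hp _) (hp _) (θ i.succ) (θ 0) hi l
    refine ⟨((p 0).rootMultiplicity (α l) : ℤ) - ((p i.succ).rootMultiplicity (α l) : ℤ), ?_, ?_⟩
    · push_cast
      linarith
    · have h5 := (close_mult (p 0) (α l)).trans (hd 0)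
      have h6 := (close_mult (p i.succ) (α l)).trans (hd _)
      rw [abs_le]; constructor <;> omega
  · right
    push Not at hc
    exact ⟨h2, fun i => sub_ne_zero.mpr (hc i)⟩

theorem exists_close [Nonempty ι] (hι : Fintype.card ι ≤ 3) (α : ι → Ω)
    (hα : Function.Injective α) (t : Ω) (ht : ∀ j, t ≠ α j) (r D : ℕ)
    (p : Fin (r + 2) → Polynomial Ω) (hp : ∀ i, p i ≠ 0) (hd : ∀ i, (p i).natDegree ≤ D)
    (θ : Fin (r + 2) → ι → ℚ) (h : ∑ i, tp t (p i) * uu α t (θ i) = 0) :
    ∃ i j, i ≠ j ∧ ∀ l, ∃ m : ℤ, θ i l - θ j l = m ∧ |m| ≤ cr r D := by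
  induction r generalizing D with
  | zero =>
    rcases close_step α hα t ht 0 D p hp hd θ h with h1 | ⟨h2, hc⟩
    · exact h1
    · exfalso
      rw [Fin.sum_univ_one] at h2
      rcases mul_eq_zero.mp h2 with h4 | h4
      · exact hc 0 (tp_inj t (h4.trans (map_zero (tp t)).symm))
      · exact uu_ne _ _ _ h4
  | succ r ih =>
    rcases close_step α hα t ht (r + 1) D p hp hd θ h with h1 | ⟨h2, hc⟩
    · obtain ⟨i, j, hij, hall⟩ := h1
      refine ⟨i, j, hij, fun l => ?_⟩
      obtain ⟨m, hm, hm2⟩ := hall l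
      refine ⟨m, hm, hm2.trans ?_⟩
      exact_mod_cast le_cr _ D
    · have hdeg : ∀ i : Fin (r + 2), (closeD α (p i.succ) (θ i.succ) * p 0 -
          p i.succ * closeD α (p 0) (θ 0)).natDegree ≤ 2 * D + 2 := by
        intro i
        refine (Polynomial.natDegree_sub_le _ _).trans (max_le ?_ ?_)
        · refine Polynomial.natDegree_mul_le.trans ?_
          have h5 := closeD_deg hι α (p i.succ) (θ i.succ) (hd i.succ)
          have h6 := hd 0
          omega
        · refine Polynomial.natDegree_mul_le.trans ?_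
          have h5 := closeD_deg hι α (p 0) (θ 0) (hd 0)
          have h6 := hd i.succ
          omega
      obtain ⟨i, j, hij, hall⟩ := ih (2 * D + 2)
        (fun i => closeD α (p i.succ) (θ i.succ) * p 0 - p i.succ * closeD α (p 0) (θ 0))
        hc hdeg (fun i => θ i.succ) h2
      refine ⟨i.succ, j.succ, fun h => hij (Fin.succ_injective _ h), fun l => ?_⟩
      obtain ⟨m, hm, hm2⟩ := hall l
      refine ⟨m, hm, hm2.trans ?_⟩
      exact_mod_cast le_max_right _ _

end BMF
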