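import Pool.Agent.Lib.MP_a325a5_ag.S.Pack
import Pool.Agent.Lib.MP_a325a5_ag.S.Greedy

/-! The claim in 4.1, by induction on k.  k = 0: sp a 0 = 0, s has at most one element.  k + 1: λ = ‖rc (a k)‖ ≤ ρ, λ ≥ 1.  Take a maximal λ-separated subset Σ of s (for v,v' in Σ different,
‖rc v - rc v'‖ ≥ λ); packing in the normed space sp a (k+1) of dimension ≤ k+1: |Σ| ≤ (1 + 2ρ/λ)^(k+1) ≤ (3ρ/λ)^(k+1).  Every v in s is within < λ of some σ in Σ, v - σ in Λ, in sp a k by hmin:
the fibre has ≤ 3^(kk) λ^k / ∏_{j<k} elements (induction with ρ := λ, translate of s).  The product: 3^(k+1) 3^(kk) ≤ 3^((k+1)(k+1)). -/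

open NumberField

namespace BMF

private theorem cntsp_rc_sub {N : ℕ} (v w : Fin N → ℤ) : rc (v - w) = rc v - rc w := by
  funext i
  simp [rc]

private theorem cntsp_rc_inj {N : ℕ} : Function.Injective (rc : (Fin N → ℤ) → (Fin N → ℝ)) := by
  intro v w h
  funext i
  have := congrFun h i
  simpa [rc] using this

private theorem cntsp_norm_pos {N : ℕ} {v : Fin N → ℤ} (h : v ≠ 0) : 0 < ‖rc v‖ := by
  rw [norm_pos_iff]
  intro h0
  apply h
  apply cntsp_rc_inj
  rw [h0]
  funext i
  simp [rc]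

private theorem cntsp_finrank {N n : ℕ} (a : Fin n → Fin N → ℤ) (k : ℕ) :
    Module.finrank ℝ (sp a k) ≤ k := by
  classical
  have h1 : sp a k = Submodule.span ℝ
      (((Finset.univ.filter (fun j : Fin n => (j : ℕ) < k)).image (fun j => rc (a j)) :
        Finset (Fin N → ℝ)) : Set (Fin N → ℝ)) := by
    unfold sp
    congr 1
    ext x
    simp only [Set.mem_ofPred_eq, Finset.coe_image, Finset.coe_filter, Finset.mem_univ, true_and,
      Set.mem_image]
    constructor
    · rintro ⟨j, hj, rfl⟩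
      exact ⟨j, hj, rfl⟩
    · rintro ⟨j, hj, rfl⟩
      exact ⟨j, hj, rfl⟩
  rw [h1]
  refine (finrank_span_finset_le_card _).trans ?_
  refine Finset.card_image_le.trans ?_
  rw [Fin.card_filter_val_lt]
  exact min_le_right _ _

/-- a maximal separated subset -/
private theorem cntsp_max {N : ℕ} (s : Finset (Fin N → ℤ)) (l : ℝ) :
    ∃ T ⊆ s, (∀ v ∈ T, ∀ w ∈ T, v ≠ w → l ≤ ‖rc v - rc w‖) ∧
      ∀ v ∈ s, ∃ w ∈ T, ‖rc v - rc w‖ < l ∨ v = w := by
  classical
  let F := s.powerset.filter (fun T => ∀ v ∈ T, ∀ w ∈ T, v ≠ w → l ≤ ‖rc v - rc w‖)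
  have hF : F.Nonempty := ⟨∅, by simp [F]⟩
  obtain ⟨T, hT, hmax⟩ := Finset.exists_max_image F Finset.card hF
  have hT' := Finset.mem_filter.mp hT
  have hTs := Finset.mem_powerset.mp hT'.1
  refine ⟨T, hTs, hT'.2, fun v hv => ?_⟩
  by_contra hcon
  push Not at hcon
  have hvT : v ∉ T := fun h => (hcon v h).2 rfl
  have h1 : insert v T ∈ F := by
    refine Finset.mem_filter.mpr ⟨Finset.mem_powerset.mpr (Finset.insert_subset hv hTs), ?_⟩
    intro x hx y hy hxy
    rcases Finset.mem_insert.mp hx with hx' | hx'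
    · rcases Finset.mem_insert.mp hy with hy' | hy'
      · exact absurd (hx'.trans hy'.symm) hxy
      · rw [hx']
        exact (hcon y hy').1
    · rcases Finset.mem_insert.mp hy with hy' | hy'
      · rw [norm_sub_rev, hy']
        exact (hcon x hx').1
      · exact hT'.2 x hx' y hy' hxy
  have h2 := hmax _ h1
  rw [Finset.card_insert_of_notMem hvT] at h2
  omega

theorem count_span {N n : ℕ} (Λ : AddSubgroup (Fin N → ℤ)) (a : Fin n → Fin N → ℤ)
    (hmin : ∀ k : Fin n, ∀ v ∈ Λ, rc v ∉ sp a k → ‖rc (a k)‖ ≤ ‖rc v‖)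
    (ha0 : ∀ k, a k ≠ 0)
    (hmono : ∀ i j : Fin n, i ≤ j → ‖rc (a i)‖ ≤ ‖rc (a j)‖) (k : ℕ) (hk : k ≤ n) (ρ : ℝ)
    (hρ0 : 0 < ρ) (hρ : ∀ j : Fin n, (j : ℕ) < k → ‖rc (a j)‖ ≤ ρ) (s : Finset (Fin N → ℤ))
    (hs : ∀ v ∈ s, v ∈ Λ ∧ rc v ∈ sp a k ∧ ‖rc v‖ < ρ) :
    (s.card : ℝ) * ∏ j ∈ Finset.univ.filter (fun j : Fin n => (j : ℕ) < k), ‖rc (a j)‖ ≤
      3 ^ (k * k) * ρ ^ k := by
  classical
  induction k generalizing ρ s with
  | zero =>
    have h1 : s ⊆ {0} := by
      intro v hv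
      have h2 := (hs v hv).2.1
      have h3 : sp a 0 = ⊥ := by
        unfold sp
        rw [Submodule.span_eq_bot]
        rintro x ⟨j, hj, _⟩
        exact absurd hj (Nat.not_lt_zero _)
      rw [h3, Submodule.mem_bot] at h2
      rw [Finset.mem_singleton]
      apply cntsp_rc_inj
      rw [h2]
      funext i
      simp [rc]
    have h2 := Finset.card_le_card h1
    rw [Finset.card_singleton] at h2
    have h3 : (s.card : ℝ) ≤ 1 := by exact_mod_cast h2
    simpa using h3
  | succ k ih =>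
    set κ : Fin n := ⟨k, hk⟩ with hκ
    set l : ℝ := ‖rc (a κ)‖ with hl
    have hl0 : 0 < l := cntsp_norm_pos (ha0 κ)
    have hlρ : l ≤ ρ := hρ κ (Nat.lt_succ_self k)
    obtain ⟨T, hTs, hTsep, hTcov⟩ := cntsp_max s l
    -- packing
    have hpack : (T.card : ℝ) ≤ (3 * ρ / l) ^ (k + 1) := by
      let E := sp a (k + 1)
      let e : {v // v ∈ T} → E := fun v => ⟨rc v.1, (hs v.1 (hTs v.2)).2.1⟩
      have he : Function.Injective e := by
        intro v w h
        apply Subtype.ext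
        apply cntsp_rc_inj
        exact congrArg Subtype.val h
      have h1 := packing (E := E) l ρ hl0 hρ0.le (T.attach.image e) (by
        intro x hx
        obtain ⟨v, _, rfl⟩ := Finset.mem_image.mp hx
        exact (hs v.1 (hTs v.2)).2.2.le) (by
        intro x hx y hy hxy
        obtain ⟨v, _, rfl⟩ := Finset.mem_image.mp hx
        obtain ⟨w, _, rfl⟩ := Finset.mem_image.mp hy
        have h2 : v.1 ≠ w.1 := fun h => hxy (by rw [Subtype.ext h])
        exact hTsep v.1 v.2 w.1 w.2 h2)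
      rw [Finset.card_image_of_injective _ he, Finset.card_attach] at h1
      refine h1.trans ?_
      have h3 : 1 ≤ ρ / l := (one_le_div hl0).mpr hlρ
      have h4 : 1 + 2 * ρ / l ≤ 3 * ρ / l := by
        have e1 : 2 * ρ / l = 2 * (ρ / l) := by ring
        have e2 : 3 * ρ / l = 3 * (ρ / l) := by ring
        rw [e1, e2]
        linarith
      have h5 : 1 ≤ 1 + 2 * ρ / l := by
        have : 0 ≤ 2 * ρ / l := by positivity
        linarith
      refine (pow_le_pow_right₀ h5 (cntsp_finrank a (k + 1))).trans ?_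
      exact pow_le_pow_left₀ (by linarith) h4 _
    -- fibres
    have hfib : ∀ w ∈ T, (((s.filter (fun v => ‖rc v - rc w‖ < l)).card : ℕ) : ℝ) *
        ∏ j ∈ Finset.univ.filter (fun j : Fin n => (j : ℕ) < k), ‖rc (a j)‖ ≤
        3 ^ (k * k) * l ^ k := by
      intro w hw
      have hwΛ := (hs w (hTs hw)).1
      have h1 := ih (by omega) l hl0 (fun j hj => hmono j κ (by
        rw [Fin.le_def]
        exact hj.le)) ((s.filter (fun v => ‖rc v - rc w‖ < l)).image (fun v => v - w)) (by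
        intro x hx
        obtain ⟨v, hv, rfl⟩ := Finset.mem_image.mp hx
        obtain ⟨hv1, hv2⟩ := Finset.mem_filter.mp hv
        have h2 : v - w ∈ Λ := Λ.sub_mem (hs v hv1).1 hwΛ
        have h3 : ‖rc (v - w)‖ < l := by
          rw [cntsp_rc_sub]
          exact hv2
        refine ⟨h2, ?_, h3⟩
        by_contra hcon
        exact absurd (hmin κ _ h2 hcon) (not_le.mpr h3))
      rw [Finset.card_image_of_injective _ (sub_left_injective)] at h1
      exact h1
    have hcard : (s.card : ℝ) ≤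
        ∑ w ∈ T, (((s.filter (fun v => ‖rc v - rc w‖ < l)).card : ℕ) : ℝ) := by
      have h1 : s ⊆ T.biUnion (fun w => s.filter (fun v => ‖rc v - rc w‖ < l)) := by
        intro v hv
        obtain ⟨w, hw, h2⟩ := hTcov v hv
        refine Finset.mem_biUnion.mpr ⟨w, hw, Finset.mem_filter.mpr ⟨hv, ?_⟩⟩
        rcases h2 with h2 | h2
        · exact h2
        · rw [h2, sub_self, norm_zero]
          exact hl0
      have h2 := (Finset.card_le_card h1).trans Finset.card_biUnion_le
      exact_mod_cast h2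
    have hprod : ∏ j ∈ Finset.univ.filter (fun j : Fin n => (j : ℕ) < k + 1), ‖rc (a j)‖
        = l * ∏ j ∈ Finset.univ.filter (fun j : Fin n => (j : ℕ) < k), ‖rc (a j)‖ := by
      have h1 : Finset.univ.filter (fun j : Fin n => (j : ℕ) < k + 1)
          = insert κ (Finset.univ.filter (fun j : Fin n => (j : ℕ) < k)) := by
        ext j
        simp only [Finset.mem_filter, Finset.mem_univ, true_and, Finset.mem_insert, hκ,
          Fin.ext_iff]
        omega
      rw [h1, Finset.prod_insert (by simp [hκ])]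
    have hP0 : 0 ≤ ∏ j ∈ Finset.univ.filter (fun j : Fin n => (j : ℕ) < k), ‖rc (a j)‖ :=
      Finset.prod_nonneg fun j _ => norm_nonneg _
    rw [hprod]
    generalize ∏ j ∈ Finset.univ.filter (fun j : Fin n => (j : ℕ) < k), ‖rc (a j)‖ = P at *
    have h1 : (s.card : ℝ) * P ≤ T.card * (3 ^ (k * k) * l ^ k) := by
      calc (s.card : ℝ) * P
          ≤ (∑ w ∈ T, (((s.filter (fun v => ‖rc v - rc w‖ < l)).card : ℕ) : ℝ)) * P :=
            mul_le_mul_of_nonneg_right hcard hP0
        _ = ∑ w ∈ T, (((s.filter (fun v => ‖rc v - rc w‖ < l)).card : ℕ) : ℝ) * P :=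
            Finset.sum_mul _ _ _
        _ ≤ ∑ w ∈ T, 3 ^ (k * k) * l ^ k := Finset.sum_le_sum hfib
        _ = T.card * (3 ^ (k * k) * l ^ k) := by rw [Finset.sum_const, nsmul_eq_mul]
    calc (s.card : ℝ) * (l * P) = ((s.card : ℝ) * P) * l := by ring
      _ ≤ (T.card * (3 ^ (k * k) * l ^ k)) * l := mul_le_mul_of_nonneg_right h1 hl0.le
      _ ≤ ((3 * ρ / l) ^ (k + 1) * (3 ^ (k * k) * l ^ k)) * l := by
          refine mul_le_mul_of_nonneg_right (mul_le_mul_of_nonneg_right hpack ?_) hl0.le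
          positivity
      _ = 3 ^ (k + 1 + k * k) * ρ ^ (k + 1) := by
          have e3 : (3 : ℝ) ^ (k + 1 + k * k) = 3 ^ (k + 1) * 3 ^ (k * k) := pow_add _ _ _
          have e4 : l ^ (k + 1) = l ^ k * l := pow_succ _ _
          have e5 : l ^ (k + 1) ≠ 0 := (pow_pos hl0 _).ne'
          rw [e3, div_pow, mul_pow, div_mul_eq_mul_div, div_mul_eq_mul_div, div_eq_iff e5, e4]
          ring
      _ ≤ 3 ^ ((k + 1) * (k + 1)) * ρ ^ (k + 1) := by
          refine mul_le_mul_of_nonneg_right ?_ (by positivity)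
          refine pow_le_pow_right₀ (by norm_num) ?_
          nlinarith

end BMF
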