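import Pool.Agent.Lib.MP_a325a5_ag.S.SDef

/-! t is a root of ∏ c_j^(a_j^+) - ∏ c_j^(a_j^-), of degree ≤ ∑ |a_j|, not zero because the α_j are distinct and a ≠ 0 (evaluate at some α_j with a_j ≠ 0). -/

open NumberField

namespace BMF

private theorem minDeg_deg {L : Type} [Field L] (α γ : Fin 3 → L) (e : Fin 3 → ℕ) :
    (∏ j, (Polynomial.C (γ j) * (Polynomial.X - Polynomial.C (α j))) ^ e j).natDegree ≤
      ∑ j, e j := by
  refine (Polynomial.natDegree_prod_le _ _).trans (Finset.sum_le_sum fun j _ => ?_)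
  refine Polynomial.natDegree_pow_le.trans ?_
  have h1 : (Polynomial.C (γ j) * (Polynomial.X - Polynomial.C (α j))).natDegree ≤ 1 := by
    refine (Polynomial.natDegree_C_mul_le _ _).trans ?_
    exact (Polynomial.natDegree_X_sub_C (α j)).le
  calc e j * (Polynomial.C (γ j) * (Polynomial.X - Polynomial.C (α j))).natDegree
      ≤ e j * 1 := Nat.mul_le_mul_left _ h1
    _ = e j := mul_one _

private theorem minDeg_eval {L : Type} [Field L] (α γ : Fin 3 → L)
    (hα : Function.Injective α) (hγ : ∀ j, γ j ≠ 0) (e : Fin 3 → ℕ) (j : Fin 3) :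
    (∏ i, (Polynomial.C (γ i) * (Polynomial.X - Polynomial.C (α i))) ^ e i).eval (α j) = 0 ↔
      e j ≠ 0 := by
  rw [Polynomial.eval_prod, Finset.prod_eq_zero_iff]
  constructor
  · rintro ⟨i, -, hi⟩
    rw [Polynomial.eval_pow, pow_eq_zero_iff'] at hi
    obtain ⟨h1, h2⟩ := hi
    simp only [Polynomial.eval_mul, Polynomial.eval_C, Polynomial.eval_sub, Polynomial.eval_X,
      mul_eq_zero, hγ i, false_or, sub_eq_zero] at h1
    have := hα h1
    rw [this]; exact h2
  · intro h
    refine ⟨j, Finset.mem_univ _, ?_⟩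
    rw [Polynomial.eval_pow, pow_eq_zero_iff']
    refine ⟨?_, h⟩
    simp

theorem min_deg {L F : Type} [Field L] [Field F] [Algebra L F] [CharZero L] (α γ : Fin 3 → L)
    (hα : Function.Injective α) (hγ : ∀ j, γ j ≠ 0) (t : F)
    (ht : ∀ j, t ≠ algebraMap L F (α j)) (a : Fin 3 → ℤ) (ha : a ≠ 0)
    (h : ∏ j, cc α γ t j ^ a j = 1) :
    (IsIntegral L t ∧ (minpoly L t).natDegree ≤ ∑ j, (a j).natAbs) ∧
      Module.finrank L (IntermediateField.adjoin L {t}) ≤ ∑ j, (a j).natAbs := by
  set p : Fin 3 → ℕ := fun j => (a j).toNat with hp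
  set q : Fin 3 → ℕ := fun j => (-(a j)).toNat with hq
  set P : Polynomial L := ∏ j, (Polynomial.C (γ j) * (Polynomial.X - Polynomial.C (α j))) ^ p j
    with hP
  set Q : Polynomial L := ∏ j, (Polynomial.C (γ j) * (Polynomial.X - Polynomial.C (α j))) ^ q j
    with hQ
  have hpq : ∀ j, (p j : ℤ) - q j = a j := fun j => by
    simp only [hp, hq]; omega
  have hdeg : (P - Q).natDegree ≤ ∑ j, (a j).natAbs := by
    refine (Polynomial.natDegree_sub_le _ _).trans (max_le ?_ ?_)
    · refine (minDeg_deg α γ p).trans (Finset.sum_le_sum fun j _ => ?_)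
      simp only [hp]; omega
    · refine (minDeg_deg α γ q).trans (Finset.sum_le_sum fun j _ => ?_)
      simp only [hq]; omega
  have hne : P - Q ≠ 0 := by
    intro h0
    have hPQ : P = Q := sub_eq_zero.mp h0
    obtain ⟨j, hj⟩ : ∃ j, a j ≠ 0 := by
      by_contra hcon
      push Not at hcon
      exact ha (funext hcon)
    have e1 := minDeg_eval α γ hα hγ p j
    have e2 := minDeg_eval α γ hα hγ q j
    rw [← hP] at e1
    rw [← hQ, ← hPQ, e1] at e2
    simp only [hp, hq] at e2
    omega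
  have hcc : ∀ j, cc α γ t j ≠ 0 := by
    intro j
    unfold cc
    exact mul_ne_zero ((map_ne_zero _).mpr (hγ j)) (sub_ne_zero.mpr (ht j))
  have hae : ∀ e : Fin 3 → ℕ, Polynomial.aeval t
      (∏ j, (Polynomial.C (γ j) * (Polynomial.X - Polynomial.C (α j))) ^ e j) =
      ∏ j, cc α γ t j ^ e j := by
    intro e
    rw [map_prod]
    apply Finset.prod_congr rfl
    intro j _
    rw [map_pow, map_mul, map_sub, Polynomial.aeval_C, Polynomial.aeval_C, Polynomial.aeval_X]
    rfl
  have hroot : Polynomial.aeval t (P - Q) = 0 := by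
    rw [map_sub, hP, hQ, hae, hae, sub_eq_zero]
    have h1 : ∏ j, cc α γ t j ^ a j = (∏ j, cc α γ t j ^ p j) / ∏ j, cc α γ t j ^ q j := by
      rw [← Finset.prod_div_distrib]
      apply Finset.prod_congr rfl
      intro j _
      rw [← hpq j, zpow_sub₀ (hcc j), zpow_natCast, zpow_natCast]
    have h2 : (∏ j, cc α γ t j ^ q j) ≠ 0 :=
      Finset.prod_ne_zero_iff.mpr fun j _ => pow_ne_zero _ (hcc j)
    rw [h1, div_eq_one_iff_eq h2] at h
    exact h
  have hint : IsIntegral L t := by
    have : IsAlgebraic L t := ⟨P - Q, hne, hroot⟩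
    exact this.isIntegral
  have hmin : (minpoly L t).natDegree ≤ ∑ j, (a j).natAbs := by
    refine (Polynomial.natDegree_le_natDegree ?_).trans hdeg
    exact minpoly.degree_le_of_ne_zero L t hne hroot
  refine ⟨⟨hint, hmin⟩, ?_⟩
  rw [IntermediateField.adjoin.finrank hint]
  exact hmin

end BMF
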