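import Pool.Agent.Lib.MP_a325a5_ag.S.PropA
import Pool.Agent.Lib.MP_a325a5_ag.S.PropB

/-! Combine propA and propB (maximum of the constants; all sz ≥ 1 by independence). -/

open NumberField

namespace BMF

theorem degS {L : Type} [Field L] [NumberField L] (α γ : Fin 3 → L)
    (hα : Function.Injective α) (hγ : ∀ j, γ j ≠ 0) {n : ℕ} (hn : 1 ≤ n)
    (f : Fin (n + 1) → Polynomial L) (hf : ∀ i, f i ≠ 0) :
    ∃ C : ℕ, ∀ (F : Type) [Field F] [NumberField F] [Algebra L F] (t : F)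
      (z : Fin (n + 1) → F), Pt α γ f t z →
      IntermediateField.adjoin L ({t} ∪ Set.range z) = ⊤ →
      ∀ (a : Fin n → Fin 3 → ℤ) (b : Fin n → Fin n → ℤ), (∀ l, Rl α γ t z (a l) (b l)) →
      LinearIndependent ℤ (fun l => (Sum.elim (a l) (b l) : Fin 3 ⊕ Fin n → ℤ)) →
      (Module.finrank L F : ℝ) ≤ C * ∏ l, (sz (a l) (b l) : ℝ) ∨
      ∃ κ : Fin (n + 1) → Fin 3 → ℤ, κ 0 = 0 ∧ (∀ i j, |κ i j| ≤ C) ∧
        fbr α f t z (fun i j => (κ i j : ℚ)) = 0 ∧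
        ∀ i, ∃ m : ℕ, 0 < m ∧ (z i * ∏ j, cc α γ t j ^ (-κ i j)) ^ m = 1 := by
  classical
  obtain ⟨C₁, h₁⟩ := propA α γ hα hγ hn f hf
  obtain ⟨C₂, h₂⟩ := propB α γ hα hγ f
  refine ⟨max C₁ C₂, ?_⟩
  intro F _ _ _ t z hpt htop a b hr hind
  have hs : (0 : ℝ) ≤ ∏ l, (sz (a l) (b l) : ℝ) := Finset.prod_nonneg fun _ _ => Nat.cast_nonneg _
  by_cases hb : (Matrix.of b).det = 0
  · left
    refine (h₂ F t z hpt htop a b hr hind hb).trans (mul_le_mul_of_nonneg_right ?_ hs)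
    exact_mod_cast le_max_right _ _
  · rcases h₁ F t z hpt htop a b hr hb with h | ⟨κ, k0, k1, k2, k3⟩
    · left
      refine h.trans (mul_le_mul_of_nonneg_right ?_ hs)
      exact_mod_cast le_max_left _ _
    · right
      refine ⟨κ, k0, fun i j => (k1 i j).trans ?_, k2, k3⟩
      exact_mod_cast le_max_left _ _

end BMF
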