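import Mathlib

/-! m₀ minimises the natural number [L(μ_m) : ℚ(μ_m)] (= [L(μ_m):ℚ]/φ(m)) over m ≥ 1; it is nonincreasing under divisibility, so it is constant on the multiples of m₀.
Let E' = L(μ_N), E = E'(ξ) = L(μ_(Np)) (N p has p-part p^(v+1), the rest is in μ_N).  [E:E'] = φ(Np)/φ(N) = p if p | N, p - 1 otherwise (IsCyclotomicExtension.Rat / Nat.totient).
p | N: ξ^p in E', so 1..ξ^(p-1) span E over E', hence are a basis.  p ∤ N: ξ is a primitive p-th root of unity, 1 + ξ + .. + ξ^(p-1) = 0, and 1..ξ^(p-2) is a basis;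
so S_j = S_(p-1) for all j. -/

open NumberField

namespace BMF

section mannb

variable {L Ω : Type} [Field L] [Field Ω] [Algebra L Ω]

theorem mannb_prim {Ω : Type} [Field Ω] {N p : ℕ} (hN : 0 < N) (hp : p.Prime) {ξ : Ω}
    (hξ : IsPrimitiveRoot ξ (p ^ (padicValNat p N + 1))) : IsPrimitiveRoot (ξ ^ N) p := by
  haveI := Fact.mk hp
  obtain ⟨N1, hN1⟩ := (pow_padicValNat_dvd : p ^ padicValNat p N ∣ N)
  have hnd : ¬ p ∣ N1 := by
    rintro ⟨c, hc⟩
    refine pow_succ_padicValNat_not_dvd (p := p) hN.ne' ⟨c, ?_⟩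
    calc N = p ^ padicValNat p N * N1 := hN1
      _ = p ^ padicValNat p N * (p * c) := by rw [← hc]
      _ = _ := by rw [pow_succ, mul_assoc]
  have h1 : IsPrimitiveRoot (ξ ^ p ^ padicValNat p N) p :=
    hξ.pow (pow_pos hp.pos _) (pow_succ _ _)
  have h2 := h1.pow_of_coprime N1 ((Nat.Prime.coprime_iff_not_dvd hp).2 hnd).symm
  rw [← pow_mul, ← hN1] at h2
  exact h2

theorem mannb_dec {Ω : Type} [Field Ω] {N p : ℕ} (hN : 0 < N) (hp : p.Prime) {ξ : Ω}
    (hξ : IsPrimitiveRoot ξ (p ^ (padicValNat p N + 1))) (x : Ω) (hx : x ^ (N * p) = 1) :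
    ∃ (j : Fin p) (y : Ω), y ^ N = 1 ∧ x = ξ ^ (j : ℕ) * y := by
  haveI : NeZero p := ⟨hp.ne_zero⟩
  obtain ⟨i, hi, h1⟩ := (mannb_prim hN hp hξ).eq_pow_of_pow_eq_one (ξ := x ^ N)
    (by rw [← pow_mul, hx])
  have hξ0 : ξ ≠ 0 := hξ.ne_zero (pow_pos hp.pos _).ne'
  have hx0 : x ≠ 0 := by
    rintro rfl
    rw [zero_pow (Nat.mul_pos hN hp.pos).ne'] at hx
    exact zero_ne_one hx
  refine ⟨⟨i, hi⟩, (ξ ^ i)⁻¹ * x, ?_, ?_⟩
  · rw [mul_pow, inv_pow, ← pow_mul, mul_comm i N, pow_mul, h1,
      inv_mul_cancel₀ (pow_ne_zero _ hx0)]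
  · rw [← mul_assoc, mul_inv_cancel₀ (pow_ne_zero _ hξ0), one_mul]

theorem mannb_fin (N : ℕ) (hN : 0 < N) :
    FiniteDimensional L (IntermediateField.adjoin L {x : Ω | x ^ N = 1}) := by
  classical
  haveI : Finite {x : Ω | x ^ N = 1} := by
    have : ({x : Ω | x ^ N = 1}).Finite := by
      refine Set.Finite.subset (Polynomial.nthRoots N (1:Ω)).toFinset.finite_toSet ?_
      intro x hx
      rw [Finset.mem_coe, Multiset.mem_toFinset, Polynomial.mem_nthRoots hN]
      exact hx
    exact this.to_subtype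
  refine IntermediateField.finiteDimensional_adjoin fun x hx => ?_
  refine ⟨Polynomial.X ^ N - Polynomial.C 1, Polynomial.monic_X_pow_sub_C _ hN.ne', ?_⟩
  have hx' : x ^ N = 1 := hx
  simp [hx']

theorem mannb_pow_mem {N p : ℕ} (hN : 0 < N) (hp : p.Prime) {ξ : Ω}
    (hξ : IsPrimitiveRoot ξ (p ^ (padicValNat p N + 1))) :
    ξ ^ p ∈ IntermediateField.adjoin L {x : Ω | x ^ N = 1} := by
  refine IntermediateField.subset_adjoin _ _ ?_
  show (ξ ^ p) ^ N = 1
  rw [← pow_mul, mul_comm, pow_mul]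
  exact (mannb_prim hN hp hξ).pow_eq_one

theorem mannb_int {N p : ℕ} (hN : 0 < N) (hp : p.Prime) {ξ : Ω}
    (hξ : IsPrimitiveRoot ξ (p ^ (padicValNat p N + 1))) :
    IsIntegral (IntermediateField.adjoin L {x : Ω | x ^ N = 1}) ξ :=
  hξ.isIntegral (pow_pos hp.pos _) |>.tower_top

theorem mannb_tower {N p : ℕ} (hN : 0 < N) (hp : p.Prime) {ξ : Ω}
    (hξ : IsPrimitiveRoot ξ (p ^ (padicValNat p N + 1))) :
    Module.finrank L (IntermediateField.adjoin L {x : Ω | x ^ (N * p) = 1}) =
      Module.finrank L (IntermediateField.adjoin L {x : Ω | x ^ N = 1}) *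
        (minpoly (IntermediateField.adjoin L {x : Ω | x ^ N = 1}) ξ).natDegree := by
  have hint := mannb_int (L := L) hN hp hξ
  have h1 : (IntermediateField.adjoin (IntermediateField.adjoin L {x : Ω | x ^ N = 1})
      {ξ}).restrictScalars L = IntermediateField.adjoin L {x : Ω | x ^ (N * p) = 1} := by
    rw [IntermediateField.adjoin_adjoin_left]
    apply le_antisymm
    · rw [IntermediateField.adjoin_le_iff]
      rintro x (hx | hx)
      · apply IntermediateField.subset_adjoin
        have hx' : x ^ N = 1 := hx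
        show x ^ (N * p) = 1
        rw [pow_mul, hx', one_pow]
      · apply IntermediateField.subset_adjoin
        rw [Set.mem_singleton_iff] at hx
        show x ^ (N * p) = 1
        rw [hx, pow_mul]
        exact (mannb_prim hN hp hξ).pow_eq_one
    · rw [IntermediateField.adjoin_le_iff]
      intro x hx
      obtain ⟨j, y, hy, rfl⟩ := mannb_dec hN hp hξ x hx
      exact mul_mem (pow_mem (IntermediateField.subset_adjoin L _ (Set.mem_union_right _ (Set.mem_singleton ξ))) _)
        (IntermediateField.subset_adjoin L _ (Set.mem_union_left _ hy))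
  rw [← h1, ← IntermediateField.adjoin.finrank hint]
  exact (Module.finrank_mul_finrank L (IntermediateField.adjoin L {x : Ω | x ^ N = 1})
    (IntermediateField.adjoin (IntermediateField.adjoin L {x : Ω | x ^ N = 1}) {ξ})).symm

theorem mannb_deg {N p : ℕ} (hN : 0 < N) (hp : p.Prime) {ξ : Ω}
    (hξ : IsPrimitiveRoot ξ (p ^ (padicValNat p N + 1))) :
    (minpoly (IntermediateField.adjoin L {x : Ω | x ^ N = 1}) ξ).natDegree * N.totient ≤
      (N * p).totient := by
  by_cases hd : p ∣ N
  · rw [mul_comm N p, Nat.totient_mul_of_prime_of_dvd hp hd]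
    refine Nat.mul_le_mul_right _ ?_
    have hdvd : minpoly (IntermediateField.adjoin L {x : Ω | x ^ N = 1}) ξ ∣
        Polynomial.X ^ p - Polynomial.C ⟨ξ ^ p, mannb_pow_mem hN hp hξ⟩ := by
      apply minpoly.dvd
      rw [map_sub, map_pow, Polynomial.aeval_X, Polynomial.aeval_C]
      exact sub_self _
    have h2 := Polynomial.natDegree_le_of_dvd hdvd
      (Polynomial.monic_X_pow_sub_C _ hp.ne_zero).ne_zero
    rwa [Polynomial.natDegree_X_pow_sub_C] at h2
  · rw [mul_comm N p, Nat.totient_mul_of_prime_of_not_dvd hp hd]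
    refine Nat.mul_le_mul_right _ ?_
    have hv : padicValNat p N = 0 := padicValNat.eq_zero_of_not_dvd hd
    rw [hv, zero_add, pow_one] at hξ
    have hdvd : minpoly (IntermediateField.adjoin L {x : Ω | x ^ N = 1}) ξ ∣
        Polynomial.cyclotomic p (IntermediateField.adjoin L {x : Ω | x ^ N = 1}) := by
      apply minpoly.dvd
      have h3 := hξ.isRoot_cyclotomic hp.pos
      rw [Polynomial.aeval_def, ← Polynomial.eval_map, Polynomial.map_cyclotomic]
      exact h3
    have h2 := Polynomial.natDegree_le_of_dvd hdvd (Polynomial.cyclotomic_ne_zero _ _)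
    rwa [Polynomial.natDegree_cyclotomic, Nat.totient_prime hp] at h2

end mannb

section mannb2

variable {L : Type} [Field L] [NumberField L] [Algebra L (AlgebraicClosure ℚ)]

theorem mannb_dvd (m : ℕ) (hm : 0 < m) : m.totient ∣ Module.finrank ℚ L *
    Module.finrank L (IntermediateField.adjoin L {x : AlgebraicClosure ℚ | x ^ m = 1}) := by
  haveI := mannb_fin (L := L) (Ω := AlgebraicClosure ℚ) m hm
  haveI : NeZero m := ⟨hm.ne'⟩
  obtain ⟨ζ, hζ⟩ := HasEnoughRootsOfUnity.exists_primitiveRoot (AlgebraicClosure ℚ) m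
  have hmem : ζ ∈ IntermediateField.adjoin L {x : AlgebraicClosure ℚ | x ^ m = 1} :=
    IntermediateField.subset_adjoin _ _ hζ.pow_eq_one
  have hζ' : IsPrimitiveRoot
      (⟨ζ, hmem⟩ : IntermediateField.adjoin L {x : AlgebraicClosure ℚ | x ^ m = 1}) m := by
    refine IsPrimitiveRoot.of_map_of_injective
      (f := algebraMap (IntermediateField.adjoin L {x : AlgebraicClosure ℚ | x ^ m = 1})
        (AlgebraicClosure ℚ)) ?_ (FaithfulSMul.algebraMap_injective _ _)
    exact hζ
  haveI : CharZero (IntermediateField.adjoin L {x : AlgebraicClosure ℚ | x ^ m = 1}) :=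
    charZero_of_injective_algebraMap (FaithfulSMul.algebraMap_injective L _)
  rw [Module.finrank_mul_finrank ℚ L
    (IntermediateField.adjoin L {x : AlgebraicClosure ℚ | x ^ m = 1})]
  have h1 := minpoly.degree_dvd (K := ℚ) (hζ'.isIntegral hm).tower_top
  rwa [← Polynomial.cyclotomic_eq_minpoly_rat hζ' hm, Polynomial.natDegree_cyclotomic] at h1

/-- `m₀` and the degree of `ξ` over the multiples of `m₀` -/
theorem mannb_min : ∃ m₀ : ℕ, 0 < m₀ ∧ ∀ (N p : ℕ), 0 < N → p.Prime → m₀ ∣ N →
    ∀ ξ : AlgebraicClosure ℚ, IsPrimitiveRoot ξ (p ^ (padicValNat p N + 1)) →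
    (minpoly (IntermediateField.adjoin L {x : AlgebraicClosure ℚ | x ^ N = 1}) ξ).natDegree *
      N.totient = (N * p).totient := by
  set e : ℕ → ℕ := fun m => Module.finrank L
    (IntermediateField.adjoin L {x : AlgebraicClosure ℚ | x ^ m = 1}) with he
  set h : ℕ → ℕ := fun m => Module.finrank ℚ L * e m / m.totient with hh
  have hD : 0 < Module.finrank ℚ L := Module.finrank_pos
  have hmul : ∀ m, 0 < m → m.totient * h m = Module.finrank ℚ L * e m := fun m hm =>
    Nat.mul_div_cancel' (mannb_dvd (L := L) m hm)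
  -- existence of primitive roots
  have hex : ∀ k : ℕ, 0 < k → ∃ ξ : AlgebraicClosure ℚ, IsPrimitiveRoot ξ k := by
    intro k hk
    haveI : NeZero k := ⟨hk.ne'⟩
    exact HasEnoughRootsOfUnity.exists_primitiveRoot (AlgebraicClosure ℚ) k
  have hmono : ∀ N p : ℕ, 0 < N → p.Prime → h (N * p) ≤ h N := by
    intro N p hN hp
    obtain ⟨ξ, hξ⟩ := hex (p ^ (padicValNat p N + 1)) (pow_pos hp.pos _)
    have h1 := mannb_tower (L := L) hN hp hξ
    have h2 := mannb_deg (L := L) hN hp hξ
    have h3 := hmul N hN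
    have h4 := hmul (N * p) (Nat.mul_pos hN hp.pos)
    have h5 : 0 < N.totient := Nat.totient_pos.2 hN
    have h6 : 0 < (N * p).totient := Nat.totient_pos.2 (Nat.mul_pos hN hp.pos)
    have h7 : e (N * p) * N.totient ≤ e N * (N * p).totient := by
      show Module.finrank L _ * _ ≤ _
      rw [h1, mul_assoc]
      exact Nat.mul_le_mul_left _ h2
    have h8 : (N.totient * (N * p).totient) * h (N * p) ≤ (N.totient * (N * p).totient) * h N := by
      calc (N.totient * (N * p).totient) * h (N * p)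
          = N.totient * ((N * p).totient * h (N * p)) := by ring
        _ = N.totient * (Module.finrank ℚ L * e (N * p)) := by rw [h4]
        _ = Module.finrank ℚ L * (e (N * p) * N.totient) := by ring
        _ ≤ Module.finrank ℚ L * (e N * (N * p).totient) := Nat.mul_le_mul_left _ h7
        _ = (N * p).totient * (Module.finrank ℚ L * e N) := by ring
        _ = (N * p).totient * (N.totient * h N) := by rw [h3]
        _ = _ := by ring
    exact Nat.le_of_mul_le_mul_left h8 (Nat.mul_pos h5 h6)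
  obtain ⟨m₀, hm₀, hmin⟩ := (measure h).wf.has_min {m | 0 < m} ⟨1, Nat.one_pos⟩
  have hmin' : ∀ m, 0 < m → h m₀ ≤ h m := fun m hm => not_lt.1 (hmin m hm)
  have hm₀' : 0 < m₀ := hm₀
  have hle : ∀ k : ℕ, 0 < k → h (m₀ * k) ≤ h m₀ := by
    intro k
    induction k using induction_on_primes with
    | zero => exact fun hk => absurd hk (lt_irrefl _)
    | one => intro _; rw [mul_one]
    | prime_mul p a hp ih =>
      intro hk
      have ha : 0 < a := Nat.pos_of_mul_pos_left hk
      have h1 := hmono (m₀ * a) p (Nat.mul_pos hm₀' ha) hp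
      have h2 : m₀ * (p * a) = m₀ * a * p := by ring
      rw [h2]
      exact h1.trans (ih ha)
  refine ⟨m₀, hm₀', ?_⟩
  intro N p hN hp hdvd ξ hξ
  obtain ⟨k, rfl⟩ := hdvd
  have hk : 0 < k := Nat.pos_of_mul_pos_left hN
  have e1 : h (m₀ * k) = h m₀ := le_antisymm (hle k hk) (hmin' _ hN)
  have e2 : h (m₀ * k * p) = h m₀ :=
    le_antisymm ((hmono _ p hN hp).trans (hle k hk)) (hmin' _ (Nat.mul_pos hN hp.pos))
  have h1 := mannb_tower (L := L) hN hp hξ
  have h3 := hmul (m₀ * k) hN
  have h4 := hmul (m₀ * k * p) (Nat.mul_pos hN hp.pos)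
  rw [e1] at h3
  rw [e2] at h4
  have h9 : 0 < e (m₀ * k) := by
    haveI := mannb_fin (L := L) (Ω := AlgebraicClosure ℚ) (m₀ * k) hN
    exact Module.finrank_pos
  have h10 : e (m₀ * k * p) = e (m₀ * k) * (minpoly (IntermediateField.adjoin L
    {x : AlgebraicClosure ℚ | x ^ (m₀ * k) = 1}) ξ).natDegree := h1
  have h5 : 0 < (m₀ * k).totient := Nat.totient_pos.2 hN
  have hpos : 0 < h m₀ := by
    rcases Nat.eq_zero_or_pos (h m₀) with h0 | h0
    · rw [h0, mul_zero] at h3
      exact absurd h3.symm (Nat.mul_pos hD h9).ne'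
    · exact h0
  refine Nat.eq_of_mul_eq_mul_left (Nat.mul_pos hD h9) ?_
  calc Module.finrank ℚ L * e (m₀ * k) * ((minpoly (IntermediateField.adjoin L
        {x : AlgebraicClosure ℚ | x ^ (m₀ * k) = 1}) ξ).natDegree * (m₀ * k).totient)
      = Module.finrank ℚ L * (e (m₀ * k) * (minpoly (IntermediateField.adjoin L
        {x : AlgebraicClosure ℚ | x ^ (m₀ * k) = 1}) ξ).natDegree) * (m₀ * k).totient := by ring
    _ = ((m₀ * k * p).totient * h m₀) * (m₀ * k).totient := by rw [← h10, ← h4]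
    _ = ((m₀ * k).totient * h m₀) * (m₀ * k * p).totient := by ring
    _ = _ := by rw [h3]

end mannb2

theorem mann_base (L : Type) [Field L] [NumberField L] [Algebra L (AlgebraicClosure ℚ)] :
    ∃ m₀ : ℕ, 0 < m₀ ∧ ∀ (N p : ℕ), 0 < N → p.Prime → m₀ ∣ N →
      ∀ ξ : AlgebraicClosure ℚ, IsPrimitiveRoot ξ (p ^ (padicValNat p N + 1)) →
      ∀ S : Fin p → AlgebraicClosure ℚ,
      (∀ j, S j ∈ IntermediateField.adjoin L {x : AlgebraicClosure ℚ | x ^ N = 1}) →
      ∑ j, S j * ξ ^ (j : ℕ) = 0 → (p ∣ N → ∀ j, S j = 0) ∧ ∀ i j, S i = S j := by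
  obtain ⟨m₀, hm₀, hm⟩ := mannb_min (L := L)
  refine ⟨m₀, hm₀, fun N p hN hp hdvd ξ hξ S hS hsum => ?_⟩
  have hdeg := hm N p hN hp hdvd ξ hξ
  have hφ : 0 < N.totient := Nat.totient_pos.2 hN
  set E := IntermediateField.adjoin L {x : AlgebraicClosure ℚ | x ^ N = 1} with hE
  set S' : Fin p → E := fun j => ⟨S j, hS j⟩ with hS'
  set Q : Polynomial E := ∑ j : Fin p, Polynomial.C (S' j) * Polynomial.X ^ (j : ℕ) with hQ
  have hcoeff : ∀ j : Fin p, Q.coeff j = S' j := by
    intro j
    rw [hQ, Polynomial.finsetSum_coeff, Finset.sum_eq_single j]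
    · rw [Polynomial.coeff_C_mul_X_pow, if_pos rfl]
    · intro i _ hij
      rw [Polynomial.coeff_C_mul_X_pow, if_neg (fun h => hij (Fin.ext h.symm))]
    · intro h
      exact absurd (Finset.mem_univ _) h
  have hroot : Polynomial.aeval ξ Q = 0 := by
    rw [hQ, map_sum, ← hsum]
    refine Finset.sum_congr rfl fun j _ => ?_
    rw [map_mul, map_pow, Polynomial.aeval_X, Polynomial.aeval_C]
    rfl
  have hdvdQ : minpoly E ξ ∣ Q := minpoly.dvd E ξ hroot
  have hdegQ : Q.degree < p := by
    rw [hQ, ← Polynomial.mem_degreeLT]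
    refine Submodule.sum_mem _ fun j _ => ?_
    rw [Polynomial.mem_degreeLT]
    refine (Polynomial.degree_C_mul_X_pow_le _ _).trans_lt ?_
    exact_mod_cast j.2
  by_cases hpN : p ∣ N
  · rw [mul_comm N p, Nat.totient_mul_of_prime_of_dvd hp hpN] at hdeg
    have hd : (minpoly E ξ).natDegree = p := Nat.eq_of_mul_eq_mul_right hφ hdeg
    have hQ0 : Q = 0 := by
      refine Polynomial.eq_zero_of_dvd_of_degree_lt hdvdQ ?_
      rw [Polynomial.degree_eq_natDegree (minpoly.ne_zero (mannb_int (L := L) hN hp hξ)), hd]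
      exact hdegQ
    have hz : ∀ j, S j = 0 := by
      intro j
      have h1 := hcoeff j
      rw [hQ0, Polynomial.coeff_zero] at h1
      exact (congrArg Subtype.val h1).symm
    exact ⟨fun _ => hz, fun i j => by rw [hz i, hz j]⟩
  · refine ⟨fun h => absurd h hpN, ?_⟩
    rw [mul_comm N p, Nat.totient_mul_of_prime_of_not_dvd hp hpN] at hdeg
    have hd : (minpoly E ξ).natDegree = p - 1 := Nat.eq_of_mul_eq_mul_right hφ hdeg
    have hv : padicValNat p N = 0 := padicValNat.eq_zero_of_not_dvd hpN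
    have hξ1 : IsPrimitiveRoot ξ p := by
      rw [hv, zero_add, pow_one] at hξ
      exact hξ
    haveI := Fact.mk hp
    have hcyc : minpoly E ξ = Polynomial.cyclotomic p E := by
      have hdvd2 : minpoly E ξ ∣ Polynomial.cyclotomic p E := by
        apply minpoly.dvd
        have h3 := hξ1.isRoot_cyclotomic hp.pos
        rw [Polynomial.aeval_def, ← Polynomial.eval_map, Polynomial.map_cyclotomic]
        exact h3
      refine (Polynomial.eq_of_monic_of_dvd_of_natDegree_le
        (minpoly.monic (mannb_int (L := L) hN hp hξ)) (Polynomial.cyclotomic.monic _ _) hdvd2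
        ?_).symm
      rw [Polynomial.natDegree_cyclotomic, Nat.totient_prime hp, hd]
    obtain ⟨R, hR⟩ := hdvdQ
    have hRc : ∃ c : E, R = Polynomial.C c := by
      by_cases hR0 : R = 0
      · exact ⟨0, by rw [hR0, map_zero]⟩
      · refine ⟨R.coeff 0, Polynomial.eq_C_of_natDegree_eq_zero ?_⟩
        have hQ1 : Q ≠ 0 := by
          rw [hR]
          exact mul_ne_zero (minpoly.ne_zero (mannb_int (L := L) hN hp hξ)) hR0
        have h4 : Q.natDegree < p := by
          rwa [Polynomial.natDegree_lt_iff_degree_lt hQ1]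
        rw [hR, Polynomial.natDegree_mul
          (minpoly.ne_zero (mannb_int (L := L) hN hp hξ)) hR0, hd] at h4
        omega
    obtain ⟨c, hc⟩ := hRc
    have hall : ∀ j : Fin p, S' j = c := by
      intro j
      rw [← hcoeff j, hR, hc, hcyc, Polynomial.cyclotomic_prime, Polynomial.coeff_mul_C,
        Polynomial.finsetSum_coeff, Finset.sum_eq_single (j : ℕ)]
      · rw [Polynomial.coeff_X_pow, if_pos rfl, one_mul]
      · intro i _ hij
        rw [Polynomial.coeff_X_pow, if_neg (fun h => hij h.symm)]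
      · intro h
        exact absurd (Finset.mem_range.2 j.2) h
    intro i j
    have h1 : S' i = S' j := by rw [hall i, hall j]
    exact congrArg Subtype.val h1

end BMF
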