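import Mathlib

/-! Volume: the open balls of radius ρ/2 around the points are disjoint and contained in the ball of radius R + ρ/2 (MeasureTheory.Measure.addHaar_ball; compare
Mathlib Besicovitch.card_le_of_separated). -/

open MeasureTheory

namespace BMF

open Metric Set Module Measure in
theorem packing {E : Type} [NormedAddCommGroup E] [NormedSpace ℝ E] [FiniteDimensional ℝ E]
    (ρ R : ℝ) (hρ : 0 < ρ) (hR : 0 ≤ R) (s : Finset E) (hs : ∀ x ∈ s, ‖x‖ ≤ R)
    (hsep : ∀ x ∈ s, ∀ y ∈ s, x ≠ y → ρ ≤ ‖x - y‖) :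
    (s.card : ℝ) ≤ (1 + 2 * R / ρ) ^ Module.finrank ℝ E := by
  borelize E
  let μ : Measure E := Measure.addHaar
  have hδ : 0 < ρ / 2 := by positivity
  have hr : 0 < R + ρ / 2 := by positivity
  set A := ⋃ c ∈ s, ball (c : E) (ρ / 2) with hA
  have D : Set.Pairwise (s : Set E) (Function.onFun Disjoint fun c => ball (c : E) (ρ / 2)) := by
    rintro c hc d hd hcd
    apply ball_disjoint_ball
    rw [dist_eq_norm]
    have := hsep c hc d hd hcd
    linarith
  have A_subset : A ⊆ ball (0 : E) (R + ρ / 2) := by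
    refine iUnion₂_subset fun x hx => ?_
    apply ball_subset_ball'
    rw [dist_zero_right]
    have := hs x hx
    linarith
  have I :
    (s.card : ENNReal) * ENNReal.ofReal ((ρ / 2) ^ finrank ℝ E) * μ (ball 0 1) ≤
      ENNReal.ofReal ((R + ρ / 2) ^ finrank ℝ E) * μ (ball 0 1) :=
    calc
      (s.card : ENNReal) * ENNReal.ofReal ((ρ / 2) ^ finrank ℝ E) * μ (ball 0 1) = μ A := by
        rw [hA, measure_biUnion_finset D fun c _ => measurableSet_ball]
        simp only [μ.addHaar_ball_of_pos _ hδ]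
        simp only [Finset.sum_const, nsmul_eq_mul, mul_assoc]
      _ ≤ μ (ball (0 : E) (R + ρ / 2)) := measure_mono A_subset
      _ = ENNReal.ofReal ((R + ρ / 2) ^ finrank ℝ E) * μ (ball 0 1) := by
        simp only [μ.addHaar_ball_of_pos _ hr]
  have J : (s.card : ENNReal) * ENNReal.ofReal ((ρ / 2) ^ finrank ℝ E) ≤
      ENNReal.ofReal ((R + ρ / 2) ^ finrank ℝ E) :=
    (ENNReal.mul_le_mul_iff_left (measure_ball_pos _ _ zero_lt_one).ne' measure_ball_lt_top.ne).1 I
  have K : (s.card : ℝ) * (ρ / 2) ^ finrank ℝ E ≤ (R + ρ / 2) ^ finrank ℝ E := by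
    have h := ENNReal.toReal_le_of_le_ofReal (pow_nonneg hr.le _) J
    rwa [ENNReal.toReal_mul, ENNReal.toReal_natCast, ENNReal.toReal_ofReal (by positivity)] at h
  have e : 1 + 2 * R / ρ = (R + ρ / 2) / (ρ / 2) := by
    field_simp
    ring
  rw [e, div_pow, le_div_iff₀ (by positivity)]
  exact K

end BMF
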