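import Pool.Agent.Lib.MP_a325a5_ag.S.Allc

/-! Corollary 3.4: all_close with p_i = C (z_i) * f_i mapped to F (not zero, degree ≤ max deg f_i); the subsums do not vanish because their constant coefficients are the subsums
∑_I f_i(t) z_i (Pt.sub, tp_const, uu_const).  Then take j = 0, θ_0 = 0. -/

open NumberField

namespace BMF

theorem twist {L : Type} [Field L] [NumberField L] (α γ : Fin 3 → L)
    (hα : Function.Injective α) {n : ℕ} (hn : 1 ≤ n) (f : Fin (n + 1) → Polynomial L)
    (hf : ∀ i, f i ≠ 0) :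
    ∃ C : ℕ, ∀ (F : Type) [Field F] [NumberField F] [Algebra L F] (t : F)
      (z : Fin (n + 1) → F), Pt α γ f t z → ∀ θ : Fin (n + 1) → Fin 3 → ℚ, θ 0 = 0 →
      fbr α f t z θ = 0 → ∀ i j, ∃ m : ℤ, θ i j = m ∧ |m| ≤ C := by
  obtain ⟨r, rfl⟩ : ∃ r, n = r + 1 := ⟨n - 1, by omega⟩
  obtain ⟨C, hC⟩ := all_close r (∑ i, (f i).natDegree)
  refine ⟨C, fun F _ _ _ t z hP θ hθ h0 i j => ?_⟩
  have hinj : Function.Injective (algebraMap L F) := (algebraMap L F).injective
  have hterm : ∀ i, tp t (Polynomial.C (z i) * (f i).map (algebraMap L F)) *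
      uu (fun j => algebraMap L F (α j)) t (θ i) =
      tp t ((f i).map (algebraMap L F)) * (PowerSeries.C (z i) *
        uu (fun j => algebraMap L F (α j)) t (θ i)) := by
    intro i
    rw [map_mul, tp_C]
    ring
  have key := hC F (Fin 3) (by simp) (fun j => algebraMap L F (α j)) (hinj.comp hα) t hP.ne
    (fun i => Polynomial.C (z i) * (f i).map (algebraMap L F)) ?_ ?_ θ ?_ ?_ i 0 j
  · obtain ⟨m, h1, h2⟩ := key
    refine ⟨m, ?_, h2⟩
    rw [hθ, Pi.zero_apply, sub_zero] at h1
    exact h1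
  · intro i
    refine mul_ne_zero (Polynomial.C_ne_zero.mpr (hP.hz i)) ?_
    rw [Ne, Polynomial.map_eq_zero_iff hinj]
    exact hf i
  · intro i
    refine (Polynomial.natDegree_C_mul_le _ _).trans ((Polynomial.natDegree_map_le).trans ?_)
    exact Finset.single_le_sum (f := fun i => (f i).natDegree) (fun _ _ => Nat.zero_le _)
      (Finset.mem_univ i)
  · rw [← h0, fbr]
    exact Finset.sum_congr rfl fun i _ => hterm i
  · intro I hI hI' h1
    refine hP.sub I hI hI' ?_
    have h2 := congrArg PowerSeries.constantCoeff h1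
    rw [map_zero, map_sum] at h2
    rw [← h2]
    refine Finset.sum_congr rfl fun i _ => ?_
    rw [map_mul, uu_const, tp_const, mul_one, Polynomial.eval_mul, Polynomial.eval_C,
      Polynomial.eval_map_algebraMap, mul_comm]

end BMF
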