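import Pool.Agent.Lib.MP_a325a5_ag.S.BaMul
import Pool.Agent.Lib.MP_a325a5_ag.S.BaDim
import Pool.Agent.Lib.MP_a325a5_ag.S.BaEv
import Pool.Agent.Lib.MP_a325a5_ag.S.DimL
import Pool.Agent.Lib.MP_a325a5_ag.S.LatR
import Pool.Agent.Lib.MP_a325a5_ag.S.LatT
import Pool.Agent.Lib.MP_a325a5_ag.S.Twist

/-! PROP A.  core: dim_lemma with B = BA, σ = 4 |det|, τ = |det|, f = fbr, W = ⊤.  propA: θ from lat_theta; C := ⌈max deg f + ∑ |θ|⌉ + 1, |det| C ≤ const ∏ sz (sz ≥ 1 for every l since det ≠ 0).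
If fbr = 0: twist gives integers κ, and z_i^|det| = ∏ cc^(det θ_i) up to sign of exponents: from ∏_l (relation l)^(adj(b)_il): (z_i ∏ cc^(-κ_i))^|det| = 1. -/

open NumberField

namespace BMF

theorem propA_core {L F : Type} [Field L] [Field F] [CharZero F] [Algebra L F]
    [FiniteDimensional L F] (α γ : Fin 3 → L) (hγ : ∀ j, γ j ≠ 0) {n : ℕ}
    (f : Fin (n + 1) → Polynomial L) (t : F) (z : Fin (n + 1) → F) (h : Pt α γ f t z)
    (hgen : IntermediateField.adjoin L ({t} ∪ Set.range z) = ⊤)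
    (a : Fin n → Fin 3 → ℤ) (b : Fin n → Fin n → ℤ) (hr : ∀ l, Rl α γ t z (a l) (b l))
    (hb : (Matrix.of b).det ≠ 0) (θ : Fin n → Fin 3 → ℚ)
    (hθ : ∀ l j, tx θ (b l) j = -(a l j : ℚ)) (C : ℕ) (hC1 : 1 ≤ C)
    (hC : ∀ i, ((f i).natDegree : ℚ) + ∑ j, |(Fin.cons 0 θ : Fin (n + 1) → Fin 3 → ℚ) i j| ≤ C)
    (hf : fbr α f t z (Fin.cons 0 θ) ≠ 0) :
    Module.finrank L F ≤ 4 * (Matrix.of b).det.natAbs * C := by
  set Δ : ℕ := (Matrix.of b).det.natAbs with hΔ
  obtain ⟨R, hR, hR2⟩ := lat_reps b hb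
  obtain ⟨k₀, hk₀⟩ := BA_ev α t z h.z0 θ hgen
  have hdim : ∀ k : ℕ, FiniteDimensional L (BA α t z θ k) ∧
      (Module.finrank L (BA α t z θ k) : ℝ) ≤ (4 * Δ : ℝ) * k + Δ := by
    intro k
    obtain ⟨h1, h2⟩ := BA_dim α γ hγ t z h.ne h.hz θ a b hr hθ R hR2 k
    refine ⟨h1, ?_⟩
    have h3 : Module.finrank L (BA α t z θ k) ≤ Δ * (4 * k + 1) :=
      h2.trans (Nat.mul_le_mul_right _ hR)
    have h4 : (Module.finrank L (BA α t z θ k) : ℝ) ≤ (Δ : ℝ) * (4 * k + 1) := by
      exact_mod_cast h3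
    linarith
  have h0 : PowerSeries.constantCoeff (fbr α f t z (Fin.cons 0 θ)) = 0 := by
    rw [fbr_const]
    exact h.eq
  obtain ⟨-, h5⟩ := dim_lemma (BA α t z θ) (4 * Δ : ℝ) Δ (fun k => (hdim k).1)
    (fun k => (hdim k).2) (fbr α f t z (Fin.cons 0 θ)) hf h0 C hC1
    (fun k g hg => fbr_mul α f t z h.ne h.z0 h.hz θ C hC k g hg) ⊤ k₀
    (fun k hk x _ => hk₀ k hk x)
  rw [finrank_top] at h5
  exact_mod_cast h5

private theorem propA_zp {G : Type} [CommGroup G] (x : G) {n : ℕ} (c : Fin n → ℤ) :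
    ∏ i, x ^ c i = x ^ ∑ i, c i := by
  classical
  refine Finset.induction_on Finset.univ (by simp) (fun a s ha ih => ?_)
  rw [Finset.prod_insert ha, Finset.sum_insert ha, zpow_add, ih]

private theorem propA_adj {G : Type} [AddCommGroup G] {n : ℕ} (b : Fin n → Fin n → ℤ)
    (e : Fin n → G) (h : ∀ l, ∑ i, b l i • e i = 0) (i : Fin n) :
    (Matrix.of b).det • e i = 0 := by
  classical
  have h1 : ∑ l, (Matrix.of b).adjugate i l • ∑ i', b l i' • e i' = 0 :=
    Finset.sum_eq_zero fun l _ => by rw [h l, smul_zero]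
  rw [← h1]
  simp only [Finset.smul_sum, smul_smul]
  rw [Finset.sum_comm]
  have h2 : ∀ i', ∑ l, ((Matrix.of b).adjugate i l * b l i') • e i' =
      (if i = i' then (Matrix.of b).det else 0) • e i' := by
    intro i'
    rw [← Finset.sum_smul]
    congr 1
    have h3 := congrFun (congrFun (Matrix.adjugate_mul (Matrix.of b)) i) i'
    rw [Matrix.mul_apply, Matrix.smul_apply, Matrix.one_apply] at h3
    simpa using h3
  simp only [h2]
  simp

private theorem propA_tors {L F : Type} [Field L] [Field F] [Algebra L F] (α γ : Fin 3 → L)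
    (hγ : ∀ j, γ j ≠ 0)
    {n : ℕ} {f : Fin (n + 1) → Polynomial L} (t : F) (z : Fin (n + 1) → F) (h : Pt α γ f t z)
    (a : Fin n → Fin 3 → ℤ) (b : Fin n → Fin n → ℤ) (hr : ∀ l, Rl α γ t z (a l) (b l))
    (θ : Fin n → Fin 3 → ℚ) (hθ : ∀ l j, tx θ (b l) j = -(a l j : ℚ))
    (κ : Fin (n + 1) → Fin 3 → ℤ)
    (hκ : ∀ i j, (Fin.cons 0 θ : Fin (n + 1) → Fin 3 → ℚ) i j = κ i j) (i : Fin (n + 1)) :
    (z i * ∏ j, cc α γ t j ^ (-κ i j)) ^ (Matrix.of b).det.natAbs = 1 := by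
  classical
  have hcc : ∀ j, cc α γ t j ≠ 0 := by
    intro j h0
    rcases mul_eq_zero.mp h0 with h1 | h1
    · exact hγ j ((map_eq_zero _).mp h1)
    · exact h.ne j (sub_eq_zero.mp h1)
  let c : Fin 3 → Fˣ := fun j => Units.mk0 _ (hcc j)
  let w : Fin (n + 1) → Fˣ := fun i => Units.mk0 _ (h.hz i)
  let η : Fin (n + 1) → Fˣ := fun i => w i * ∏ j, c j ^ (-κ i j)
  have hηv : ∀ i, ((η i : Fˣ) : F) = z i * ∏ j, cc α γ t j ^ (-κ i j) := by
    intro i
    simp only [η, Units.val_mul, Units.coe_prod, Units.val_zpow_eq_zpow_val]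
    rfl
  have hκs : ∀ l j, ∑ i : Fin n, b l i * κ i.succ j = -(a l j) := by
    intro l j
    have h1 := hθ l j
    unfold tx at h1
    have h2 : ∀ i : Fin n, θ i j = κ i.succ j := fun i => by
      have := hκ i.succ j
      simpa using this
    simp only [h2] at h1
    exact_mod_cast h1
  have key : ∀ l, ∑ i : Fin n, b l i • Additive.ofMul (η i.succ) = 0 := by
    intro l
    have h1 : (∏ j, c j ^ a l j) * ∏ i : Fin n, w i.succ ^ b l i = 1 := by
      apply Units.ext
      simp only [Units.val_mul, Units.coe_prod, Units.val_zpow_eq_zpow_val, Units.val_one]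
      exact hr l
    have h2 : ∑ i : Fin n, b l i • Additive.ofMul (η i.succ) =
        Additive.ofMul (∏ i : Fin n, η i.succ ^ b l i) := by
      rw [ofMul_prod]
      exact Finset.sum_congr rfl fun i _ => by rw [ofMul_zpow]
    rw [h2, ofMul_eq_zero, ← h1]
    simp only [η, mul_zpow, Finset.prod_mul_distrib]
    rw [mul_comm]
    congr 1
    -- the product of the `c j`
    have h3 : ∀ j, ∏ i : Fin n, (c j ^ (-κ i.succ j)) ^ b l i = c j ^ a l j := by
      intro j
      simp only [← zpow_mul]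
      rw [propA_zp]
      congr 1
      have h5 := hκs l j
      rw [← neg_eq_iff_eq_neg] at h5
      rw [← h5, ← Finset.sum_neg_distrib]
      exact Finset.sum_congr rfl fun i _ => by ring
    simp only [← Finset.prod_zpow]
    rw [Finset.prod_comm]
    exact Finset.prod_congr rfl fun j _ => h3 j
  have hpow : ∀ x : Fˣ, (Matrix.of b).det • Additive.ofMul x = 0 →
      x ^ (Matrix.of b).det.natAbs = 1 := by
    intro x hx
    rw [← ofMul_zpow, ofMul_eq_zero] at hx
    rcases Int.natAbs_eq (Matrix.of b).det with h1 | h1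
    · rw [h1, zpow_natCast] at hx
      exact hx
    · rw [h1, zpow_neg, zpow_natCast, inv_eq_one] at hx
      exact hx
  have hfin : η i ^ (Matrix.of b).det.natAbs = 1 := by
    refine Fin.cases ?_ (fun i' => ?_) i
    · have h1 : η 0 = 1 := by
        have h2 : ∀ j, κ 0 j = 0 := fun j => by
          have := hκ 0 j
          simp only [Fin.cons_zero, Pi.zero_apply] at this
          exact_mod_cast this.symm
        apply Units.ext
        rw [hηv]
        simp [h2, h.z0]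
      rw [h1, one_pow]
    · exact hpow _ (propA_adj b (fun i => Additive.ofMul (η i.succ)) key i')
  have := congrArg (fun u : Fˣ => (u : F)) hfin
  simp only [Units.val_pow_eq_pow_val, Units.val_one, hηv] at this
  exact this

theorem propA {L : Type} [Field L] [NumberField L] (α γ : Fin 3 → L)
    (hα : Function.Injective α) (hγ : ∀ j, γ j ≠ 0) {n : ℕ} (hn : 1 ≤ n)
    (f : Fin (n + 1) → Polynomial L) (hf : ∀ i, f i ≠ 0) :
    ∃ C : ℕ, ∀ (F : Type) [Field F] [NumberField F] [Algebra L F] (t : F)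
      (z : Fin (n + 1) → F), Pt α γ f t z →
      IntermediateField.adjoin L ({t} ∪ Set.range z) = ⊤ →
      ∀ (a : Fin n → Fin 3 → ℤ) (b : Fin n → Fin n → ℤ), (∀ l, Rl α γ t z (a l) (b l)) →
      (Matrix.of b).det ≠ 0 →
      (Module.finrank L F : ℝ) ≤ C * ∏ l, (sz (a l) (b l) : ℝ) ∨
      ∃ κ : Fin (n + 1) → Fin 3 → ℤ, κ 0 = 0 ∧ (∀ i j, |κ i j| ≤ C) ∧
        fbr α f t z (fun i j => (κ i j : ℚ)) = 0 ∧
        ∀ i, ∃ m : ℕ, 0 < m ∧ (z i * ∏ j, cc α γ t j ^ (-κ i j)) ^ m = 1 := by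
  classical
  obtain ⟨C₁, hC₁⟩ := twist α γ hα hn f hf
  set d : ℕ := ∑ i, (f i).natDegree with hd
  set N : ℕ := n.factorial with hN
  refine ⟨max C₁ (4 * ((d + 2) * N + 3 * N)), ?_⟩
  intro F _ _ _ t z hpt hgen a b hr hb
  obtain ⟨θ, hθ, hθm, hθb, hdet⟩ := lat_theta a b hb
  have hfin : FiniteDimensional L F := Module.Finite.of_restrictScalars_finite ℚ L F
  by_cases hf0 : fbr α f t z (Fin.cons 0 θ) = 0
  · right
    have htw := hC₁ F t z hpt (Fin.cons 0 θ) rfl hf0
    choose κ hκ using htw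
    refine ⟨fun i j => κ i j, ?_, fun i j => ?_, ?_, fun i => ?_⟩
    · funext j
      have h1 := (hκ 0 j).1
      simp only [Fin.cons_zero, Pi.zero_apply] at h1
      have h2 : κ 0 j = 0 := by exact_mod_cast h1.symm
      exact h2
    · refine (hκ i j).2.trans ?_
      exact_mod_cast le_max_left _ _
    · rw [← hf0]
      congr 1
      funext i j
      exact (hκ i j).1.symm
    · refine ⟨(Matrix.of b).det.natAbs, Int.natAbs_pos.mpr hb, ?_⟩
      exact propA_tors α γ hγ t z hpt a b hr θ hθ (fun i j => κ i j)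
        (fun i j => (hκ i j).1) i
  · left
    set M : ℚ := ∑ i, ∑ j, |θ i j| with hM
    have hM0 : 0 ≤ M := Finset.sum_nonneg fun i _ => Finset.sum_nonneg fun j _ => abs_nonneg _
    set m : ℚ := Finset.univ.sup' Finset.univ_nonempty
      (fun i : Fin (n + 1) => ∑ j, |(Fin.cons 0 θ : Fin (n + 1) → Fin 3 → ℚ) i j|) with hm
    have hm1 : ∀ i, ∑ j, |(Fin.cons 0 θ : Fin (n + 1) → Fin 3 → ℚ) i j| ≤ m := fun i =>
      Finset.le_sup' (fun i : Fin (n + 1) =>
        ∑ j, |(Fin.cons 0 θ : Fin (n + 1) → Fin 3 → ℚ) i j|) (Finset.mem_univ i)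
    have hm0 : 0 ≤ m := (Finset.sum_nonneg fun j _ => abs_nonneg _).trans (hm1 0)
    set Δ : ℕ := (Matrix.of b).det.natAbs with hΔ
    set Pr : ℕ := ∏ l, sz (a l) (b l) with hPr
    have hΔq : |((Matrix.of b).det : ℚ)| = Δ := by
      rw [hΔ, ← Int.cast_abs, Int.abs_eq_natAbs]
      simp
    have hPrq : ∏ l, (sz (a l) (b l) : ℚ) = Pr := by
      rw [hPr]; push_cast; rfl
    have hm2 : (Δ : ℚ) * m ≤ 3 * N * Pr := by
      obtain ⟨i, -, hi⟩ := Finset.exists_mem_eq_sup' Finset.univ_nonempty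
        (fun i : Fin (n + 1) => ∑ j, |(Fin.cons 0 θ : Fin (n + 1) → Fin 3 → ℚ) i j|)
      rw [hm, hi, Finset.mul_sum]
      have hpos : (0 : ℚ) ≤ N * Pr := by positivity
      have h3 : ∀ j : Fin 3, (Δ : ℚ) * |(Fin.cons 0 θ : Fin (n + 1) → Fin 3 → ℚ) i j| ≤
          N * Pr := by
        intro j
        refine Fin.cases ?_ (fun i' => ?_) i
        · simpa using hpos
        · have := hθb i' j
          rw [hΔq, hPrq] at this
          simpa using this
      calc ∑ j, (Δ : ℚ) * |(Fin.cons 0 θ : Fin (n + 1) → Fin 3 → ℚ) i j|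
          ≤ ∑ _j : Fin 3, (N * Pr : ℚ) := Finset.sum_le_sum fun j _ => h3 j
        _ = 3 * N * Pr := by simp; ring
    set C : ℕ := d + ⌈m⌉₊ + 1 with hC
    have hcore := propA_core α γ hγ f t z hpt hgen a b hr hb θ hθ C (by omega) (fun i => by
      have h1 : (f i).natDegree ≤ d := Finset.single_le_sum (f := fun i => (f i).natDegree)
        (fun _ _ => Nat.zero_le _) (Finset.mem_univ i)
      have h2 : ((f i).natDegree : ℚ) ≤ d := by exact_mod_cast h1
      have h3 := hm1 i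
      have h4 : m ≤ ⌈m⌉₊ := Nat.le_ceil m
      rw [hC]
      push_cast
      linarith) hf0
    have hΔPr : (Δ : ℚ) ≤ N * Pr := by
      have := hdet
      rw [hPrq] at this
      exact this
    have hfinal : (Module.finrank L F : ℚ) ≤ (4 * ((d + 2) * N + 3 * N) : ℕ) * Pr := by
      have h1 : (Module.finrank L F : ℚ) ≤ 4 * Δ * C := by exact_mod_cast hcore
      have h2 : (C : ℚ) ≤ d + m + 2 := by
        have := (Nat.ceil_lt_add_one hm0).le
        rw [hC]
        push_cast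
        linarith
      have hΔ0 : (0 : ℚ) ≤ Δ := Nat.cast_nonneg _
      have h3 : (Δ : ℚ) * C ≤ Δ * (d + 2) + Δ * m := by
        calc (Δ : ℚ) * C ≤ Δ * (d + m + 2) := mul_le_mul_of_nonneg_left h2 hΔ0
          _ = _ := by ring
      have h4 : (Δ : ℚ) * (d + 2) ≤ (N * Pr) * (d + 2) :=
        mul_le_mul_of_nonneg_right hΔPr (by positivity)
      push_cast
      nlinarith [h1, h3, h4, hm2]
    have hfinal2 : Module.finrank L F ≤ (4 * ((d + 2) * N + 3 * N)) * Pr := by
      exact_mod_cast hfinal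
    calc (Module.finrank L F : ℝ) ≤ ((4 * ((d + 2) * N + 3 * N)) * Pr : ℕ) := by
          exact_mod_cast hfinal2
      _ ≤ ((max C₁ (4 * ((d + 2) * N + 3 * N)) * Pr : ℕ) : ℝ) := by
          exact_mod_cast Nat.mul_le_mul_right _ (le_max_right _ _)
      _ = _ := by rw [hPr]; push_cast; rfl

end BMF
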