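import Pool.Agent.Lib.MP_a325a5_ag.S.CntSp
import Pool.Agent.Lib.MP_a325a5_ag.S.SDef

/-! Lemma 4.1 with N = 3 + n (reindex by finSumFinEquiv), Λ = the relation lattice.  First n independent relations exist: if all of Λ lies in the real span of k < n of its vectors (greedy as
long as possible) the fibres of {0..A}^N -> G have ≤ C A^k elements (count_span), so (A+1)^(n+3) ≤ c A^2 C A^k for all A, impossible.  Then greedy with n vectors, λ_l = ‖rc (a l)‖; every v in Λ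
with ‖rc v‖ < λ_n (the last one) is in sp a (n-1); with A = λ_n - 1 (if λ_n ≥ 2; otherwise all norms are 1, trivial) the fibres have ≤ 3^((n-1)^2) λ_n^(n-1)/∏_{l<n} λ_l elements,
λ_n^(n+3) ≤ c λ_n^2 3^(..) λ_n^(n-1)/∏_{l<n}: λ_n ∏_{l≤n} λ_l ≤ C c, and ∏ λ_l ≤ λ_n^n.  sz ≤ N * norm. -/

open NumberField

namespace BMF

section reln

private theorem RelN_rc_add {N : ℕ} (x y : Fin N → ℤ) : rc (x + y) = rc x + rc y := by
  funext i
  simp [rc]

private theorem RelN_rc_smul {N : ℕ} (m : ℤ) (x : Fin N → ℤ) : rc (m • x) = (m : ℝ) • rc x := by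
  funext i
  simp [rc]

private theorem RelN_norm {N : ℕ} (v : Fin N → ℤ) (hv : v ≠ 0) : 1 ≤ ‖rc v‖ := by
  obtain ⟨i, hi⟩ := Function.ne_iff.1 hv
  have h1 : ‖rc v i‖ ≤ ‖rc v‖ := norm_le_pi_norm (rc v) i
  have h2 : (1 : ℝ) ≤ ‖rc v i‖ := by
    have h3 : (1 : ℤ) ≤ |v i| := Int.one_le_abs hi
    show (1 : ℝ) ≤ ‖((v i : ℤ) : ℝ)‖
    rw [Real.norm_eq_abs]
    exact_mod_cast h3
  linarith

private theorem RelN_one_le {ι : Type} (s : Finset ι) (f : ι → ℝ) (h : ∀ i ∈ s, 1 ≤ f i) :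
    1 ≤ ∏ i ∈ s, f i := by
  classical
  induction s using Finset.induction_on with
  | empty => simp
  | insert a s ha ih =>
    rw [Finset.prod_insert ha]
    have h1 := h a (Finset.mem_insert_self _ _)
    have h2 := ih fun i hi => h i (Finset.mem_insert_of_mem hi)
    nlinarith

/-- one more independent vector -/
private theorem RelN_cons {N k : ℕ} (a : Fin k → Fin N → ℤ) (ha : LinearIndependent ℤ a)
    (u : Fin N → ℤ) (hu : rc u ∉ sp a k) :
    LinearIndependent ℤ (Fin.cons u a : Fin (k + 1) → Fin N → ℤ) := by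
  refine ha.finCons' u a fun c y hy0 hcy => ?_
  by_contra hc
  apply hu
  have hy : rc (y : Fin N → ℤ) ∈ sp a k := by
    have hspan : ∀ w ∈ Submodule.span ℤ (Set.range a), rc w ∈ sp a k := by
      intro w hw
      refine Submodule.span_induction (p := fun w _ => rc w ∈ sp a k) ?_ ?_ ?_ ?_ hw
      · rintro x ⟨j, rfl⟩
        exact Submodule.subset_span ⟨j, j.2, rfl⟩
      · have : rc (0 : Fin N → ℤ) = 0 := by
          funext i
          simp [rc]
        rw [this]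
        exact Submodule.zero_mem _
      · intro x y _ _ hx hy
        rw [RelN_rc_add]
        exact Submodule.add_mem _ hx hy
      · intro m x _ hx
        rw [RelN_rc_smul]
        exact Submodule.smul_mem _ _ hx
    exact hspan _ hy0
  have h1 : (c : ℝ) • rc u + rc (y : Fin N → ℤ) = 0 := by
    rw [← RelN_rc_smul, ← RelN_rc_add, hcy]
    funext i
    simp [rc]
  have hc' : (c : ℝ) ≠ 0 := Int.cast_ne_zero.2 hc
  have h2 : rc u = (c : ℝ)⁻¹ • (-(rc (y : Fin N → ℤ))) := by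
    rw [← eq_neg_of_add_eq_zero_left h1, smul_smul, inv_mul_cancel₀ hc', one_smul]
  rw [h2]
  exact Submodule.smul_mem _ _ (Submodule.neg_mem _ hy)

/-- the lattice of the relations -/
private def RelN_L {G : Type} [CommGroup G] {N : ℕ} (Q : Fin N → G) :
    AddSubgroup (Fin N → ℤ) where
  carrier := {v | ∏ i, Q i ^ v i = 1}
  add_mem' := by
    intro x y hx hy
    have hx' : ∏ i, Q i ^ x i = 1 := hx
    have hy' : ∏ i, Q i ^ y i = 1 := hy
    show ∏ i, Q i ^ (x + y) i = 1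
    have h1 : ∏ i, Q i ^ (x + y) i = (∏ i, Q i ^ x i) * ∏ i, Q i ^ y i := by
      rw [← Finset.prod_mul_distrib]
      exact Finset.prod_congr rfl fun i _ => zpow_add _ _ _
    rw [h1, hx', hy', one_mul]
  zero_mem' := by
    show ∏ i, Q i ^ (0 : Fin N → ℤ) i = 1
    simp
  neg_mem' := by
    intro x hx
    have hx' : ∏ i, Q i ^ x i = 1 := hx
    show ∏ i, Q i ^ (-x) i = 1
    have h1 : ∏ i, Q i ^ (-x) i = (∏ i, Q i ^ x i)⁻¹ := by
      rw [← Finset.prod_inv_distrib]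
      exact Finset.prod_congr rfl fun i _ => zpow_neg _ _
    rw [h1, hx', inv_one]

private theorem RelN_fib {G : Type} [CommGroup G] {N : ℕ} (Q : Fin N → G) (A : ℕ)
    (s : Finset G) (hs : ∀ u : Fin N → ℕ, (∀ i, u i ≤ A) → ∏ i, Q i ^ u i ∈ s) (M : ℝ)
    (hM : ∀ T : Finset (Fin N → ℤ), (∀ v ∈ T, v ∈ RelN_L Q ∧ ‖rc v‖ ≤ A) → (T.card : ℝ) ≤ M) :
    ((A : ℝ) + 1) ^ N ≤ s.card * M := by
  classical
  have hcard : (Fintype.piFinset (fun _ : Fin N => Finset.range (A + 1))).card =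
      (A + 1) ^ N := by
    rw [Fintype.card_piFinset]
    simp
  have hmap : ∀ u ∈ Fintype.piFinset (fun _ : Fin N => Finset.range (A + 1)),
      ∏ i, Q i ^ u i ∈ s := by
    intro u hu
    refine hs u fun i => ?_
    have := Fintype.mem_piFinset.1 hu i
    rw [Finset.mem_range] at this
    omega
  have h1 := Finset.card_eq_sum_card_fiberwise (f := fun u : Fin N → ℕ => ∏ i, Q i ^ u i)
    (s := Fintype.piFinset (fun _ : Fin N => Finset.range (A + 1))) (t := s) hmap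
  rw [hcard] at h1
  have h2 : ((A : ℝ) + 1) ^ N = (((A + 1) ^ N : ℕ) : ℝ) := by push_cast; ring
  rw [h2, h1, Nat.cast_sum, ← nsmul_eq_mul, ← Finset.sum_const]
  refine Finset.sum_le_sum fun g _ => ?_
  set F := Finset.filter (fun u : Fin N → ℕ => ∏ i, Q i ^ u i = g)
    (Fintype.piFinset (fun _ : Fin N => Finset.range (A + 1))) with hF
  rcases F.eq_empty_or_nonempty with h0 | ⟨u0, hu0⟩
  · rw [h0, Finset.card_empty]
    have := hM ∅ (by simp)
    rwa [Finset.card_empty] at this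
  · have hinj : Set.InjOn (fun (u : Fin N → ℕ) (i : Fin N) => ((u i : ℤ) - (u0 i : ℤ))) F := by
      intro x _ y _ hxy
      funext i
      have := congrFun hxy i
      simp only at this
      omega
    rw [← Finset.card_image_of_injOn hinj]
    refine hM _ fun v hv => ?_
    obtain ⟨u, hu, rfl⟩ := Finset.mem_image.1 hv
    rw [hF, Finset.mem_filter, Fintype.mem_piFinset] at hu hu0
    constructor
    · show ∏ i, Q i ^ ((u i : ℤ) - (u0 i : ℤ)) = 1
      rw [Finset.prod_congr rfl fun i _ => zpow_sub (Q i) _ _]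
      rw [Finset.prod_mul_distrib, Finset.prod_inv_distrib]
      simp only [zpow_natCast]
      rw [hu.2, hu0.2, mul_inv_cancel]
    · rw [pi_norm_le_iff_of_nonneg (Nat.cast_nonneg A)]
      intro i
      have e1 := hu.1 i
      have e2 := hu0.1 i
      rw [Finset.mem_range] at e1 e2
      show ‖(((u i : ℤ) - (u0 i : ℤ) : ℤ) : ℝ)‖ ≤ A
      rw [Real.norm_eq_abs]
      have e3 : |(u i : ℤ) - (u0 i : ℤ)| ≤ (A : ℤ) := by
        rw [abs_le]
        constructor <;> omega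
      exact_mod_cast e3

/-- there are `n` independent relations -/
private theorem RelN_exists {G : Type} [CommGroup G] {n : ℕ} (Q : Fin (3 + n) → G) (c : ℝ)
    (hc : 1 ≤ c)
    (hs : ∀ A : ℕ, 1 ≤ A → ∃ s : Finset G, (∀ u : Fin (3 + n) → ℕ, (∀ i, u i ≤ A) →
      ∏ i, Q i ^ u i ∈ s) ∧ (s.card : ℝ) ≤ c * A ^ 2) (k : ℕ) (hk : k ≤ n) :
    ∃ v : Fin k → Fin (3 + n) → ℤ, (∀ l, v l ∈ RelN_L Q) ∧ LinearIndependent ℤ v := by
  induction k with
  | zero => exact ⟨fun l => l.elim0, fun l => l.elim0, linearIndependent_empty_type⟩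
  | succ k ih =>
    obtain ⟨a, haΛ, ha, -, hmin, hmono⟩ := greedy (RelN_L Q) (ih (by omega))
    have ha0 : ∀ l, a l ≠ 0 := fun l => ha.ne_zero l
    by_cases hex : ∃ u ∈ RelN_L Q, rc u ∉ sp a k
    · obtain ⟨u, hu, hu'⟩ := hex
      refine ⟨Fin.cons u a, fun l => ?_, RelN_cons a ha u hu'⟩
      refine Fin.cases ?_ (fun l => ?_) l
      · exact hu
      · exact haΛ l
    · exfalso
      push Not at hex
      -- a large bound
      obtain ⟨A, hA1, hA2, hA3⟩ : ∃ A : ℕ, 1 ≤ A ∧ (∀ j, ‖rc (a j)‖ ≤ (A : ℝ) + 1) ∧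
          c * 3 ^ (k * k) < (A : ℝ) + 1 := by
        obtain ⟨A, hA⟩ := exists_nat_gt (∑ j, ‖rc (a j)‖ + c * 3 ^ (k * k) + 1)
        have h0 : 0 ≤ ∑ j, ‖rc (a j)‖ := Finset.sum_nonneg fun j _ => norm_nonneg _
        have h1 : 0 < c * 3 ^ (k * k) := by positivity
        refine ⟨A, ?_, ?_, ?_⟩
        · have : (1 : ℝ) ≤ A := by linarith
          exact_mod_cast this
        · intro j
          have h2 : ‖rc (a j)‖ ≤ ∑ j, ‖rc (a j)‖ :=
            Finset.single_le_sum (f := fun j => ‖rc (a j)‖) (fun j _ => norm_nonneg _)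
              (Finset.mem_univ j)
          linarith
        · linarith
      obtain ⟨s, hs1, hs2⟩ := hs A hA1
      have hρ0 : (0 : ℝ) < (A : ℝ) + 1 := by positivity
      have hprod : 1 ≤ ∏ j ∈ Finset.univ.filter (fun j : Fin k => (j : ℕ) < k), ‖rc (a j)‖ :=
        RelN_one_le _ _ fun j _ => RelN_norm _ (ha0 j)
      have hfib := RelN_fib Q A s hs1 (3 ^ (k * k) * ((A : ℝ) + 1) ^ k) (by
        intro T hT
        have h1 := count_span (RelN_L Q) a hmin ha0 hmono k le_rfl ((A : ℝ) + 1) hρ0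
          (fun j _ => hA2 j) T (fun v hv => ⟨(hT v hv).1, hex v (hT v hv).1, by
            have := (hT v hv).2
            linarith⟩)
        refine le_trans ?_ h1
        exact le_mul_of_one_le_right (Nat.cast_nonneg _) hprod)
      have hx : (1 : ℝ) ≤ (A : ℝ) + 1 := by
        have : (0 : ℝ) ≤ A := Nat.cast_nonneg A
        linarith
      have hkey : ((A : ℝ) + 1) ^ (3 + n) < ((A : ℝ) + 1) ^ (3 + n) := by
        calc ((A : ℝ) + 1) ^ (3 + n) ≤ s.card * (3 ^ (k * k) * ((A : ℝ) + 1) ^ k) := hfib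
          _ ≤ (c * A ^ 2) * (3 ^ (k * k) * ((A : ℝ) + 1) ^ k) :=
            mul_le_mul_of_nonneg_right hs2 (by positivity)
          _ ≤ (c * ((A : ℝ) + 1) ^ 2) * (3 ^ (k * k) * ((A : ℝ) + 1) ^ k) := by
            gcongr
            linarith
          _ = (c * 3 ^ (k * k)) * ((A : ℝ) + 1) ^ (k + 2) := by ring
          _ < ((A : ℝ) + 1) * ((A : ℝ) + 1) ^ (k + 2) :=
            mul_lt_mul_of_pos_right hA3 (by positivity)
          _ = ((A : ℝ) + 1) ^ (k + 3) := by ring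
          _ ≤ ((A : ℝ) + 1) ^ (3 + n) := pow_le_pow_right₀ hx (by omega)
      exact lt_irrefl _ hkey

private theorem RelN_main {G : Type} [CommGroup G] {m : ℕ} (Q : Fin (3 + (m + 1)) → G) (c : ℝ)
    (hc : 1 ≤ c)
    (hs : ∀ A : ℕ, 1 ≤ A → ∃ s : Finset G, (∀ u : Fin (3 + (m + 1)) → ℕ, (∀ i, u i ≤ A) →
      ∏ i, Q i ^ u i ∈ s) ∧ (s.card : ℝ) ≤ c * A ^ 2) :
    ∃ a : Fin (m + 1) → Fin (3 + (m + 1)) → ℤ, (∀ l, a l ∈ RelN_L Q) ∧ LinearIndependent ℤ a ∧
      (∏ l, ‖rc (a l)‖) ^ (m + 2) ≤ (c * 3 ^ (m * m)) ^ (m + 1) := by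
  obtain ⟨a, haΛ, ha, -, hmin, hmono⟩ := greedy (RelN_L Q) (RelN_exists Q c hc hs (m + 1) le_rfl)
  have ha0 : ∀ l, a l ≠ 0 := fun l => ha.ne_zero l
  have hone : ∀ l, 1 ≤ ‖rc (a l)‖ := fun l => RelN_norm _ (ha0 l)
  refine ⟨a, haΛ, ha, ?_⟩
  set lam := ‖rc (a (Fin.last m))‖ with hlam
  have hle : ∀ l, ‖rc (a l)‖ ≤ lam := fun l => hmono l _ (Fin.le_last l)
  set X := ∏ l, ‖rc (a l)‖ with hX
  set Y := ∏ j ∈ Finset.univ.filter (fun j : Fin (m + 1) => (j : ℕ) < m), ‖rc (a j)‖ with hY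
  have hXY : X = Y * lam := by
    rw [hX, ← Finset.prod_filter_mul_prod_filter_not Finset.univ
      (fun j : Fin (m + 1) => (j : ℕ) < m)]
    refine congrArg (Y * ·) ?_
    have : Finset.univ.filter (fun j : Fin (m + 1) => ¬ (j : ℕ) < m) = {Fin.last m} := by
      ext j
      rw [Finset.mem_filter, Finset.mem_singleton]
      constructor
      · rintro ⟨_, h⟩
        exact Fin.ext (by have := j.2; simp only [Fin.val_last]; omega)
      · rintro rfl
        exact ⟨Finset.mem_univ _, by simp⟩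
    rw [this, Finset.prod_singleton]
  have hX1 : 1 ≤ X := RelN_one_le _ _ fun l _ => hone l
  have hY1 : 1 ≤ Y := RelN_one_le _ _ fun l _ => hone l
  have hlam1 : 1 ≤ lam := hone _
  have hXle : X ≤ lam ^ (m + 1) := by
    have h1 : ∏ l, ‖rc (a l)‖ ≤ ∏ _l : Fin (m + 1), lam :=
      Finset.prod_le_prod (fun l _ => norm_nonneg _) fun l _ => hle l
    rwa [Finset.prod_const, Finset.card_univ, Fintype.card_fin] at h1
  have hmain : lam * X ≤ c * 3 ^ (m * m) := by
    rcases le_or_gt lam 1 with h | h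
    · have e1 : lam = 1 := le_antisymm h hlam1
      have e2 : X ≤ 1 := by
        rw [e1, one_pow] at hXle
        exact hXle
      have e3 : (1 : ℝ) ≤ 3 ^ (m * m) := one_le_pow₀ (by norm_num)
      rw [e1, one_mul]
      nlinarith
    · -- A = ⌈lam⌉ - 1
      set A := ⌈lam⌉₊ - 1 with hA
      have hceil : 1 < ⌈lam⌉₊ := by
        have : (1 : ℝ) < ⌈lam⌉₊ := lt_of_lt_of_le h (Nat.le_ceil lam)
        exact_mod_cast this
      have hA1 : 1 ≤ A := by omega
      have hAc : (A : ℝ) + 1 = ⌈lam⌉₊ := by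
        have : A + 1 = ⌈lam⌉₊ := by omega
        exact_mod_cast this
      have hAlt : (A : ℝ) < lam := by
        have := Nat.ceil_lt_add_one (by linarith : 0 ≤ lam)
        linarith
      have hAge : lam ≤ (A : ℝ) + 1 := by
        rw [hAc]
        exact Nat.le_ceil lam
      obtain ⟨s, hs1, hs2⟩ := hs A hA1
      have hfib := RelN_fib Q A s hs1 (3 ^ (m * m) * lam ^ m / Y) (by
        intro T hT
        have h1 := count_span (RelN_L Q) a hmin ha0 hmono m (by omega) lam (by linarith)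
          (fun j _ => hle j) T (fun v hv => ⟨(hT v hv).1, by
            by_contra hcon
            have h2 := hmin (Fin.last m) v (hT v hv).1 (by simpa using hcon)
            have h3 := (hT v hv).2
            linarith, by
            have := (hT v hv).2
            linarith⟩)
        rw [le_div_iff₀ (by linarith)]
        exact h1)
      have h5 : lam ^ (m + 4) ≤ (c * lam ^ 2) * (3 ^ (m * m) * lam ^ m / Y) := by
        calc lam ^ (m + 4) = lam ^ (3 + (m + 1)) := by ring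
          _ ≤ ((A : ℝ) + 1) ^ (3 + (m + 1)) := pow_le_pow_left₀ (by linarith) hAge _
          _ ≤ s.card * (3 ^ (m * m) * lam ^ m / Y) := hfib
          _ ≤ (c * A ^ 2) * (3 ^ (m * m) * lam ^ m / Y) :=
            mul_le_mul_of_nonneg_right hs2 (by positivity)
          _ ≤ (c * lam ^ 2) * (3 ^ (m * m) * lam ^ m / Y) := by
            gcongr
      have h6 : (lam * X) * lam ^ (m + 2) ≤ (c * 3 ^ (m * m)) * lam ^ (m + 2) := by
        calc (lam * X) * lam ^ (m + 2) = lam ^ (m + 4) * Y := by rw [hXY]; ring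
          _ ≤ ((c * lam ^ 2) * (3 ^ (m * m) * lam ^ m / Y)) * Y :=
            mul_le_mul_of_nonneg_right h5 (by linarith)
          _ = (c * 3 ^ (m * m)) * lam ^ (m + 2) * (Y / Y) := by ring
          _ = _ := by rw [div_self (by linarith), mul_one]
      exact le_of_mul_le_mul_right h6 (by positivity)
  calc X ^ (m + 2) = X ^ (m + 1) * X := pow_succ _ _
    _ ≤ X ^ (m + 1) * lam ^ (m + 1) := mul_le_mul_of_nonneg_left hXle (by positivity)
    _ = (lam * X) ^ (m + 1) := by rw [mul_pow, mul_comm]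
    _ ≤ (c * 3 ^ (m * m)) ^ (m + 1) := pow_le_pow_left₀ (by positivity) hmain _

private theorem RelN_sz {n : ℕ} (a : Fin 3 → ℤ) (b : Fin n → ℤ) (v : Fin (3 + n) → ℤ)
    (hv : ∀ i, v (finSumFinEquiv i) = Sum.elim a b i) : (sz a b : ℝ) ≤ (3 + n) * ‖rc v‖ := by
  have h1 : (sz a b : ℝ) = ∑ i : Fin 3 ⊕ Fin n, |((Sum.elim a b i : ℤ) : ℝ)| := by
    rw [Fintype.sum_sum_type]
    unfold sz
    push_cast
    simp [Nat.cast_natAbs]
  have h2 : ∀ i : Fin 3 ⊕ Fin n, |((Sum.elim a b i : ℤ) : ℝ)| ≤ ‖rc v‖ := by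
    intro i
    rw [← hv i, ← Real.norm_eq_abs]
    exact norm_le_pi_norm (rc v) _
  rw [h1]
  refine (Finset.sum_le_sum fun i _ => h2 i).trans ?_
  rw [Finset.sum_const, Finset.card_univ, Fintype.card_sum, Fintype.card_fin, Fintype.card_fin,
    nsmul_eq_mul]
  push_cast
  exact le_rfl

end reln

theorem relationsN (n : ℕ) (hn : 1 ≤ n) : ∃ C : ℝ, 0 < C ∧ ∀ (G : Type) [CommGroup G]
    (P : Fin 3 ⊕ Fin n → G) (c : ℝ), 1 ≤ c →
    (∀ A : ℕ, 1 ≤ A → ∃ s : Finset G, (∀ u : Fin 3 ⊕ Fin n → ℕ, (∀ i, u i ≤ A) →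
      ∏ i, P i ^ u i ∈ s) ∧ (s.card : ℝ) ≤ c * A ^ 2) →
    ∃ (a : Fin n → Fin 3 → ℤ) (b : Fin n → Fin n → ℤ),
      LinearIndependent ℤ (fun l => (Sum.elim (a l) (b l) : Fin 3 ⊕ Fin n → ℤ)) ∧
      (∀ l, (∏ j, P (Sum.inl j) ^ a l j) * ∏ i, P (Sum.inr i) ^ b l i = 1) ∧
      ∏ l, (sz (a l) (b l) : ℝ) ≤ C * c ^ ((n : ℝ) / (n + 1)) := by
  obtain ⟨m, rfl⟩ : ∃ m, n = m + 1 := ⟨n - 1, by omega⟩
  set q : ℝ := (((m + 1 : ℕ) : ℝ) / ((m + 1 : ℕ) + 1)) with hq
  refine ⟨(3 + ((m + 1 : ℕ) : ℝ)) ^ (m + 1) * (3 ^ (m * m) : ℝ) ^ q, by positivity, ?_⟩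
  intro G _ P c hc hs
  set e := (finSumFinEquiv : Fin 3 ⊕ Fin (m + 1) ≃ Fin (3 + (m + 1))) with he
  obtain ⟨a, haΛ, ha, hprod⟩ := RelN_main (fun i => P (e.symm i)) c hc (by
    intro A hA
    obtain ⟨s, hs1, hs2⟩ := hs A hA
    refine ⟨s, fun u hu => ?_, hs2⟩
    have h1 := hs1 (fun i => u (e i)) (fun i => hu _)
    rw [← Equiv.prod_comp e]
    simpa using h1)
  refine ⟨fun l j => a l (e (Sum.inl j)), fun l i => a l (e (Sum.inr i)), ?_, ?_, ?_⟩
  · have h1 : (fun l => (Sum.elim (fun j => a l (e (Sum.inl j))) (fun i => a l (e (Sum.inr i))) :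
        Fin 3 ⊕ Fin (m + 1) → ℤ)) = fun l => (LinearEquiv.funCongrLeft ℤ ℤ e) (a l) := by
      funext l i
      rcases i with i | i <;> rfl
    rw [h1]
    exact ha.map' (LinearEquiv.funCongrLeft ℤ ℤ e).toLinearMap (LinearEquiv.ker _)
  · intro l
    have h1 : ∏ i, (P (e.symm i)) ^ a l i = 1 := haΛ l
    rw [← Equiv.prod_comp e, Fintype.prod_sum_type] at h1
    simpa using h1
  · have hsz : ∀ l, (sz (fun j => a l (e (Sum.inl j))) (fun i => a l (e (Sum.inr i))) : ℝ) ≤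
        (3 + ((m + 1 : ℕ) : ℝ)) * ‖rc (a l)‖ := by
      intro l
      refine RelN_sz _ _ (a l) fun i => ?_
      rcases i with i | i <;> rfl
    have h1 : ∏ l, (sz (fun j => a l (e (Sum.inl j))) (fun i => a l (e (Sum.inr i))) : ℝ) ≤
        ∏ l, ((3 + ((m + 1 : ℕ) : ℝ)) * ‖rc (a l)‖) :=
      Finset.prod_le_prod (fun l _ => Nat.cast_nonneg _) fun l _ => hsz l
    rw [Finset.prod_mul_distrib, Finset.prod_const, Finset.card_univ, Fintype.card_fin] at h1
    refine h1.trans ?_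
    rw [mul_assoc]
    refine mul_le_mul_of_nonneg_left ?_ (by positivity)
    set X := ∏ l, ‖rc (a l)‖ with hX
    have hX0 : 0 ≤ X := Finset.prod_nonneg fun l _ => norm_nonneg _
    have hc0 : (0 : ℝ) ≤ c := by linarith
    rw [← Real.mul_rpow (by positivity) hc0, mul_comm]
    have h2 : X = (X ^ (m + 2)) ^ ((1 : ℝ) / ((m + 2 : ℕ) : ℝ)) := by
      rw [← Real.rpow_natCast, ← Real.rpow_mul hX0]
      rw [mul_one_div_cancel (by positivity), Real.rpow_one]
    have h3 : (c * 3 ^ (m * m)) ^ q =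
        ((c * 3 ^ (m * m)) ^ (m + 1)) ^ ((1 : ℝ) / ((m + 2 : ℕ) : ℝ)) := by
      rw [← Real.rpow_natCast (c * 3 ^ (m * m)) (m + 1), ← Real.rpow_mul (by positivity), hq]
      congr 1
      push_cast
      ring
    rw [h2, h3]
    exact Real.rpow_le_rpow (by positivity) hprod (by positivity)

end BMF
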