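import Pool.Agent.Lib.MP_a325a5_ag.S.Bs

/-! The series U^κ = uu α t κ and the embedding tp t : p ↦ p(t + s).  T - α_j = (t - α_j)(1 + s/(t - α_j)).
uu_deriv: product rule and bs_deriv. -/

open NumberField

namespace BMF

variable {Ω ι : Type} [Field Ω] [CharZero Ω] [Fintype ι]

theorem uu_const (α : ι → Ω) (t : Ω) (κ : ι → ℚ) : PowerSeries.constantCoeff (uu α t κ) = 1 := by
  rw [uu, map_prod]
  exact Finset.prod_eq_one fun j _ => bs_const _ _

theorem uu_add (α : ι → Ω) (t : Ω) (κ κ' : ι → ℚ) :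
    uu α t (κ + κ') = uu α t κ * uu α t κ' := by
  rw [uu, uu, uu, ← Finset.prod_mul_distrib]
  exact Finset.prod_congr rfl fun j _ => by rw [Pi.add_apply, bs_add]

theorem uu_zero (α : ι → Ω) (t : Ω) : uu α t 0 = 1 := by
  rw [uu]
  exact Finset.prod_eq_one fun j _ => by rw [Pi.zero_apply, bs_zero]

theorem uu_ne (α : ι → Ω) (t : Ω) (κ : ι → ℚ) : uu α t κ ≠ 0 := by
  intro h
  have h1 := uu_const α t κ
  rw [h, map_zero] at h1
  exact zero_ne_one h1

omit [CharZero Ω] in
theorem tp_X (t : Ω) : tp t Polynomial.X = PowerSeries.X + PowerSeries.C t := by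
  rw [tp, Polynomial.coe_eval₂RingHom, Polynomial.eval₂_X]

omit [CharZero Ω] in
theorem tp_C (t c : Ω) : tp t (Polynomial.C c) = PowerSeries.C c := by
  rw [tp, Polynomial.coe_eval₂RingHom, Polynomial.eval₂_C]

omit [CharZero Ω] in
theorem tp_eq_taylor (t : Ω) (p : Polynomial Ω) :
    tp t p = ((Polynomial.taylor t p : Polynomial Ω) : PowerSeries Ω) := by
  have h : tp t = (Polynomial.coeToPowerSeries.ringHom (R := Ω)).comp
      (Polynomial.taylorAlgHom t : Polynomial Ω →+* Polynomial Ω) := by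
    refine Polynomial.ringHom_ext (fun a => ?_) ?_
    · rw [tp_C, RingHom.comp_apply]
      simp
    · rw [tp_X, RingHom.comp_apply]
      simp
  rw [h]
  rfl

omit [CharZero Ω] in
theorem tp_inj (t : Ω) : Function.Injective (tp t) := by
  intro p q h
  rw [tp_eq_taylor, tp_eq_taylor, Polynomial.coe_inj] at h
  exact Polynomial.taylor_injective t h

omit [CharZero Ω] in
theorem tp_const (t : Ω) (p : Polynomial Ω) :
    PowerSeries.constantCoeff (tp t p) = p.eval t := by
  rw [tp_eq_taylor, ← PowerSeries.coeff_zero_eq_constantCoeff_apply, Polynomial.coeff_coe,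
    Polynomial.taylor_coeff_zero]

omit [CharZero Ω] in
theorem tp_deriv (t : Ω) (p : Polynomial Ω) :
    PowerSeries.derivative Ω (tp t p) = tp t (Polynomial.derivative p) := by
  induction p using Polynomial.induction_on' with
  | add p q hp hq => rw [map_add, map_add, map_add, map_add, hp, hq]
  | monomial n a =>
    rw [← Polynomial.C_mul_X_pow_eq_monomial, map_mul (tp t), map_pow (tp t), tp_C, tp_X,
      Polynomial.derivative_C_mul_X_pow, map_mul (tp t), map_pow (tp t), tp_C, tp_X,
      Derivation.leibniz, PowerSeries.derivative_pow]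
    simp only [PowerSeries.derivative_C, add_zero, map_add, PowerSeries.derivative_X,
      smul_eq_mul, mul_one, map_mul, map_natCast]
    ring

omit [CharZero Ω] [Fintype ι] in
theorem deriv_prod [DecidableEq ι] (S : Finset ι) (g : ι → PowerSeries Ω) :
    PowerSeries.derivative Ω (∏ j ∈ S, g j) =
      ∑ j ∈ S, (∏ i ∈ S.erase j, g i) * PowerSeries.derivative Ω (g j) := by
  induction S using Finset.induction_on with
  | empty => simp
  | insert a S ha ih =>
    rw [Finset.prod_insert ha, Derivation.leibniz, smul_eq_mul, smul_eq_mul, ih,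
      Finset.sum_insert ha, Finset.erase_insert ha, Finset.mul_sum, add_comm]
    congr 1
    refine Finset.sum_congr rfl fun j hj => ?_
    have hja : a ≠ j := fun h => ha (h ▸ hj)
    rw [Finset.erase_insert_of_ne hja, Finset.prod_insert
      (fun h => ha (Finset.mem_of_mem_erase h)), mul_assoc]

theorem uu_deriv [DecidableEq ι] (α : ι → Ω) (t : Ω) (ht : ∀ j, t ≠ α j) (κ : ι → ℚ) :
    tp t (pA α) * PowerSeries.derivative Ω (uu α t κ) = tp t (pK α κ) * uu α t κ := by
  have hlin : ∀ j, tp t (Polynomial.X - Polynomial.C (α j)) =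
      PowerSeries.C (t - α j) * (1 + PowerSeries.C ((t - α j)⁻¹) * PowerSeries.X) := by
    intro j
    rw [map_sub, tp_X, tp_C, mul_add, mul_one, ← mul_assoc, ← map_mul,
      mul_inv_cancel₀ (sub_ne_zero.mpr (ht j)), map_one, one_mul, map_sub]
    ring
  have h1 : ∀ j, tp t (Polynomial.X - Polynomial.C (α j)) *
      PowerSeries.derivative Ω (bs ((t - α j)⁻¹) (κ j)) =
      PowerSeries.C ((κ j : ℚ) : Ω) * bs ((t - α j)⁻¹) (κ j) := by
    intro j
    rw [hlin, mul_assoc, bs_deriv, ← mul_assoc, ← map_mul]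
    congr 2
    field_simp [sub_ne_zero.mpr (ht j)]
  have hprod : PowerSeries.derivative Ω (uu α t κ) = ∑ j, (∏ i ∈ Finset.univ.erase j,
      bs ((t - α i)⁻¹) (κ i)) * PowerSeries.derivative Ω (bs ((t - α j)⁻¹) (κ j)) := by
    rw [uu, deriv_prod]
  rw [hprod, Finset.mul_sum, pK, map_sum, Finset.sum_mul]
  refine Finset.sum_congr rfl fun j _ => ?_
  rw [pA, ← Finset.mul_prod_erase Finset.univ _ (Finset.mem_univ j), map_mul, map_mul, tp_C,
    uu, ← Finset.mul_prod_erase Finset.univ (fun j => bs ((t - α j)⁻¹) (κ j)) (Finset.mem_univ j)]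
  linear_combination (tp t (∏ i ∈ Finset.univ.erase j, (Polynomial.X - Polynomial.C (α i)))) *
    (∏ i ∈ Finset.univ.erase j, bs ((t - α i)⁻¹) (κ i)) * h1 j

theorem uu_nat (α : ι → Ω) (t : Ω) (ht : ∀ j, t ≠ α j) (n : ι → ℕ) :
    tp t (∏ j, (Polynomial.X - Polynomial.C (α j)) ^ n j) =
      PowerSeries.C (∏ j, (t - α j) ^ n j) * uu α t (fun j => (n j : ℚ)) := by
  rw [map_prod, map_prod, uu, ← Finset.prod_mul_distrib]
  refine Finset.prod_congr rfl fun j _ => ?_
  rw [map_pow, map_sub, tp_X, tp_C, bs_nat, map_pow, ← mul_pow, mul_add, mul_one, ← mul_assoc,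
    ← map_mul, mul_inv_cancel₀ (sub_ne_zero.mpr (ht j)), map_one, one_mul, map_sub]
  congr 1
  ring

end BMF
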